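import Pool.Agent.Helper33.LocalLagrange

/-!
# The local lower bound for polynomials
-/

set_option autoImplicit false

open Polynomial Finset

namespace Pool.Agent.Helper33.UB

variable {K : Type*} [Field K]

lemma geP_prod' {v : DV K} {c : ℝ} {ι : Type*} [DecidableEq ι] (s : Finset ι) (e : ι → ℝ) (P : ι → K[X])
    (h : ∀ i ∈ s, geP v c (e i) (P i)) : geP v c (∑ i ∈ s, e i) (∏ i ∈ s, P i) := by
  induction s using Finset.induction_on with
  | empty => simpa using geP_one
  | insert a s ha ih =>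
    rw [Finset.prod_insert ha, Finset.sum_insert ha]
    exact geP_mul (h a (Finset.mem_insert_self a s)) (ih fun i hi => h i (Finset.mem_insert_of_mem hi))

/-- Taylor coefficients are coefficients of the translate -/
lemma tc_linear_prod (a : K) (s : Finset K) :
    taylor a (∏ z ∈ s, (X - C z)) = ∏ z ∈ s, (X - C (z - a)) := by
  rw [taylor_apply, Polynomial.prod_comp]
  apply prod_congr rfl
  intro z _
  simp only [sub_comp, X_comp, C_comp, C_sub]
  ring

/-- **The interpolation lemma.** -/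
lemma q_lemma [DecidableEq K] {v : DV K} {g : K[X]} {s : Finset K} (hdeg : g.degree < s.card) (hg : g ≠ 0)
    {ρ : ℝ} (hρ : ∀ y ∈ s, ∀ z ∈ s, y ≠ z → (v.o (y - z) : ℝ) ≤ ρ) :
    ∃ a ∈ s, g.eval a ≠ 0 ∧ ∀ j : ℕ, 1 ≤ j → v.ge ((v.o (g.eval a) : ℝ) - j * ρ) (tc g a j) := by
  -- a point where `g` does not vanish
  have hex : (s.filter fun y => g.eval y ≠ 0).Nonempty := by
    by_contra hcon
    rw [not_nonempty_iff_eq_empty, filter_eq_empty_iff] at hcon
    apply hg
    apply Polynomial.eq_zero_of_degree_lt_of_eval_finset_eq_zero s hdeg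
    intro y hy
    have := hcon hy
    push Not at this
    exact this
  obtain ⟨a, ha, hmin⟩ := exists_min_image _
    (fun y => (v.o (g.eval y) : ℝ) - ∑ z ∈ s.erase y, (v.o (y - z) : ℝ)) hex
  rw [mem_filter] at ha
  refine ⟨a, ha.1, ha.2, ?_⟩
  intro j hj
  have hinj : Set.InjOn (id : K → K) (s : Set K) := fun _ _ _ _ h => h
  have hgi := Lagrange.eq_interpolate_of_eval_eq (s := s) (v := id) (fun y => g.eval y) hinj hdeg
    (fun y _ => rfl)
  set Q : ℝ := (v.o (g.eval a) : ℝ) - ∑ z ∈ s.erase a, (v.o (a - z) : ℝ) with hQ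
  -- expansion of `g`
  have hexp : g = ∑ y ∈ s, C (g.eval y * ∏ z ∈ s.erase y, (y - z)⁻¹) * ∏ z ∈ s.erase y, (X - C z) := by
    conv_lhs => rw [hgi, Lagrange.interpolate_apply]
    apply sum_congr rfl
    intro y _
    unfold Lagrange.basis Lagrange.basisDivisor
    simp only [id]
    rw [prod_mul_distrib, C_mul, mul_assoc, ← map_prod C]
  have htc : tc g a j = ∑ y ∈ s, (g.eval y * ∏ z ∈ s.erase y, (y - z)⁻¹) *
      (∏ z ∈ s.erase y, (X - C (z - a)) : K[X]).coeff j := by
    unfold tc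
    conv_lhs => rw [hexp, map_sum, finsetSum_coeff]
    apply sum_congr rfl
    intro y _
    rw [taylor_mul, taylor_C, coeff_C_mul, tc_linear_prod]
  rw [htc]
  apply DV.ge_sum
  intro y hy
  by_cases hgy : g.eval y = 0
  · left; rw [hgy]; ring
  -- the constant
  have hc : v.ge Q (g.eval y * ∏ z ∈ s.erase y, (y - z)⁻¹) := by
    right
    have h1 : ∀ z ∈ s.erase y, (y - z)⁻¹ ≠ 0 := fun z hz =>
      inv_ne_zero (sub_ne_zero.mpr (Ne.symm (mem_erase.mp hz).1))
    rw [v.mul _ _ hgy (prod_ne_zero_iff.mpr h1), v.o_prod _ _ h1]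
    have h2 := hmin y (mem_filter.mpr ⟨hy, hgy⟩)
    rw [hQ]
    push_cast
    have h3 : ∑ z ∈ s.erase y, (v.o (y - z)⁻¹ : ℝ) = - ∑ z ∈ s.erase y, (v.o (y - z) : ℝ) := by
      rw [← sum_neg_distrib]
      apply sum_congr rfl
      intro z hz
      rw [v.o_inv _ (sub_ne_zero.mpr (Ne.symm (mem_erase.mp hz).1))]
      push_cast; ring
    rw [h3]
    linarith
  -- linear factors
  have hlin : ∀ z ∈ s, z ≠ a → geP v ρ (v.o (a - z)) (X - C (z - a)) := by
    intro z hz hza i
    have h1 := hρ a ha.1 z hz (Ne.symm hza)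
    rw [coeff_sub, coeff_X, coeff_C]
    rcases i with _ | _ | i
    · simp only [Nat.cast_zero, zero_mul, sub_zero]
      right
      simp only [one_ne_zero, if_false, if_true, zero_sub]
      rw [v.o_neg, v.o_sub_comm]
    · right
      simp [v.o_one]
      linarith
    · simp [DV.ge_zero]
  have hcoef : v.ge (∑ z ∈ s.erase a, (v.o (a - z) : ℝ) - j * ρ)
      ((∏ z ∈ s.erase y, (X - C (z - a)) : K[X]).coeff j) := by
    by_cases hya : y = a
    · subst hya
      have h1 := geP_prod' (v := v) (c := ρ) (s.erase y) (fun z => (v.o (y - z) : ℝ))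
        (fun z => X - C (z - y)) (fun z hz => hlin z (mem_of_mem_erase hz) (mem_erase.mp hz).1)
      exact h1 j
    · have hay : a ∈ s.erase y := mem_erase.mpr ⟨Ne.symm hya, ha.1⟩
      have h1 := geP_prod' (v := v) (c := ρ) ((s.erase y).erase a) (fun z => (v.o (a - z) : ℝ))
        (fun z => X - C (z - a)) (fun z hz => hlin z (mem_of_mem_erase (mem_of_mem_erase hz))
          (mem_erase.mp hz).1)
      rw [← mul_prod_erase _ _ hay, sub_self, C_0, sub_zero]
      obtain ⟨j', rfl⟩ := Nat.exists_eq_add_of_le' hj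
      rw [coeff_X_mul]
      refine DV.ge_mono (h1 j') ?_
      have h2 : y ∈ s.erase a := mem_erase.mpr ⟨hya, hy⟩
      have h3 : (s.erase y).erase a = (s.erase a).erase y := erase_right_comm
      rw [h3, ← add_sum_erase _ _ h2]
      have h4 := hρ a ha.1 y hy (Ne.symm hya)
      push_cast
      linarith
  refine DV.ge_mono (DV.ge_mul hc hcoef) (le_of_eq ?_)
  rw [hQ]
  ring

lemma exists_uniform [DecidableEq K] (v : DV K) (s : Finset K) (t : ℝ)
    (h : ∀ y ∈ s, ∀ z ∈ s, y ≠ z → (v.o (y - z) : ℝ) < t) :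
    ∃ ρ : ℝ, ρ < t ∧ ∀ y ∈ s, ∀ z ∈ s, y ≠ z → (v.o (y - z) : ℝ) ≤ ρ := by
  by_cases hne : s.offDiag.Nonempty
  · obtain ⟨q, hq, hmax⟩ := exists_max_image s.offDiag (fun q => (v.o (q.1 - q.2) : ℝ)) hne
    rw [mem_offDiag] at hq
    refine ⟨v.o (q.1 - q.2), h _ hq.1 _ hq.2.1 hq.2.2, ?_⟩
    intro y hy z hz hyz
    exact hmax (y, z) (mem_offDiag.mpr ⟨hy, hz, hyz⟩)
  · refine ⟨t - 1, by linarith, ?_⟩
    intro y hy z hz hyz
    exact absurd ⟨(y, z), mem_offDiag.mpr ⟨hy, hz, hyz⟩⟩ hne

/-- one step of the lower bound -/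
lemma lb_step [DecidableEq K] {v : DV K} {f : K[X]} (hd : 2 ≤ f.natDegree) {c : ℝ} (s : Finset K)
    (hs : f.natDegree < s.card) (hatt : ∀ x ∈ s, Attained v f c x) {t : ℝ} (ht : -c ≤ t)
    (hw : ∀ y ∈ s, ∀ z ∈ s, y ≠ z → w v f y z < t) {y0 : K} :
    ∃ a ∈ s, f.eval a ≠ f.eval y0 ∧ w v f (f.eval a) (f.eval y0) < -c + ((f.natDegree : ℝ) - 1) * t := by
  have hα := alpha_eq v f hd
  obtain ⟨ρ, hρt, hρ⟩ := exists_uniform v s (t - alpha v f) (by
    intro y hy z hz hyz
    have := hw y hy z hz hyz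
    unfold w at this
    linarith)
  set g := f - C (f.eval y0) with hg
  have hgdeg : g.natDegree = f.natDegree := by rw [hg]; exact natDegree_sub_C
  have hg0 : g ≠ 0 := by
    intro h
    rw [h] at hgdeg
    simp at hgdeg
    omega
  have hgd : g.degree < s.card := by
    rw [degree_eq_natDegree hg0, hgdeg]
    exact_mod_cast hs
  obtain ⟨a, ha, hga, hj⟩ := q_lemma (v := v) hgd hg0 hρ
  have hga' : g.eval a = f.eval a - f.eval y0 := by rw [hg]; simp
  rw [hga'] at hga hj
  refine ⟨a, ha, sub_ne_zero.mp hga, ?_⟩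
  obtain ⟨i, hi1, hi2, hti, hoi⟩ := hatt a ha
  have h1 := hj i hi1
  have h2 : tc g a i = tc f a i := by
    unfold tc
    rw [hg, map_sub, taylor_C, coeff_sub, coeff_C, if_neg (by omega), sub_zero]
  rw [h2] at h1
  have h3 := DV.ge_le h1 hti
  rw [hoi, hα] at h3
  have hir : (1 : ℝ) ≤ i := by exact_mod_cast hi1
  have hidr : (i : ℝ) + 1 ≤ f.natDegree := by exact_mod_cast hi2
  unfold w
  nlinarith

/-- ultrametric inequality for `w` -/
lemma w_ultra {v : DV K} {f : K[X]} {x y z : K} {c : ℝ} (h1 : x = y ∨ c ≤ w v f x y)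
    (h2 : y = z ∨ c ≤ w v f y z) : x = z ∨ c ≤ w v f x z := by
  by_cases hxz : x = z
  · exact Or.inl hxz
  right
  rcases h1 with rfl | h1
  · rcases h2 with rfl | h2
    · exact absurd rfl hxz
    · exact h2
  rcases h2 with rfl | h2
  · exact h1
  by_cases hxy : x = y
  · subst hxy; exact h2
  by_cases hyz : y = z
  · subst hyz; exact h1
  unfold w at *
  have h3 := v.add (x - y) (y - z) (sub_ne_zero.mpr hxy) (sub_ne_zero.mpr hyz) (by
    rw [sub_add_sub_cancel]; exact sub_ne_zero.mpr hxz)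
  rw [sub_add_sub_cancel] at h3
  have h4 : (min (v.o (x - y)) (v.o (y - z)) : ℝ) ≤ (v.o (x - z) : ℝ) := by exact_mod_cast h3
  rcases min_le_iff.mp h4 with h5 | h5 <;> linarith

/-- **The local lower bound.** -/
theorem lb [DecidableEq K] {v : DV K} {f : K[X]} (hd : 2 ≤ f.natDegree) {c : ℝ} (hc : 0 < c)
    {X : Finset K} (hX : ∀ x ∈ X, f.eval x ∈ X)
    (hle : ∀ x ∈ X, ∀ y ∈ X, x ≠ y → -c ≤ w v f x y) (hatt : ∀ x ∈ X, Attained v f c x)
    (s : Finset K) (hsX : s ⊆ X) (hs : f.natDegree ^ 2 < s.card) :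
    ∃ y ∈ s, ∃ z ∈ s, y ≠ z ∧ c / ((f.natDegree : ℝ) - 1) ≤ w v f y z := by
  classical
  by_contra hcon
  push Not at hcon
  have hdr : (2 : ℝ) ≤ f.natDegree := by exact_mod_cast hd
  have hd1 : (0 : ℝ) < (f.natDegree : ℝ) - 1 := by linarith
  set R : K → K → Prop := fun y z => f.eval y = f.eval z ∨ 0 ≤ w v f (f.eval y) (f.eval z) with hR
  have hRtrans : ∀ x y z, R x y → R y z → R x z := fun x y z h1 h2 => w_ultra h1 h2
  have hRsymm : ∀ x y, R x y → R y x := by
    intro x y h
    rcases h with h | h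
    · exact Or.inl h.symm
    · exact Or.inr (by rw [w_comm]; exact h)
  -- a maximal set of pairwise unrelated points
  let Un : Finset K → Prop := fun u => ∀ y ∈ u, ∀ z ∈ u, y ≠ z → ¬ R y z
  have hne : (s.powerset.filter fun u => Un u).Nonempty :=
    ⟨∅, mem_filter.mpr ⟨empty_mem_powerset s, by simp [Un]⟩⟩
  obtain ⟨u, hu, hmax⟩ := exists_max_image _ card hne
  rw [mem_filter, mem_powerset] at hu
  obtain ⟨hus, hunrel⟩ := hu
  -- at most `d` classes
  have hucard : u.card ≤ f.natDegree := by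
    by_contra hlt
    push Not at hlt
    set u' := u.image fun y => f.eval y with hu'
    have hinj : Set.InjOn (fun y => f.eval y) (u : Set K) := by
      intro y hy z hz hyz
      by_contra hne
      exact hunrel y hy z hz hne (Or.inl hyz)
    have hu'card : u'.card = u.card := card_image_of_injOn hinj
    have hu'X : ∀ x ∈ u', x ∈ X := by
      intro x hx
      obtain ⟨y, hy, rfl⟩ := mem_image.mp hx
      exact hX y (hsX (hus hy))
    obtain ⟨y0, hy0⟩ : u'.Nonempty := card_pos.mp (by omega)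
    obtain ⟨a, ha, hne2, hlt2⟩ := lb_step (v := v) hd u' (by omega) (fun x hx => hatt x (hu'X x hx))
      (t := 0) (by linarith) (by
        intro y hy z hz hyz
        obtain ⟨y1, hy1, rfl⟩ := mem_image.mp hy
        obtain ⟨z1, hz1, rfl⟩ := mem_image.mp hz
        have hne : y1 ≠ z1 := by rintro rfl; exact hyz rfl
        have := hunrel y1 hy1 z1 hz1 hne
        rw [hR] at this
        push Not at this
        exact this.2) (y0 := y0)
    have := hle _ (hX a (hu'X a ha)) _ (hX y0 (hu'X y0 hy0)) hne2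
    linarith
  -- a big class
  have hcov : ∀ y ∈ s, ∃ z ∈ u, R y z := by
    intro y hy
    by_cases hyu : y ∈ u
    · exact ⟨y, hyu, Or.inl rfl⟩
    by_contra hno
    push Not at hno
    have := hmax (insert y u) (mem_filter.mpr ⟨mem_powerset.mpr (insert_subset hy hus), by
      intro a ha b hb hab
      rcases mem_insert.mp ha with ha1 | ha1
      · rcases mem_insert.mp hb with hb1 | hb1
        · exact absurd (ha1.trans hb1.symm) hab
        · rw [ha1]; exact hno b hb1
      · rcases mem_insert.mp hb with hb1 | hb1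
        · rw [hb1]; exact fun h => hno a ha1 (hRsymm _ _ h)
        · exact hunrel a ha1 b hb1 hab⟩)
    rw [card_insert_of_notMem hyu] at this
    omega
  choose! g hgu hgR using hcov
  obtain ⟨z, hz, hbig⟩ : ∃ z ∈ u, f.natDegree < (s.filter fun y => g y = z).card := by
    by_contra hno
    push Not at hno
    have h1 := card_le_mul_card_image_of_maps_to (f := g) (s := s) (t := u) (fun y hy => hgu y hy)
      f.natDegree (fun z hz => hno z hz)
    have h2 : f.natDegree * u.card ≤ f.natDegree * f.natDegree := Nat.mul_le_mul_left _ hucard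
    rw [sq] at hs
    omega
  set s' := s.filter fun y => g y = z with hs'
  have hs's : ∀ y ∈ s', y ∈ s := fun y hy => (mem_filter.mp hy).1
  obtain ⟨y0, hy0⟩ : s'.Nonempty := card_pos.mp (by omega)
  have ht0 : (0 : ℝ) ≤ c / ((f.natDegree : ℝ) - 1) := by positivity
  obtain ⟨a, ha, hne2, hlt2⟩ := lb_step (v := v) hd s' hbig (fun x hx => hatt x (hsX (hs's x hx)))
      (t := c / ((f.natDegree : ℝ) - 1)) (by linarith) (by
        intro y hy z hz hyz
        exact hcon y (hs's y hy) z (hs's z hz) hyz) (y0 := y0)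
  have h1 : R a y0 := by
    have e1 := hgR a (hs's a ha)
    have e2 := hgR y0 (hs's y0 hy0)
    rw [(mem_filter.mp ha).2] at e1
    rw [(mem_filter.mp hy0).2] at e2
    exact hRtrans _ _ _ e1 (hRsymm _ _ e2)
  rcases h1 with h1 | h1
  · exact hne2 h1
  · rw [mul_div_cancel₀ _ hd1.ne'] at hlt2
    linarith

end Pool.Agent.Helper33.UB
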