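import Pool.Agent.Helper33.UB.AM

/-!
# The Arakelov matching inequality: valuations
-/

set_option autoImplicit false

open Finset

namespace Pool.Agent.Helper33

namespace PSys

variable {k K V : Type*} [Field k] [Field K] [Algebra k K] (P : PSys k K V)

lemma D_zero : P.D 0 = 0 := by
  have h := P.D_add 0 0
  rw [add_zero] at h
  exact left_eq_add.mp h

lemma D_one : P.D 1 = 0 := by
  have h := P.D_mul 1 1
  rw [mul_one, one_mul] at h
  exact left_eq_add.mp h

lemma D_neg (x : K) : P.D (-x) = - P.D x := by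
  have h := P.D_add x (-x)
  rw [add_neg_cancel, P.D_zero] at h
  exact (neg_eq_of_add_eq_zero_right h.symm).symm

lemma D_sub (x y : K) : P.D (x - y) = P.D x - P.D y := by
  rw [sub_eq_add_neg, P.D_add, P.D_neg, sub_eq_add_neg]

lemma D_div (x y : K) (hy : y ≠ 0) : P.D (x / y) = (y * P.D x - x * P.D y) / y ^ 2 := by
  have h1 : P.D ((x / y) * y) = (x / y) * P.D y + y * P.D (x / y) := P.D_mul _ _
  rw [div_mul_cancel₀ x hy] at h1
  field_simp at h1 ⊢
  linear_combination -h1

/-- total error -/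
noncomputable def E : ℕ := ∑ v ∈ P.e_finite.toFinset, P.e v

lemma sum_e_le (T : Finset V) : ∑ v ∈ T, P.e v ≤ P.E := by
  classical
  unfold E
  calc ∑ v ∈ T, P.e v = ∑ v ∈ T.filter (fun v => P.e v ≠ 0), P.e v := by
        rw [Finset.sum_filter_ne_zero]
    _ ≤ ∑ v ∈ P.e_finite.toFinset, P.e v := by
        apply Finset.sum_le_sum_of_subset
        intro v hv
        simpa using (Finset.mem_filter.mp hv).2

lemma sum_eq_zero (T : Finset V) (x : K) (hx : x ≠ 0) (h : ∀ v, v ∉ T → (P.pl v).o x = 0) :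
    ∑ v ∈ T, (P.pl v).o x = 0 := by
  rw [← P.sum_ord x hx]
  symm
  apply finsum_eq_sum_of_support_subset
  intro v hv
  by_contra hvT
  exact hv (h v (by simpa using hvT))

lemma exists_finset (R : Finset K) (hR : ∀ x ∈ R, x ≠ 0) :
    ∃ T : Finset V, (∀ v, v ∉ T → P.e v = 0) ∧ (∀ x ∈ R, ∀ v, v ∉ T → (P.pl v).o x = 0) := by
  classical
  induction R using Finset.induction_on with
  | empty =>
    refine ⟨P.e_finite.toFinset, fun v hv => ?_, by simp⟩
    simpa using hv
  | insert a s ha ih =>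
    obtain ⟨T, h1, h2⟩ := ih fun x hx => hR x (Finset.mem_insert_of_mem hx)
    have hfin := P.ord_finite a (hR a (Finset.mem_insert_self a s))
    refine ⟨T ∪ hfin.toFinset, fun v hv => h1 v fun h => hv (Finset.mem_union_left _ h), ?_⟩
    intro x hx v hv
    rw [Finset.mem_union, not_or] at hv
    rcases Finset.mem_insert.mp hx with rfl | hx
    · simpa using hv.2
    · exact h2 x hx v hv.1

end PSys

namespace UB

section tau

variable {k K V : Type*} [Field k] [Field K] [Algebra k K] [DecidableEq K] (P : PSys k K V)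

lemma tau_eq (D : K → K) {p q c c' : K} (h1 : p ≠ q) (h2 : p ≠ c) (h3 : p ≠ c') (h4 : q ≠ c)
    (h5 : q ≠ c') (h6 : c ≠ c') :
    tau D {p, q, c, c'} = D p / ((p - q) * ((p - c) * (p - c'))) + (D q / ((q - p) * ((q - c) * (q - c'))) +
      (D c / ((c - p) * ((c - q) * (c - c'))) + D c' / ((c' - p) * ((c' - q) * (c' - c))))) := by
  unfold tau om
  rw [sum_insert (by simp [h1, h2, h3]), sum_insert (by simp [h4, h5]), sum_insert (by simp [h6]),
    sum_singleton]
  have e1 : ({p, q, c, c'} : Finset K).erase p = {q, c, c'} := by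
    ext x; simp only [mem_erase, mem_insert, mem_singleton]
    constructor
    · rintro ⟨a, b⟩; tauto
    · rintro (rfl | rfl | rfl) <;> simp [h1.symm, h2.symm, h3.symm]
  have e2 : ({p, q, c, c'} : Finset K).erase q = {p, c, c'} := by
    ext x; simp only [mem_erase, mem_insert, mem_singleton]
    constructor
    · rintro ⟨a, b⟩; tauto
    · rintro (rfl | rfl | rfl) <;> simp [h1, h4.symm, h5.symm]
  have e3 : ({p, q, c, c'} : Finset K).erase c = {p, q, c'} := by
    ext x; simp only [mem_erase, mem_insert, mem_singleton]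
    constructor
    · rintro ⟨a, b⟩; tauto
    · rintro (rfl | rfl | rfl) <;> simp [h2, h4, h6.symm]
  have e4 : ({p, q, c, c'} : Finset K).erase c' = {p, q, c} := by
    ext x; simp only [mem_erase, mem_insert, mem_singleton]
    constructor
    · rintro ⟨a, b⟩; tauto
    · rintro (rfl | rfl | rfl) <;> simp [h3, h5, h6]
  rw [e1, e2, e3, e4]
  rw [prod_insert (by simp [h4, h5]), prod_insert (by simp [h6]), prod_singleton]
  rw [prod_insert (by simp [h2, h3]), prod_insert (by simp [h6]), prod_singleton]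
  rw [prod_insert (by simp [h1, h3]), prod_insert (by simp [h5]), prod_singleton]
  rw [prod_insert (by simp [h1, h2]), prod_insert (by simp [h4]), prod_singleton]

/-- order of the four point sum -/
lemma tau_order (v : V) {p q c c' : K} (h1 : p ≠ q) (h2 : p ≠ c) (h3 : p ≠ c') (h4 : q ≠ c)
    (h5 : q ≠ c') (h6 : c ≠ c') :
    tau P.D {p, q, c, c'} = 0 ∨
      (-((P.pl v).o (p - c) + (P.pl v).o (q - c') + (P.pl v).o (p - c') + (P.pl v).o (q - c)) - 2 -
        2 * (P.e v : ℤ) ≤ 2 * (P.pl v).o (tau P.D {p, q, c, c'}) ∧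
      ((P.pl v).o (p - q) + (P.pl v).o (c - c') = (P.pl v).o (p - c) + (P.pl v).o (q - c') →
        (P.pl v).o (p - q) + (P.pl v).o (c - c') = (P.pl v).o (p - c') + (P.pl v).o (q - c) →
        -((P.pl v).o (p - c) + (P.pl v).o (q - c') + (P.pl v).o (p - c') + (P.pl v).o (q - c)) -
        2 * (P.e v : ℤ) ≤ 2 * (P.pl v).o (tau P.D {p, q, c, c'}))) := by
  have n1 : p - q ≠ 0 := sub_ne_zero.mpr h1
  have n2 : p - c ≠ 0 := sub_ne_zero.mpr h2
  have n3 : p - c' ≠ 0 := sub_ne_zero.mpr h3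
  have n4 : q - c ≠ 0 := sub_ne_zero.mpr h4
  have n5 : q - c' ≠ 0 := sub_ne_zero.mpr h5
  have n6 : c - c' ≠ 0 := sub_ne_zero.mpr h6
  set lam : K := ((p - c) * (q - c')) / ((p - c') * (q - c)) with hlam
  have hlam0 : lam ≠ 0 := div_ne_zero (mul_ne_zero n2 n5) (mul_ne_zero n3 n4)
  have hone : 1 - lam = ((q - p) * (c - c')) / ((p - c') * (q - c)) := by
    rw [hlam]; field_simp; ring
  have hone0 : 1 - lam ≠ 0 := by
    rw [hone]
    exact div_ne_zero (mul_ne_zero (sub_ne_zero.mpr h1.symm) n6) (mul_ne_zero n3 n4)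
  have hDlam : P.D lam = lam * ((p - q) * (c - c')) * tau P.D {p, q, c, c'} := by
    rw [tau_eq P.D h1 h2 h3 h4 h5 h6, hlam, P.D_div _ _ (mul_ne_zero n3 n4), P.D_mul, P.D_mul,
      P.D_sub, P.D_sub, P.D_sub, P.D_sub]
    have m1 : q - p ≠ 0 := sub_ne_zero.mpr h1.symm
    have m2 : c - p ≠ 0 := sub_ne_zero.mpr h2.symm
    have m3 : c' - p ≠ 0 := sub_ne_zero.mpr h3.symm
    have m4 : c - q ≠ 0 := sub_ne_zero.mpr h4.symm
    have m5 : c' - q ≠ 0 := sub_ne_zero.mpr h5.symm
    have m6 : c' - c ≠ 0 := sub_ne_zero.mpr h6.symm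
    rw [← neg_sub p q, ← neg_sub p c, ← neg_sub p c', ← neg_sub q c, ← neg_sub q c', ← neg_sub c c']
    field_simp
    ring
  by_cases ht : tau P.D {p, q, c, c'} = 0
  · exact Or.inl ht
  right
  have hD : P.D lam ≠ 0 := by
    rw [hDlam]
    exact mul_ne_zero (mul_ne_zero hlam0 (mul_ne_zero n1 n6)) ht
  have hD1 : P.D (1 - lam) = - P.D lam := by rw [P.D_sub, P.D_one, zero_sub]
  have hD1' : P.D (1 - lam) ≠ 0 := by rw [hD1]; exact neg_ne_zero.mpr hD
  have o1 : (P.pl v).o (P.D lam) = (P.pl v).o lam + ((P.pl v).o (p - q) + (P.pl v).o (c - c')) +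
      (P.pl v).o (tau P.D {p, q, c, c'}) := by
    rw [hDlam, (P.pl v).mul _ _ (mul_ne_zero hlam0 (mul_ne_zero n1 n6)) ht,
      (P.pl v).mul _ _ hlam0 (mul_ne_zero n1 n6), (P.pl v).mul _ _ n1 n6]
  have o2 : (P.pl v).o lam = (P.pl v).o (p - c) + (P.pl v).o (q - c') - ((P.pl v).o (p - c') +
      (P.pl v).o (q - c)) := by
    rw [hlam, DV.o_div _ _ _ (mul_ne_zero n2 n5) (mul_ne_zero n3 n4), (P.pl v).mul _ _ n2 n5,
      (P.pl v).mul _ _ n3 n4]
  have o3 : (P.pl v).o (1 - lam) = (P.pl v).o (p - q) + (P.pl v).o (c - c') - ((P.pl v).o (p - c') +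
      (P.pl v).o (q - c)) := by
    have m1 : q - p ≠ 0 := sub_ne_zero.mpr h1.symm
    rw [hone, DV.o_div _ _ _ (mul_ne_zero m1 n6) (mul_ne_zero n3 n4), (P.pl v).mul _ _ m1 n6,
      (P.pl v).mul _ _ n3 n4, DV.o_sub_comm _ q p]
  have a1 := P.ord_D v lam hlam0 hD
  have a2 := P.ord_D' v lam hlam0 hD
  have b1 := P.ord_D v (1 - lam) hone0 hD1'
  have b2 := P.ord_D' v (1 - lam) hone0 hD1'
  rw [hD1, DV.o_neg] at b1 b2
  have c1 := (P.pl v).add lam (1 - lam) hlam0 hone0 (by simp)
  rw [add_sub_cancel, DV.o_one] at c1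
  have c2 := (P.pl v).add 1 (-lam) one_ne_zero (neg_ne_zero.mpr hlam0) (by rwa [← sub_eq_add_neg])
  rw [← sub_eq_add_neg, DV.o_one, DV.o_neg] at c2
  have c3 := (P.pl v).add 1 (-(1 - lam)) one_ne_zero (neg_ne_zero.mpr hone0) (by simpa using hlam0)
  rw [← sub_eq_add_neg, DV.o_one, DV.o_neg, sub_sub_cancel] at c3
  constructor
  · omega
  · intro s1 s2
    have := a2 (by omega)
    omega

end tau

section det

variable {K : Type*} [Field K] {v : DV K}

lemma ge_prod {ι : Type*} (s : Finset ι) (c : ι → ℝ) (f : ι → K) (h : ∀ i ∈ s, v.ge (c i) (f i)) :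
    v.ge (∑ i ∈ s, c i) (∏ i ∈ s, f i) := by
  classical
  induction s using Finset.induction_on with
  | empty => simpa using DV.ge_one
  | insert a s ha ih =>
    rw [Finset.sum_insert ha, Finset.prod_insert ha]
    exact DV.ge_mul (h a (Finset.mem_insert_self a s)) (ih fun i hi => h i (Finset.mem_insert_of_mem hi))

lemma det_ge {r : ℕ} (M : Matrix (Fin r) (Fin r) K) (α β : Fin r → ℝ)
    (h : ∀ s t, v.ge (α s + β t) (M s t)) : v.ge (∑ s, α s + ∑ t, β t) M.det := by
  rw [Matrix.det_apply]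
  apply DV.ge_sum
  intro σ _
  have h1 : v.ge (∑ s, α s + ∑ t, β t) (∏ i, M (σ i) i) := by
    have h2 := ge_prod (v := v) univ (fun i => α (σ i) + β i) (fun i => M (σ i) i) (fun i _ => h _ _)
    rwa [sum_add_distrib, Equiv.sum_comp σ α] at h2
  rcases Int.units_eq_one_or (Equiv.Perm.sign σ) with h3 | h3
  · rw [h3, one_smul]; exact h1
  · rw [h3, Units.neg_smul, one_smul]; exact DV.ge_neg h1

/-- `I` is a star at `v` -/
def Star (v : DV K) (I : Finset K) : Prop :=
  ∀ p ∈ I, ∀ q ∈ I, ∀ c ∈ I, ∀ c' ∈ I, p ≠ q → p ≠ c → p ≠ c' → q ≠ c → q ≠ c' → c ≠ c' →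
    v.o (p - q) + v.o (c - c') = v.o (p - c) + v.o (q - c')

end det

section localam

variable {k K V : Type*} [Field k] [Field K] [Algebra k K] [DecidableEq K] (P : PSys k K V)

/-- oriented local inequality -/
lemma local_oriented (v : V) {I : Finset K} {r : ℕ} {A B : Fin (r + 1) → K} (h : Enum I A B)
    (hdet : (hankel P.D I r).det ≠ 0) (δ : ℤ) (hδ : δ = 1 ∨ (δ = 0 ∧ Star (P.pl v) I))
    (hor : ∑ i : Fin r, ∑ j : Fin r, od (P.pl v) (A i.succ) (A j.succ) +
      ∑ i : Fin r, ∑ j : Fin r, od (P.pl v) (B i.succ) (B j.succ) -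
      2 * ∑ i : Fin r, ∑ j : Fin r, od (P.pl v) (A i.succ) (B j.succ) +
      2 * ∑ i : Fin r, od (P.pl v) (A i.succ) (B i.succ) ≤ 0) :
    0 ≤ 4 * (P.pl v).o (hankel P.D I r).det + 4 * r * (δ + P.e v) +
      ∑ x ∈ I, ∑ y ∈ I, od (P.pl v) x y - 2 * ∑ i, od (P.pl v) (A i) (B i) := by
  set a : Fin r → K := fun i => A i.succ with ha
  set b : Fin r → K := fun i => B i.succ with hb
  have hainj : Function.Injective a := fun i j hij => Fin.succ_injective _ (h.injA hij)
  have hbinj : Function.Injective b := fun i j hij => Fin.succ_injective _ (h.injB hij)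
  obtain ⟨ha0, ha2⟩ := two_mul_o_det_cm (P.pl v) a hainj
  obtain ⟨hb0, hb2⟩ := two_mul_o_det_cm (P.pl v) b hbinj
  set M := cm a * hankel P.D I r * (cm b).transpose with hM
  have hMdet : M.det = (cm a).det * (hankel P.D I r).det * (cm b).det := by
    rw [hM, Matrix.det_mul, Matrix.det_mul, Matrix.det_transpose]
  have hM0 : M.det ≠ 0 := by
    rw [hMdet]; exact mul_ne_zero (mul_ne_zero ha0 hdet) hb0
  have hMo : (P.pl v).o M.det = (P.pl v).o (cm a).det + (P.pl v).o (hankel P.D I r).det +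
      (P.pl v).o (cm b).det := by
    rw [hMdet, (P.pl v).mul _ _ (mul_ne_zero ha0 hdet) hb0, (P.pl v).mul _ _ ha0 hdet]
  set α : Fin r → ℝ := fun s => -(((od (P.pl v) (a s) (A 0) : ℝ) + od (P.pl v) (a s) (B 0)) / 2) -
    δ - P.e v with hα
  set β : Fin r → ℝ := fun t => -(((od (P.pl v) (b t) (A 0) : ℝ) + od (P.pl v) (b t) (B 0)) / 2) with hβ
  have hge : ∀ s t, (P.pl v).ge (α s + β t) (M s t) := by
    intro s t
    rw [hM, entry_eq P.D h s t]
    have h1 : A s.succ ≠ B t.succ := h.ne _ _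
    have h2 : A s.succ ≠ A 0 := fun e => Fin.succ_ne_zero _ (h.injA e)
    have h3 : A s.succ ≠ B 0 := h.ne _ _
    have h4 : B t.succ ≠ A 0 := (h.ne _ _).symm
    have h5 : B t.succ ≠ B 0 := fun e => Fin.succ_ne_zero _ (h.injB e)
    have h6 : A 0 ≠ B 0 := h.ne _ _
    rcases tau_order P v h1 h2 h3 h4 h5 h6 with h0 | ⟨h7, h8⟩
    · exact Or.inl h0
    right
    have key : -((P.pl v).o (A s.succ - A 0) + (P.pl v).o (B t.succ - B 0) +
        (P.pl v).o (A s.succ - B 0) + (P.pl v).o (B t.succ - A 0)) - 2 * δ - 2 * (P.e v : ℤ) ≤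
        2 * (P.pl v).o (tau P.D {A s.succ, B t.succ, A 0, B 0}) := by
      rcases hδ with rfl | ⟨rfl, hst⟩
      · linarith
      · have s1 := hst _ (h.memA s.succ) _ (h.memB t.succ) _ (h.memA 0) _ (h.memB 0) h1 h2 h3 h4 h5 h6
        have s2 := hst _ (h.memA s.succ) _ (h.memB t.succ) _ (h.memB 0) _ (h.memA 0) h1 h3 h2 h5 h4
          h6.symm
        rw [DV.o_sub_comm _ (B 0) (A 0)] at s2
        have := h8 s1 s2
        linarith
    have keyr : (-((P.pl v).o (A s.succ - A 0) + (P.pl v).o (B t.succ - B 0) +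
        (P.pl v).o (A s.succ - B 0) + (P.pl v).o (B t.succ - A 0)) - 2 * δ - 2 * (P.e v : ℝ)) ≤
        2 * (P.pl v).o (tau P.D {A s.succ, B t.succ, A 0, B 0}) := by exact_mod_cast key
    rw [hα, hβ, ha, hb]
    simp only
    rw [od_of_ne _ h2, od_of_ne _ h3, od_of_ne _ h4, od_of_ne _ h5]
    linarith
  have hdetge := DV.ge_le (det_ge M α β hge) hM0
  have hsumα : ∑ s, α s = -((∑ s, (od (P.pl v) (a s) (A 0) : ℝ)) + ∑ s, (od (P.pl v) (a s) (B 0) : ℝ)) / 2 -
      r * (δ + P.e v) := by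
    rw [hα]
    simp only [sum_sub_distrib, sum_neg_distrib, ← sum_div, sum_add_distrib, sum_const, card_univ,
      Fintype.card_fin, nsmul_eq_mul]
    ring
  have hsumβ : ∑ s, β s = -((∑ s, (od (P.pl v) (b s) (A 0) : ℝ)) + ∑ s, (od (P.pl v) (b s) (B 0) : ℝ)) / 2 := by
    rw [hβ]
    simp only [sum_neg_distrib, ← sum_div, sum_add_distrib]
    ring
  rw [hsumα, hsumβ, hMo] at hdetge
  have hdet2 : -(∑ s, od (P.pl v) (a s) (A 0) + ∑ s, od (P.pl v) (a s) (B 0) +
      (∑ s, od (P.pl v) (b s) (A 0) + ∑ s, od (P.pl v) (b s) (B 0))) - 2 * r * (δ + P.e v) ≤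
      ∑ i, ∑ j, od (P.pl v) (a i) (a j) + 2 * (P.pl v).o (hankel P.D I r).det +
        ∑ i, ∑ j, od (P.pl v) (b i) (b j) := by
    rw [← ha2, ← hb2]
    have : ((-(∑ s, od (P.pl v) (a s) (A 0) + ∑ s, od (P.pl v) (a s) (B 0) +
      (∑ s, od (P.pl v) (b s) (A 0) + ∑ s, od (P.pl v) (b s) (B 0))) - 2 * r * (δ + P.e v) : ℤ) : ℝ) ≤
      ((2 * (P.pl v).o (cm a).det + 2 * (P.pl v).o (hankel P.D I r).det +
        2 * (P.pl v).o (cm b).det : ℤ) : ℝ) := by
      push_cast at hdetge ⊢
      linarith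
    exact_mod_cast this
  -- the total sum
  have hTot : ∑ x ∈ I, ∑ y ∈ I, od (P.pl v) x y =
      ∑ i, ∑ j, od (P.pl v) (a i) (a j) + ∑ i, ∑ j, od (P.pl v) (b i) (b j) +
      2 * ∑ i, ∑ j, od (P.pl v) (a i) (b j) +
      2 * (∑ s, od (P.pl v) (a s) (A 0) + ∑ s, od (P.pl v) (a s) (B 0) +
      (∑ s, od (P.pl v) (b s) (A 0) + ∑ s, od (P.pl v) (b s) (B 0))) + 2 * od (P.pl v) (A 0) (B 0) := by
    have e0 : ∀ x, ∑ y ∈ I, od (P.pl v) x y = (od (P.pl v) x (A 0) + ∑ j, od (P.pl v) x (a j)) +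
        (od (P.pl v) x (B 0) + ∑ j, od (P.pl v) x (b j)) := by
      intro x
      rw [h.sum, Fin.sum_univ_succ, Fin.sum_univ_succ]
    simp only [e0]
    rw [h.sum, Fin.sum_univ_succ, Fin.sum_univ_succ]
    rw [od_self, od_self, od_comm _ (B 0) (A 0)]
    simp only [sum_add_distrib]
    have f1 : ∑ j, od (P.pl v) (A 0) (a j) = ∑ j, od (P.pl v) (a j) (A 0) :=
      sum_congr rfl fun j _ => od_comm _ _ _
    have f2 : ∑ j, od (P.pl v) (A 0) (b j) = ∑ j, od (P.pl v) (b j) (A 0) :=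
      sum_congr rfl fun j _ => od_comm _ _ _
    have f3 : ∑ j, od (P.pl v) (B 0) (a j) = ∑ j, od (P.pl v) (a j) (B 0) :=
      sum_congr rfl fun j _ => od_comm _ _ _
    have f4 : ∑ j, od (P.pl v) (B 0) (b j) = ∑ j, od (P.pl v) (b j) (B 0) :=
      sum_congr rfl fun j _ => od_comm _ _ _
    have f5 : ∑ i, ∑ j, od (P.pl v) (b i) (a j) = ∑ i, ∑ j, od (P.pl v) (a i) (b j) := by
      rw [sum_comm]
      exact sum_congr rfl fun i _ => sum_congr rfl fun j _ => od_comm _ _ _
    rw [f1, f2, f3, f4]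
    change _ + (_ + _ + _) + _ = _ at *
    have g1 : ∀ i : Fin r, A i.succ = a i := fun _ => rfl
    have g2 : ∀ i : Fin r, B i.succ = b i := fun _ => rfl
    simp only [g1, g2]
    rw [f5]
    ring
  rw [hTot, Fin.sum_univ_succ]
  have g1 : ∀ i : Fin r, A i.succ = a i := fun _ => rfl
  have g2 : ∀ i : Fin r, B i.succ = b i := fun _ => rfl
  simp only [g1, g2] at hor ⊢
  linarith

/-- **Local inequality** for any enumeration. -/
lemma local_am (v : V) {I : Finset K} {r : ℕ} {A B : Fin (r + 1) → K} (h : Enum I A B)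
    (hdet : (hankel P.D I r).det ≠ 0) (δ : ℤ) (hδ : δ = 1 ∨ (δ = 0 ∧ Star (P.pl v) I)) :
    0 ≤ 4 * (P.pl v).o (hankel P.D I r).det + 4 * r * (δ + P.e v) +
      ∑ x ∈ I, ∑ y ∈ I, od (P.pl v) x y - 2 * ∑ i, od (P.pl v) (A i) (B i) := by
  classical
  set φ : K → K → ℤ := od (P.pl v) with hφ
  have hφc : ∀ x y, φ x y = φ y x := fun x y => od_comm _ _ _
  have hφs : ∀ x, φ x x = 0 := fun x => od_self _ _
  obtain ⟨ε, hε, hsum⟩ := exists_signs
    (fun i j : Fin r => if i = j then (0 : ℤ) else φ (A i.succ) (A j.succ) + φ (B i.succ) (B j.succ) -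
      φ (A i.succ) (B j.succ) - φ (B i.succ) (A j.succ)) (by
      intro i j
      by_cases hij : i = j
      · simp [hij]
      · rw [if_neg hij, if_neg (Ne.symm hij), hφc (A j.succ), hφc (B j.succ), hφc (A j.succ),
          hφc (B j.succ) (A i.succ)]
        ring) (by intro i; simp) univ
  set p : Fin (r + 1) → Prop := fun i => (Fin.cons 1 ε : Fin (r + 1) → ℤ) i = 1 with hp
  have hsw := h.swap p
  have hp0 : p 0 := by rw [hp]; simp
  have hps : ∀ i : Fin r, p i.succ ↔ ε i = 1 := by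
    intro i; rw [hp]; simp
  have := local_oriented P v hsw hdet δ hδ (by
    refine le_trans (le_of_eq ?_) hsum
    have key : ∀ i j : Fin r, ε i * ε j * (if i = j then (0 : ℤ) else
        φ (A i.succ) (A j.succ) + φ (B i.succ) (B j.succ) -
        φ (A i.succ) (B j.succ) - φ (B i.succ) (A j.succ)) =
        φ (if p i.succ then A i.succ else B i.succ) (if p j.succ then A j.succ else B j.succ) +
        φ (if p i.succ then B i.succ else A i.succ) (if p j.succ then B j.succ else A j.succ) -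
        φ (if p i.succ then A i.succ else B i.succ) (if p j.succ then B j.succ else A j.succ) -
        φ (if p j.succ then A j.succ else B j.succ) (if p i.succ then B i.succ else A i.succ) +
        (if i = j then 2 * φ (if p i.succ then A i.succ else B i.succ)
          (if p i.succ then B i.succ else A i.succ) else 0) := by
      intro i j
      by_cases hij : i = j
      · subst hij
        rw [if_pos rfl, if_pos rfl, mul_zero, hφs, hφs]
        ring
      · rw [if_neg hij, if_neg hij, add_zero]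
        simp only [hps]
        rcases hε i with h1 | h1 <;> rcases hε j with h2 | h2
        · rw [h1, h2]; simp only [if_true]; rw [hφc (A j.succ) (B i.succ)]; ring
        · rw [h1, h2]; simp only [if_true]
          rw [if_neg (by norm_num), if_neg (by norm_num), hφc (B j.succ) (B i.succ)]; ring
        · rw [h1, h2]; simp only [if_true]
          rw [if_neg (by norm_num), if_neg (by norm_num), hφc (A j.succ) (A i.succ)]; ring
        · rw [h1, h2]
          rw [if_neg (by norm_num), if_neg (by norm_num), if_neg (by norm_num), if_neg (by norm_num),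
            hφc (B j.succ) (A i.succ)]; ring
    simp only [key, sum_add_distrib, sum_sub_distrib]
    have e1 : ∑ i : Fin r, ∑ j : Fin r, φ (if p j.succ then A j.succ else B j.succ)
        (if p i.succ then B i.succ else A i.succ) =
        ∑ i : Fin r, ∑ j : Fin r, φ (if p i.succ then A i.succ else B i.succ)
        (if p j.succ then B j.succ else A j.succ) := sum_comm
    have e2 : ∑ i : Fin r, ∑ j : Fin r, (if i = j then 2 * φ (if p i.succ then A i.succ else B i.succ)
          (if p i.succ then B i.succ else A i.succ) else 0) =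
        2 * ∑ i : Fin r, φ (if p i.succ then A i.succ else B i.succ)
          (if p i.succ then B i.succ else A i.succ) := by
      rw [mul_sum]
      apply sum_congr rfl
      intro i _
      rw [sum_ite_eq]
      simp
    rw [e1, e2]
    ring)
  refine this.trans (le_of_eq ?_)
  congr 2
  apply sum_congr rfl
  intro i _
  by_cases hpi : p i
  · rw [if_pos hpi, if_pos hpi]
  · rw [if_neg hpi, if_neg hpi, od_comm]

/-- **The Arakelov matching inequality.** -/
theorem am {I : Finset K} {r : ℕ} (hdet : (hankel P.D I r).det ≠ 0) (T S : Finset V)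
    (hTe : ∀ v, v ∉ T → P.e v = 0)
    (hTI : ∀ v, v ∉ T → ∀ x ∈ I, ∀ y ∈ I, x ≠ y → (P.pl v).o (x - y) = 0)
    (hS : ∀ v ∈ T, v ∉ S → Star (P.pl v) I) (A B : V → Fin (r + 1) → K)
    (hE : ∀ v ∈ T, Enum I (A v) (B v)) :
    ∑ v ∈ T, ∑ i, (P.pl v).o (A v i - B v i) ≤ 2 * r * ((S.card : ℤ) + P.E) := by
  classical
  rcases T.eq_empty_or_nonempty with rfl | ⟨v0, hv0⟩
  · rw [sum_empty]; positivity
  obtain ⟨T1, _, hT1⟩ := P.exists_finset {(hankel P.D I r).det} (by
    intro x hx; rw [mem_singleton] at hx; rw [hx]; exact hdet)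
  have hT1' := hT1 _ (mem_singleton_self _)
  set T2 := T ∪ T1 with hT2
  have s1 := P.sum_eq_zero T2 _ hdet (fun v hv => hT1' v fun h => hv (mem_union_right _ h))
  have hout : ∀ v, v ∉ T → 0 ≤ (P.pl v).o (hankel P.D I r).det := by
    intro v hv
    have hod : ∀ x ∈ I, ∀ y ∈ I, od (P.pl v) x y = 0 := by
      intro x hx y hy
      unfold od
      split_ifs with h
      · rfl
      · exact hTI v hv x hx y hy h
    have := local_am P v (hE v0 hv0) hdet 0 (Or.inr ⟨rfl, by
      intro p hp q hq c hc c' hc' h1 h2 h3 h4 h5 h6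
      rw [hTI v hv p hp q hq h1, hTI v hv c hc c' hc' h6, hTI v hv p hp c hc h2,
        hTI v hv q hq c' hc' h5]⟩)
    rw [hTe v hv, sum_congr rfl (fun x hx => sum_congr rfl fun y hy => hod x hx y hy),
      sum_congr rfl (fun i _ => hod _ ((hE v0 hv0).memA i) _ ((hE v0 hv0).memB i))] at this
    simp only [sum_const_zero] at this
    push_cast at this
    linarith
  have s2 : ∑ v ∈ T, (P.pl v).o (hankel P.D I r).det ≤ 0 := by
    rw [← s1, hT2, ← sum_sdiff subset_union_left]
    have : 0 ≤ ∑ v ∈ (T ∪ T1) \ T, (P.pl v).o (hankel P.D I r).det := by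
      apply sum_nonneg
      intro v hv
      exact hout v (mem_sdiff.mp hv).2
    linarith
  have s3 : ∑ v ∈ T, ∑ x ∈ I, ∑ y ∈ I, od (P.pl v) x y = 0 := by
    rw [sum_comm]
    apply sum_eq_zero
    intro x hx
    rw [sum_comm]
    apply sum_eq_zero
    intro y hy
    by_cases hxy : x = y
    · apply sum_eq_zero
      intro v _
      rw [hxy, od_self]
    · rw [sum_congr rfl (fun v _ => od_of_ne (P.pl v) hxy)]
      exact P.sum_eq_zero T (x - y) (sub_ne_zero.mpr hxy) fun v hv => hTI v hv x hx y hy hxy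
  have s4 : ∀ v ∈ T, 2 * ∑ i, (P.pl v).o (A v i - B v i) ≤
      4 * (P.pl v).o (hankel P.D I r).det + 4 * r * ((if v ∈ S then 1 else 0) + P.e v) +
      ∑ x ∈ I, ∑ y ∈ I, od (P.pl v) x y := by
    intro v hv
    have := local_am P v (hE v hv) hdet (if v ∈ S then 1 else 0) (by
      by_cases h : v ∈ S
      · left; rw [if_pos h]
      · right; exact ⟨by rw [if_neg h], hS v hv h⟩)
    rw [sum_congr rfl (fun i _ => od_of_ne (P.pl v) ((hE v hv).ne i i))] at this
    linarith
  have s5 := sum_le_sum s4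
  simp only [sum_add_distrib, ← mul_sum] at s5
  rw [s3] at s5
  have s6 : ∑ v ∈ T, (if v ∈ S then (1 : ℤ) else 0) ≤ S.card := by
    rw [sum_ite_mem, sum_const, nsmul_eq_mul, mul_one]
    exact_mod_cast card_le_card inter_subset_right
  have s7 : ∑ v ∈ T, (P.e v : ℤ) ≤ P.E := by exact_mod_cast P.sum_e_le T
  have s8 : 4 * (r : ℤ) * (∑ v ∈ T, (if v ∈ S then (1 : ℤ) else 0) + ∑ v ∈ T, (P.e v : ℤ)) ≤
      4 * r * ((S.card : ℤ) + P.E) := by
    apply mul_le_mul_of_nonneg_left (by linarith) (by positivity)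
  linarith

end localam

end UB

end Pool.Agent.Helper33
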