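import Pool.Agent.Helper33.UB.Tree

/-!
# Periodicity of diffuse vertices and classification of indices
-/

set_option autoImplicit false

namespace Pool.Agent.Helper33.UB

open Finset

/-- lower bound for the size of a union -/
lemma union_bound {α : Type*} [DecidableEq α] (A : ℕ → Finset α) (Θ τ : ℝ) (hτ : 0 ≤ τ) (m : ℕ)
    (h1 : ∀ g < m, Θ ≤ (A g).card) (h2 : ∀ g g', g < g' → g' < m → ((A g ∩ A g').card : ℝ) ≤ τ) :
    m * Θ - m ^ 2 * τ ≤ ((range m).biUnion A).card := by
  induction m with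
  | zero => simp
  | succ m ih =>
    have ih' := ih (fun g hg => h1 g (by omega)) (fun g g' hg hg' => h2 g g' hg (by omega))
    rw [range_add_one, biUnion_insert]
    have h3 := card_union_add_card_inter (A m) ((range m).biUnion A)
    have h4 : (((A m) ∩ (range m).biUnion A).card : ℝ) ≤ m * τ := by
      have h5 : (A m) ∩ (range m).biUnion A = (range m).biUnion fun g => A m ∩ A g := by
        rw [inter_biUnion]
      rw [h5]
      calc (((range m).biUnion fun g => A m ∩ A g).card : ℝ)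
          ≤ ∑ g ∈ range m, ((A m ∩ A g).card : ℝ) := by
            exact_mod_cast card_biUnion_le
        _ ≤ ∑ g ∈ range m, τ := by
            apply sum_le_sum
            intro g hg
            rw [inter_comm]
            exact h2 g m (mem_range.mp hg) (by omega)
        _ = m * τ := by rw [sum_const, card_range, nsmul_eq_mul]
    have h6 := h1 m (by omega)
    have h7 : ((A m ∪ (range m).biUnion A).card : ℝ) + ((A m ∩ (range m).biUnion A).card : ℝ) =
        (A m).card + ((range m).biUnion A).card := by exact_mod_cast h3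
    push_cast
    nlinarith [mul_nonneg (Nat.cast_nonneg (α := ℝ) m) hτ]

namespace TreeDyn

variable {𝒱 𝒟 : Type*} {d : ℕ} (S : TreeDyn 𝒱 𝒟 d) {n : ℕ}

/-- **Periodicity** of diffuse vertices. -/
lemma exists_period (hd : 1 ≤ d) {θ θ'' Θ : ℝ} (hθ : 0 ≤ θ) (hθ'' : 0 < θ'') (ζ : 𝒱)
    (hΘ : Θ ≤ (S.light n θ ζ).card) (G : ℕ)
    (hG : (n : ℝ) + G < (G + 1) * Θ - (G + 1) ^ 2 * (err d n G θ θ'' + θ + θ'')) :
    ∃ t, 1 ≤ t ∧ t ≤ G ∧ S.f^[t] ζ = ζ := by
  classical
  by_contra hcon
  push Not at hcon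
  set Λ := S.light n θ ζ with hΛ
  set τ : ℝ := err d n G θ θ'' + θ + θ'' with hτ
  have herr : 0 ≤ err d n G θ θ'' := by
    unfold err
    have : (0 : ℝ) ≤ n / θ'' := by positivity
    positivity
  have hτ0 : 0 ≤ τ := by positivity
  set A : ℕ → Finset ℕ := fun g => Λ.image (· + g) with hA
  have h1 : ∀ g < G + 1, Θ ≤ (A g).card := by
    intro g _
    rw [hA]
    simp only
    rw [card_image_of_injective _ (add_left_injective g)]
    exact hΘ
  have h2 : ∀ g g', g < g' → g' < G + 1 → ((A g ∩ A g').card : ℝ) ≤ τ := by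
    intro g g' hg hg'
    set t := g' - g with ht
    have ht1 : 1 ≤ t := by omega
    have htG : t ≤ G := by omega
    have hne : S.f^[t] ζ ≠ ζ := hcon t ht1 htG
    set s := Λ.filter fun i => i + t ∈ Λ with hs
    have hcard : (A g ∩ A g').card ≤ s.card := by
      have : A g ∩ A g' ⊆ s.image (· + g') := by
        intro j hj
        rw [mem_inter, hA] at hj
        simp only [mem_image] at hj
        obtain ⟨⟨i, hi, rfl⟩, ⟨i', hi', h⟩⟩ := hj
        rw [mem_image]
        refine ⟨i', mem_filter.mpr ⟨hi', ?_⟩, h⟩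
        have : i' + t = i := by omega
        rwa [this]
      exact (card_le_card this).trans card_image_le
    have hsplit := card_filter_add_card_filter_not (s := s)
      (fun i => S.Good t ζ i ∧ i + t ∈ S.light n θ'' (S.f^[t] ζ))
    have e1 : ((s.filter fun i => ¬ (S.Good t ζ i ∧ i + t ∈ S.light n θ'' (S.f^[t] ζ))).card : ℝ) ≤
        err d n t θ θ'' := by
      apply S.card_light_err hθ hθ'' ζ hd t
      intro i hi
      rw [mem_filter, hs, mem_filter] at hi
      refine ⟨hi.1.1, ?_, hi.2⟩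
      exact (S.mem_light.mp hi.1.2).1
    have e2 : ((s.filter fun i => S.Good t ζ i ∧ i + t ∈ S.light n θ'' (S.f^[t] ζ)).card : ℝ) ≤
        θ + θ'' := by
      have := S.card_light_inter (n := n) hθ hθ''.le (Ne.symm hne)
        ((s.filter fun i => S.Good t ζ i ∧ i + t ∈ S.light n θ'' (S.f^[t] ζ)).image (· + t)) (by
          intro j hj
          obtain ⟨i, hi, rfl⟩ := mem_image.mp hj
          rw [mem_filter, hs, mem_filter] at hi
          exact ⟨hi.1.2, hi.2.2⟩)
      rwa [card_image_of_injective _ (add_left_injective t)] at this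
    have e3 := err_mono d n hd htG hθ hθ''
    have e4 : (s.card : ℝ) =
        ((s.filter fun i => S.Good t ζ i ∧ i + t ∈ S.light n θ'' (S.f^[t] ζ)).card : ℝ) +
        ((s.filter fun i => ¬ (S.Good t ζ i ∧ i + t ∈ S.light n θ'' (S.f^[t] ζ))).card : ℝ) := by
      exact_mod_cast hsplit.symm
    have e5 : ((A g ∩ A g').card : ℝ) ≤ s.card := by exact_mod_cast hcard
    rw [hτ]
    linarith
  have h3 := union_bound A Θ τ hτ0 (G + 1) h1 h2
  have h4 : (((range (G + 1)).biUnion A).card : ℝ) ≤ n + G := by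
    have : (range (G + 1)).biUnion A ⊆ range (n + G) := by
      intro j hj
      rw [mem_biUnion] at hj
      obtain ⟨g, hg, hj⟩ := hj
      rw [hA] at hj
      simp only [mem_image] at hj
      obtain ⟨i, hi, rfl⟩ := hj
      have := (S.mem_light.mp hi).1
      rw [mem_range] at hg ⊢
      omega
    have := card_le_card this
    rw [card_range] at this
    exact_mod_cast this
  push_cast at h3
  linarith

lemma iterate_period {ζ : 𝒱} {J : ℕ} (h : S.f^[J] ζ = ζ) (l : ℕ) : S.f^[l * J] ζ = ζ := by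
  induction l with
  | zero => simp
  | succ l ih => rw [Nat.succ_mul, Function.iterate_add_apply, h, ih]

/-- At a periodic vertex, light good orbits are in distinct directions. -/
lemma distinct_dirs {ζ : 𝒱} {J N' : ℕ} (hJ : 1 ≤ J) (hper : S.f^[J] ζ = ζ) {i : ℕ}
    (hgood : S.Good (N' * J) ζ i) {θ' : ℝ}
    (hlight : ∀ l ≤ N', i + l * J ∈ S.light n θ' ζ)
    (hθ' : (i : ℝ) + N' * J + θ' * (N' * J) ≤ n) :
    ∀ l l', l < l' → l' ≤ N' → S.dir ζ (i + l * J) ≠ S.dir ζ (i + l' * J) := by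
  classical
  intro l l' hll hl' heq
  set m := (l' - l) * J with hm
  set j := i + l * J with hj
  have hm1 : 1 ≤ m := Nat.one_le_iff_ne_zero.mpr (Nat.mul_ne_zero (by omega) (by omega))
  have hmN : m ≤ N' * J := Nat.mul_le_mul_right _ (by omega)
  have hjm : j + m = i + l' * J := by
    rw [hj, hm, add_assoc, ← Nat.add_mul]
    congr 2
    omega
  have hperm : S.f^[m] ζ = ζ := S.iterate_period hper _
  have hgm : S.Good m ζ j := by
    have h1 : S.Good (l * J + m) ζ i := by
      apply Good.mono S hgood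
      rw [hm, ← Nat.add_mul]
      exact Nat.mul_le_mul_right _ (by omega)
    have := Good.shift S h1
    rwa [S.iterate_period hper l] at this
  have hall : ∀ q : ℕ, S.dir ζ j = S.dir ζ (j + q * m) := by
    intro q
    induction q with
    | zero => simp
    | succ q ih =>
      have h1 := Good.dir_eq S hgm ih m le_rfl
      rw [hperm, hjm, ← heq] at h1
      rw [h1]
      congr 1
      ring
  have hjn : j < n := (S.mem_light.mp (hlight l (by omega))).1
  have hmass := (S.mem_light.mp (hlight l (by omega))).2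
  rw [← hj] at hmass
  have hmr : (0 : ℝ) < m := by exact_mod_cast hm1
  set Q := ⌈((n : ℝ) - j) / m⌉₊ with hQ
  have hQle : Q ≤ S.mass n ζ (S.dir ζ j) := by
    have : ((range Q).image fun q => j + q * m) ⊆ (range n).filter fun i => S.dir ζ i = S.dir ζ j := by
      intro x hx
      obtain ⟨q, hq, rfl⟩ := mem_image.mp hx
      rw [mem_range, hQ, Nat.lt_ceil, lt_div_iff₀ hmr] at hq
      rw [mem_filter, mem_range]
      refine ⟨?_, (hall q).symm⟩
      have : (j : ℝ) + q * m < n := by linarith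
      exact_mod_cast this
    have h2 := card_le_card this
    rw [card_image_of_injective, card_range] at h2
    · exact h2
    · intro a b hab
      simp only at hab
      have : a * m = b * m := by omega
      exact Nat.eq_of_mul_eq_mul_right (by omega) this
  have h1 : ((n : ℝ) - j) / m ≤ Q := Nat.le_ceil _
  have h2 : (Q : ℝ) ≤ S.mass n ζ (S.dir ζ j) := by exact_mod_cast hQle
  have h3 : ((n : ℝ) - j) / m < θ' := by linarith
  rw [div_lt_iff₀ hmr] at h3
  have hmNr : (m : ℝ) ≤ N' * J := by exact_mod_cast hmN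
  have hjr : (j : ℝ) ≤ i + N' * J := by
    have : j ≤ i + N' * J := by
      rw [hj]
      exact Nat.add_le_add_left (Nat.mul_le_mul_right _ (by omega)) _
    exact_mod_cast this
  have hθ'pos : 0 < θ' := by
    by_contra hneg
    push Not at hneg
    have : (0 : ℝ) ≤ S.mass n ζ (S.dir ζ j) := Nat.cast_nonneg _
    linarith
  have h4 : θ' * m ≤ θ' * (N' * J) := mul_le_mul_of_nonneg_left hmNr hθ'pos.le
  linarith

/-- exceptional indices at a periodic vertex -/
lemma card_exceptional (hd : 1 ≤ d) {θ θ' : ℝ} (hθ : 0 ≤ θ) (hθ' : 0 < θ') {ζ : 𝒱} {J N' : ℕ}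
    (hper : S.f^[J] ζ = ζ) (s : Finset ℕ)
    (hs : ∀ i ∈ s, i ∈ S.light n θ ζ ∧ i + N' * J < n ∧
      ∃ l ≤ N', ¬ (S.Good (l * J) ζ i ∧ i + l * J ∈ S.light n θ' ζ)) :
    (s.card : ℝ) ≤ (N' + 1) * err d n (N' * J) θ θ' := by
  classical
  set A : ℕ → Finset ℕ := fun l => s.filter fun i =>
    ¬ (S.Good (l * J) ζ i ∧ i + l * J ∈ S.light n θ' ζ) with hA
  have hcover : s ⊆ (range (N' + 1)).biUnion A := by
    intro i hi
    obtain ⟨l, hl, h⟩ := (hs i hi).2.2
    rw [mem_biUnion]
    exact ⟨l, mem_range.mpr (by omega), mem_filter.mpr ⟨hi, h⟩⟩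
  calc (s.card : ℝ) ≤ ((range (N' + 1)).biUnion A).card := by exact_mod_cast card_le_card hcover
    _ ≤ ∑ l ∈ range (N' + 1), ((A l).card : ℝ) := by exact_mod_cast card_biUnion_le
    _ ≤ ∑ l ∈ range (N' + 1), err d n (N' * J) θ θ' := by
        apply sum_le_sum
        intro l hl
        rw [mem_range] at hl
        have hlN : l * J ≤ N' * J := Nat.mul_le_mul_right _ (by omega)
        refine le_trans ?_ (err_mono d n hd hlN hθ hθ')
        apply S.card_light_err hθ hθ' ζ hd (l * J)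
        intro i hi
        rw [hA, mem_filter] at hi
        obtain ⟨h1, h2, _⟩ := hs i hi.1
        refine ⟨h1, by omega, ?_⟩
        rw [S.iterate_period hper l]
        exact hi.2
    _ = (N' + 1) * err d n (N' * J) θ θ' := by
        rw [sum_const, card_range, nsmul_eq_mul]
        push_cast
        ring

/-- A chain of vertices towards each index. -/
structure Levels (L : ℕ) where
  /-- the vertex at depth `ℓ` on the way to the index `i` -/
  vtx : ℕ → ℕ → 𝒱
  vtx_zero : ∀ i j, vtx 0 i = vtx 0 j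
  vtx_succ : ∀ ℓ i j, S.dir (vtx ℓ i) j = S.dir (vtx ℓ i) i → vtx (ℓ + 1) j = vtx (ℓ + 1) i
  deep : ∀ i j, S.dir (vtx (L - 1) i) j = S.dir (vtx (L - 1) i) i →
    ∀ ℓ < L, ∀ i'', S.dir (vtx ℓ i'') i = S.dir (vtx ℓ i'') j

variable {S}

/-- mass of the class of `i` at level `ℓ` -/
noncomputable def Levels.m {L : ℕ} (Lv : S.Levels L) (n : ℕ) : ℕ → ℕ → ℕ
  | 0, _ => n
  | ℓ + 1, i => S.mass n (Lv.vtx ℓ i) (S.dir (Lv.vtx ℓ i) i)

lemma Levels.m_pos {L : ℕ} (Lv : S.Levels L) (n : ℕ) {ℓ : ℕ} (hℓ : 1 ≤ ℓ) (i : ℕ) :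
    Lv.m n ℓ i = S.mass n (Lv.vtx (ℓ - 1) i) (S.dir (Lv.vtx (ℓ - 1) i) i) := by
  obtain ⟨ℓ', rfl⟩ := Nat.exists_eq_add_of_le' hℓ
  rfl

open Classical in
/-- heavy indices -/
noncomputable def Levels.heavy {L : ℕ} (Lv : S.Levels L) (n : ℕ) (Θ : ℝ) : Finset ℕ :=
  (range n).filter fun i => Θ ≤ (Lv.m n L i : ℝ)

open Classical in
/-- indices with a mass in the gap -/
noncomputable def Levels.unclean {L : ℕ} (Lv : S.Levels L) (n : ℕ) (θ Θ : ℝ) : Finset ℕ :=
  (range n).filter fun i => ∃ ℓ ≤ L, θ ≤ (Lv.m n ℓ i : ℝ) ∧ (Lv.m n ℓ i : ℝ) < Θ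

open Classical in
/-- heavy vertices of level `ℓ` -/
noncomputable def Levels.hv {L : ℕ} (Lv : S.Levels L) (n : ℕ) (Θ : ℝ) (ℓ : ℕ) : Finset 𝒱 :=
  ((range n).filter fun i => Θ ≤ (Lv.m n ℓ i : ℝ)).image (Lv.vtx ℓ)

lemma Levels.card_hv {L : ℕ} (Lv : S.Levels L) {Θ : ℝ} (hΘ : 0 < Θ) (ℓ : ℕ) :
    ((Lv.hv n Θ ℓ).card : ℝ) ≤ n / Θ := by
  classical
  rw [le_div_iff₀ hΘ]
  calc ((Lv.hv n Θ ℓ).card : ℝ) * Θ = ∑ ζ ∈ Lv.hv n Θ ℓ, Θ := by rw [sum_const, nsmul_eq_mul]
    _ ≤ ∑ ζ ∈ Lv.hv n Θ ℓ, (((range n).filter fun j => Lv.vtx ℓ j = ζ).card : ℝ) := by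
        apply sum_le_sum
        intro ζ hζ
        unfold Levels.hv at hζ
        obtain ⟨i, hi, rfl⟩ := mem_image.mp hζ
        rw [mem_filter] at hi
        refine hi.2.trans ?_
        rcases ℓ with _ | ℓ
        · have : (range n).filter (fun j => Lv.vtx 0 j = Lv.vtx 0 i) = range n := by
            rw [filter_true_of_mem]
            intro j _
            exact Lv.vtx_zero j i
          rw [this, card_range]
          rfl
        · unfold Levels.m mass
          exact_mod_cast card_le_card fun j hj => by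
            rw [mem_filter] at hj ⊢
            exact ⟨hj.1, Lv.vtx_succ ℓ i j hj.2⟩
    _ ≤ n := by
        have h1 := card_eq_sum_card_fiberwise (f := Lv.vtx ℓ)
          (s := (range n).filter fun j => Lv.vtx ℓ j ∈ Lv.hv n Θ ℓ) (t := Lv.hv n Θ ℓ)
          (fun i hi => (mem_filter.mp hi).2)
        have h2 : ∀ ζ ∈ Lv.hv n Θ ℓ, (((range n).filter fun j => Lv.vtx ℓ j ∈ Lv.hv n Θ ℓ).filter
            fun j => Lv.vtx ℓ j = ζ) = (range n).filter fun j => Lv.vtx ℓ j = ζ := by
          intro ζ hζ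
          ext j
          simp only [mem_filter]
          constructor
          · rintro ⟨⟨h, _⟩, h'⟩; exact ⟨h, h'⟩
          · rintro ⟨h, h'⟩; exact ⟨⟨h, by rw [h']; exact hζ⟩, h'⟩
        rw [sum_congr rfl (fun ζ hζ => by rw [h2 ζ hζ])] at h1
        have h3 : ((range n).filter fun j => Lv.vtx ℓ j ∈ Lv.hv n Θ ℓ).card ≤ n := by
          calc _ ≤ (range n).card := card_filter_le _ _
            _ = n := card_range n
        rw [h1] at h3
        exact_mod_cast h3

/-- the gap of a clean non-heavy index -/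
lemma Levels.exists_gap {L : ℕ} (Lv : S.Levels L) {θ Θ : ℝ} (hΘn : Θ ≤ n) {i : ℕ} (hi : i < n)
    (h1 : i ∉ Lv.heavy n Θ) (h2 : i ∉ Lv.unclean n θ Θ) :
    ∃ ℓ < L, Θ ≤ (Lv.m n ℓ i : ℝ) ∧ (Lv.m n (ℓ + 1) i : ℝ) < θ := by
  classical
  have hL : (Lv.m n L i : ℝ) < Θ := by
    by_contra h
    push Not at h
    exact h1 (mem_filter.mpr ⟨mem_range.mpr hi, h⟩)
  have hex : ∃ ℓ, (Lv.m n ℓ i : ℝ) < Θ := ⟨L, hL⟩
  set ℓ' := Nat.find hex with hℓ'
  have h3 := Nat.find_spec hex
  have h4 : ℓ' ≤ L := Nat.find_le hL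
  have h5 : ℓ' ≠ 0 := by
    intro h
    rw [← hℓ', h] at h3
    unfold Levels.m at h3
    linarith
  obtain ⟨ℓ, hℓ⟩ := Nat.exists_eq_succ_of_ne_zero h5
  refine ⟨ℓ, by omega, ?_, ?_⟩
  · have := Nat.find_min hex (m := ℓ) (by omega)
    push Not at this
    exact this
  · rw [← hℓ', hℓ] at h3
    by_contra h
    push Not at h
    exact h2 (mem_filter.mpr ⟨mem_range.mpr hi, ℓ + 1, by omega, h, h3⟩)

/-- **Classification.** -/
theorem Levels.classify {L : ℕ} (Lv : S.Levels L) (hd : 1 ≤ d) {N' J G : ℕ}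
    {θ θ' θ'' Θ Θ' : ℝ} (hθ : 0 ≤ θ) (hθ' : 0 < θ') (hθ'' : 0 < θ'') (hΘ : 0 < Θ) (hΘ' : 0 ≤ Θ')
    (hΘn : Θ ≤ n) (hθΘ : θ' ≤ Θ) (hJ1 : 1 ≤ J) (hJ : ∀ t, 1 ≤ t → t ≤ G → t ∣ J)
    (hG : (n : ℝ) + G < (G + 1) * Θ' - (G + 1) ^ 2 * (err d n G θ θ'' + θ + θ'')) :
    ∃ Bad : Finset ℕ, Bad ⊆ range n ∧
      (Bad.card : ℝ) ≤ (Lv.unclean n θ Θ).card +
        (L * (n / Θ) * (Θ' + (N' + 1) * err d n (N' * J) θ θ') + (N' * J + θ' * (N' * J)) + 1) ∧
      ∀ i < n, i ∉ Bad → i ∉ Lv.heavy n Θ →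
        (∃ ζ : 𝒱, ∀ l l', l < l' → l' ≤ N' → S.dir ζ (i + l * J) ≠ S.dir ζ (i + l' * J)) ∧
        ∀ l ≤ N', i + l * J ∉ Lv.heavy n Θ := by
  classical
  set End : Finset ℕ := (range n).filter fun i => ¬ ((i : ℝ) + N' * J + θ' * (N' * J) ≤ n) with hEnd
  set Exc : 𝒱 → Finset ℕ := fun ζ => (S.light n θ ζ).filter fun i => i + N' * J < n ∧
      ∃ l ≤ N', ¬ (S.Good (l * J) ζ i ∧ i + l * J ∈ S.light n θ' ζ) with hExc
  set B1 : 𝒱 → Finset ℕ := fun ζ => if ((S.light n θ ζ).card : ℝ) < Θ' then S.light n θ ζ else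
    if S.f^[J] ζ = ζ then Exc ζ else ∅ with hB1
  have herr0 : 0 ≤ err d n (N' * J) θ θ' := by
    unfold err
    have : (0 : ℝ) ≤ n / θ' := by positivity
    positivity
  have hB1card : ∀ ζ, ((B1 ζ).card : ℝ) ≤ Θ' + (N' + 1) * err d n (N' * J) θ θ' := by
    intro ζ
    have hpos : 0 ≤ ((N' : ℝ) + 1) * err d n (N' * J) θ θ' := by positivity
    rw [hB1]
    simp only
    split_ifs with h1 h2
    · linarith
    · have := S.card_exceptional (n := n) hd hθ hθ' h2 (N' := N') (Exc ζ) (by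
        intro i hi
        rw [hExc, mem_filter] at hi
        exact hi)
      linarith
    · simp only [card_empty, Nat.cast_zero]
      linarith
  set B2 : Finset ℕ := (range L).biUnion fun ℓ => (Lv.hv n Θ ℓ).biUnion B1 with hB2
  have hB2card : (B2.card : ℝ) ≤ L * (n / Θ) * (Θ' + (N' + 1) * err d n (N' * J) θ θ') := by
    have hpos : 0 ≤ Θ' + ((N' : ℝ) + 1) * err d n (N' * J) θ θ' := by positivity
    calc (B2.card : ℝ) ≤ ∑ ℓ ∈ range L, (((Lv.hv n Θ ℓ).biUnion B1).card : ℝ) := by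
          exact_mod_cast card_biUnion_le
      _ ≤ ∑ ℓ ∈ range L, (n / Θ) * (Θ' + (N' + 1) * err d n (N' * J) θ θ') := by
          apply sum_le_sum
          intro ℓ _
          calc (((Lv.hv n Θ ℓ).biUnion B1).card : ℝ) ≤ ∑ ζ ∈ Lv.hv n Θ ℓ, ((B1 ζ).card : ℝ) := by
                exact_mod_cast card_biUnion_le
            _ ≤ ∑ ζ ∈ Lv.hv n Θ ℓ, (Θ' + (N' + 1) * err d n (N' * J) θ θ') :=
                sum_le_sum fun ζ _ => hB1card ζ
            _ = (Lv.hv n Θ ℓ).card * (Θ' + (N' + 1) * err d n (N' * J) θ θ') := by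
                rw [sum_const, nsmul_eq_mul]
            _ ≤ (n / Θ) * (Θ' + (N' + 1) * err d n (N' * J) θ θ') :=
                mul_le_mul_of_nonneg_right (Lv.card_hv hΘ ℓ) hpos
      _ = L * (n / Θ) * (Θ' + (N' + 1) * err d n (N' * J) θ θ') := by
          rw [sum_const, card_range, nsmul_eq_mul]
          ring
  have hEndcard : (End.card : ℝ) ≤ (N' * J + θ' * (N' * J)) + 1 := by
    set c : ℝ := N' * J + θ' * (N' * J) with hc
    have hc0 : 0 ≤ c := by positivity
    have hsub : End ⊆ (range n).filter fun i => (n : ℝ) - c < i := by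
      intro i hi
      rw [hEnd, mem_filter] at hi
      rw [mem_filter]
      refine ⟨hi.1, ?_⟩
      have := hi.2
      push Not at this
      linarith
    have hsub2 : ((range n).filter fun i : ℕ => (n : ℝ) - c < i) ⊆ Ico (n - ⌈c⌉₊) n := by
      intro i hi
      rw [mem_filter, mem_range] at hi
      rw [mem_Ico]
      refine ⟨?_, hi.1⟩
      have h1 := hi.2
      have h2 := Nat.le_ceil c
      have h3 : (n : ℝ) < i + ⌈c⌉₊ := by linarith
      have h4 : n < i + ⌈c⌉₊ := by exact_mod_cast h3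
      omega
    have h5 := card_le_card (hsub.trans hsub2)
    rw [Nat.card_Ico] at h5
    have h6 : End.card ≤ ⌈c⌉₊ := by omega
    have h7 : (⌈c⌉₊ : ℝ) < c + 1 := Nat.ceil_lt_add_one hc0
    have h8 : (End.card : ℝ) ≤ ⌈c⌉₊ := by exact_mod_cast h6
    linarith
  refine ⟨Lv.unclean n θ Θ ∪ (B2 ∪ End), ?_, ?_, ?_⟩
  · intro i hi
    rcases mem_union.mp hi with h | h
    · exact (mem_filter.mp h).1
    rcases mem_union.mp h with h | h
    · rw [hB2, mem_biUnion] at h
      obtain ⟨ℓ, _, h⟩ := h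
      rw [mem_biUnion] at h
      obtain ⟨ζ, _, h⟩ := h
      have hlight : i ∈ S.light n θ ζ := by
        rw [hB1] at h
        simp only at h
        split_ifs at h with h1 h2
        · exact h
        · exact (mem_filter.mp h).1
        · simp at h
      exact mem_range.mpr (S.mem_light.mp hlight).1
    · exact (mem_filter.mp h).1
  · have h1 : ((Lv.unclean n θ Θ ∪ (B2 ∪ End)).card : ℝ) ≤
        (Lv.unclean n θ Θ).card + ((B2.card : ℝ) + End.card) := by
      have h2 := card_union_le (Lv.unclean n θ Θ) (B2 ∪ End)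
      have h3 := card_union_le B2 End
      exact_mod_cast h2.trans (Nat.add_le_add_left h3 _)
    linarith
  · intro i hi hBad hheavy
    rw [mem_union, not_or, mem_union, not_or] at hBad
    obtain ⟨hclean, hB2', hEnd'⟩ := hBad
    obtain ⟨ℓ, hℓ, h1, h2⟩ := Lv.exists_gap hΘn hi hheavy hclean
    set ζ := Lv.vtx ℓ i with hζ
    have hζm : ζ ∈ Lv.hv n Θ ℓ := mem_image.mpr ⟨i, mem_filter.mpr ⟨mem_range.mpr hi, h1⟩, rfl⟩
    have hiB1 : i ∉ B1 ζ := by
      intro h
      apply hB2'
      rw [hB2, mem_biUnion]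
      refine ⟨ℓ, mem_range.mpr hℓ, ?_⟩
      rw [mem_biUnion]
      exact ⟨ζ, hζm, h⟩
    have hil : i ∈ S.light n θ ζ := S.mem_light.mpr ⟨hi, h2⟩
    have hbig : Θ' ≤ (S.light n θ ζ).card := by
      by_contra hlt
      push Not at hlt
      apply hiB1
      rw [hB1]
      simp only
      rw [if_pos hlt]
      exact hil
    obtain ⟨t, ht1, htG, htper⟩ := S.exists_period (n := n) hd hθ hθ'' ζ hbig G hG
    have hper : S.f^[J] ζ = ζ := by
      obtain ⟨q, hq⟩ := hJ t ht1 htG
      rw [hq, mul_comm]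
      exact S.iterate_period htper q
    have hiEnd : (i : ℝ) + N' * J + θ' * (N' * J) ≤ n := by
      by_contra h
      exact hEnd' (mem_filter.mpr ⟨mem_range.mpr hi, h⟩)
    have hiN : i + N' * J < n ∨ N' * J = 0 := by
      by_cases h0 : N' * J = 0
      · exact Or.inr h0
      left
      have h3 : (0 : ℝ) < N' * J := by
        have : 0 < N' * J := Nat.pos_of_ne_zero h0
        exact_mod_cast this
      have h4 : (i : ℝ) + N' * J < n := by nlinarith [mul_pos hθ' h3]
      exact_mod_cast h4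
    have hiN' : i + N' * J < n := by
      rcases hiN with h | h
      · exact h
      · rw [h]; exact hi
    have hall : ∀ l ≤ N', S.Good (l * J) ζ i ∧ i + l * J ∈ S.light n θ' ζ := by
      by_contra hcon
      push Not at hcon
      obtain ⟨l, hl, h3⟩ := hcon
      apply hiB1
      rw [hB1]
      simp only
      rw [if_neg (not_lt.mpr hbig), if_pos hper]
      rw [hExc, mem_filter]
      refine ⟨hil, hiN', l, hl, ?_⟩
      rintro ⟨h4, h5⟩
      exact h3 h4 h5
    refine ⟨⟨ζ, S.distinct_dirs hJ1 hper (hall N' le_rfl).1 (fun l hl => (hall l hl).2) hiEnd⟩, ?_⟩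
    intro l hl hh
    have h3 := (mem_filter.mp hh).2
    have h4 := (S.mem_light.mp (hall l hl).2).2
    have h5 : Lv.m n L (i + l * J) ≤ S.mass n ζ (S.dir ζ (i + l * J)) := by
      rw [Lv.m_pos n (by omega : 1 ≤ L)]
      unfold mass
      apply card_le_card
      intro j hj
      rw [mem_filter] at hj ⊢
      exact ⟨hj.1, (Lv.deep (i + l * J) j hj.2 ℓ hℓ i).symm⟩
    have h6 : (Lv.m n L (i + l * J) : ℝ) ≤ S.mass n ζ (S.dir ζ (i + l * J)) := by exact_mod_cast h5
    linarith

/-- Few heavy indices become non-heavy. -/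
lemma card_transition {n : ℕ} (Hv Bad : Finset ℕ) (hHv : Hv ⊆ range n) (t : ℕ)
    (h : ∀ i < n, i ∉ Bad → i ∉ Hv → i + t ∉ Hv) (s : Finset ℕ)
    (hs : ∀ i ∈ s, i ∈ Hv ∧ i + t < n ∧ i + t ∉ Hv) : s.card ≤ t + Bad.card := by
  classical
  -- `Hv` contains `s` and the disjoint set of `i` with `i + t` heavy
  set a := Hv.filter fun i => i + t ∈ Hv with ha
  have hdisj : Disjoint s a := by
    rw [disjoint_left]
    intro i hi hi'
    exact (hs i hi).2.2 (mem_filter.mp hi').2
  have h1 : s.card + a.card ≤ Hv.card := by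
    rw [← card_union_of_disjoint hdisj]
    apply card_le_card
    intro i hi
    rcases mem_union.mp hi with h | h
    · exact (hs i h).1
    · exact (mem_filter.mp h).1
  -- heavy indices `≥ t` come from `a` or from bad indices
  have h2 : Hv ⊆ range t ∪ (a.image (· + t) ∪ Bad.image (· + t)) := by
    intro j hj
    by_cases hjt : j < t
    · exact mem_union_left _ (mem_range.mpr hjt)
    apply mem_union_right
    push Not at hjt
    obtain ⟨i, rfl⟩ := Nat.exists_eq_add_of_le' hjt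
    by_cases hi : i ∈ Hv
    · exact mem_union_left _ (mem_image.mpr ⟨i, mem_filter.mpr ⟨hi, hj⟩, rfl⟩)
    · apply mem_union_right
      refine mem_image.mpr ⟨i, ?_, rfl⟩
      by_contra hB
      have : i + t < n := mem_range.mp (hHv hj)
      exact h i (by omega) hB hi hj
  have h3 : Hv.card ≤ t + (a.card + Bad.card) := by
    refine (card_le_card h2).trans ((card_union_le _ _).trans ?_)
    rw [card_range]
    apply Nat.add_le_add_left
    refine (card_union_le _ _).trans ?_
    exact Nat.add_le_add card_image_le card_image_le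
  omega

end TreeDyn

end Pool.Agent.Helper33.UB
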