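import Pool.Agent.Helper33.UB.LB
import Pool.Agent.Helper33.UB.Tree2
import Pool.Agent.Helper33.UB.AM2

/-!
# The tree of discs of a polynomial
-/

set_option autoImplicit false

open Polynomial Finset

namespace Pool.Agent.Helper33.UB

variable {K : Type*} [Field K]

/-- closed disc -/
def ball (v : DV K) (x : K) (r : ℤ) : Set K := {z | z = x ∨ r ≤ v.o (z - x)}

section ball

variable {v : DV K}

lemma mem_ball {x z : K} {r : ℤ} : z ∈ ball v x r ↔ z = x ∨ r ≤ v.o (z - x) := Iff.rfl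

lemma mem_ball_self (x : K) (r : ℤ) : x ∈ ball v x r := Or.inl rfl

lemma mem_ball_symm {x z : K} {r : ℤ} (h : z ∈ ball v x r) : x ∈ ball v z r := by
  rcases h with h | h
  · exact Or.inl h.symm
  · right; rwa [v.o_sub_comm]

lemma mem_ball_trans {x y z : K} {r : ℤ} (h1 : x ∈ ball v y r) (h2 : y ∈ ball v z r) :
    x ∈ ball v z r := by
  by_cases hxz : x = z
  · exact Or.inl hxz
  rcases h1 with rfl | h1
  · exact h2
  rcases h2 with rfl | h2
  · exact Or.inr h1
  by_cases hxy : x = y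
  · subst hxy; exact Or.inr h2
  by_cases hyz : y = z
  · subst hyz; exact Or.inr h1
  right
  have h3 := v.add (x - y) (y - z) (sub_ne_zero.mpr hxy) (sub_ne_zero.mpr hyz) (by
    rw [sub_add_sub_cancel]; exact sub_ne_zero.mpr hxz)
  rw [sub_add_sub_cancel] at h3
  exact (le_min h1 h2).trans h3

lemma ball_eq {x z : K} {r : ℤ} (h : z ∈ ball v x r) : ball v z r = ball v x r := by
  ext y
  constructor
  · intro hy; exact mem_ball_trans hy h
  · intro hy; exact mem_ball_trans hy (mem_ball_symm h)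

lemma ball_eq_iff {x z : K} {r : ℤ} : ball v z r = ball v x r ↔ z ∈ ball v x r := by
  constructor
  · intro h; rw [← h]; exact mem_ball_self z r
  · exact ball_eq

lemma ball_mono {x : K} {r s : ℤ} (h : r ≤ s) : ball v x s ⊆ ball v x r := by
  intro z hz
  rcases hz with hz | hz
  · exact Or.inl hz
  · exact Or.inr (h.trans hz)

lemma mem_ball_iff_ge {x z : K} {r : ℤ} : z ∈ ball v x r ↔ v.ge (r : ℝ) (z - x) := by
  rw [mem_ball]
  unfold DV.ge
  rw [sub_eq_zero]
  constructor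
  · rintro (h | h)
    · exact Or.inl h
    · right; exact_mod_cast h
  · rintro (h | h)
    · exact Or.inl h
    · right; exact_mod_cast h

lemma ball_nonempty (x : K) (r : ℤ) : ball v x r ≠ ∅ := by
  intro h
  have := mem_ball_self (v := v) x r
  rw [h] at this
  exact this

end ball

section phi

/-- the radius of the image of a disc -/
noncomputable def phi (v : DV K) (f : K[X]) (x : K) (r : ℤ) : ℤ :=
  open Classical in
  if h : ((Icc 1 f.natDegree).filter fun j => tc f x j ≠ 0).Nonempty then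
    ((Icc 1 f.natDegree).filter fun j => tc f x j ≠ 0).inf' h fun j => v.o (tc f x j) + j * r
  else 0

variable {v : DV K} {f : K[X]}

lemma phi_le {x : K} {r : ℤ} {j : ℕ} (hj : 1 ≤ j) (ht : tc f x j ≠ 0) :
    phi v f x r ≤ v.o (tc f x j) + j * r := by
  classical
  have hj2 : j ≤ f.natDegree := by
    by_contra h
    push Not at h
    exact ht (tc_of_gt f x j h)
  have hmem : j ∈ (Icc 1 f.natDegree).filter fun j => tc f x j ≠ 0 :=
    mem_filter.mpr ⟨mem_Icc.mpr ⟨hj, hj2⟩, ht⟩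
  unfold phi
  rw [dif_pos ⟨j, hmem⟩]
  exact inf'_le _ hmem

lemma exists_phi (hd : 1 ≤ f.natDegree) (x : K) (r : ℤ) :
    ∃ j : ℕ, 1 ≤ j ∧ tc f x j ≠ 0 ∧ phi v f x r = v.o (tc f x j) + j * r := by
  classical
  have hne : ((Icc 1 f.natDegree).filter fun j => tc f x j ≠ 0).Nonempty := by
    refine ⟨f.natDegree, mem_filter.mpr ⟨mem_Icc.mpr ⟨hd, le_rfl⟩, ?_⟩⟩
    rw [tc_natDegree, Ne, leadingCoeff_eq_zero]
    rintro rfl
    simp at hd
  unfold phi
  rw [dif_pos hne]
  obtain ⟨j, hj, he⟩ := exists_mem_eq_inf' hne fun j : ℕ => v.o (tc f x j) + j * r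
  rw [mem_filter, mem_Icc] at hj
  exact ⟨j, hj.1.1, hj.2, he⟩

lemma flat_phi (x : K) (r : ℤ) : Flat v f (phi v f x r) r x := by
  intro i hi
  by_cases ht : tc f x i = 0
  · exact Or.inl ht
  right
  have := phi_le (v := v) (r := r) hi ht
  have h2 : (phi v f x r : ℝ) ≤ v.o (tc f x i) + i * r := by exact_mod_cast this
  linarith

lemma phi_le_of_flat (hd : 1 ≤ f.natDegree) {x : K} {r s : ℤ} (h : Flat v f s r x) :
    s ≤ phi v f x r := by
  obtain ⟨j, hj, ht, he⟩ := exists_phi (v := v) hd x r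
  have h1 := DV.ge_le (h j hj) ht
  rw [he]
  have h2 : (s : ℝ) ≤ v.o (tc f x j) + j * r := by linarith
  exact_mod_cast h2

lemma phi_recenter (hd : 1 ≤ f.natDegree) {x z : K} {r : ℤ} (h : z ∈ ball v x r) :
    phi v f z r = phi v f x r := by
  apply le_antisymm
  · apply phi_le_of_flat hd
    have h1 := (flat_phi (v := v) (f := f) z r).recenter
      (mem_ball_iff_ge.mp (mem_ball_symm h))
    rwa [add_sub_cancel] at h1
  · apply phi_le_of_flat hd
    have h1 := (flat_phi (v := v) (f := f) x r).recenter (mem_ball_iff_ge.mp h)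
    rwa [add_sub_cancel] at h1

lemma flat_expand {Ψ ρ τ : ℝ} {y z : K} (h : Flat v f Ψ ρ y) (hτ : 0 ≤ τ) (hz : v.ge (ρ + τ) z) :
    v.ge (Ψ + τ) (f.eval (y + z) - f.eval y) := by
  have hexp : f.eval (y + z) - f.eval y =
      ∑ i ∈ Finset.Ico 1 (f.natDegree + 1), tc f y i * z ^ i := by
    rw [eval_add_tc, Finset.range_eq_Ico,
      Finset.sum_eq_sum_Ico_succ_bot (by omega), tc_zero]
    simp
  rw [hexp]
  apply DV.ge_sum
  intro i hi
  rw [Finset.mem_Ico] at hi
  refine DV.ge_mono (DV.ge_mul (h i hi.1) (DV.ge_pow hz i)) ?_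
  have : (1 : ℝ) ≤ i := by exact_mod_cast hi.1
  nlinarith

/-- `f` maps discs into discs -/
lemma eval_mem_ball (hd : 1 ≤ f.natDegree) {x y z : K} {r : ℤ} (hy : y ∈ ball v x r) (t : ℕ)
    (hz : z ∈ ball v y (r + t)) : f.eval z ∈ ball v (f.eval y) (phi v f x r + t) := by
  rw [mem_ball_iff_ge] at hz ⊢
  have h1 := flat_phi (v := v) (f := f) y r
  rw [phi_recenter hd hy] at h1
  have h2 := flat_expand h1 (τ := t) (Nat.cast_nonneg t) (z := z - y) (by push_cast at hz; exact hz)
  rw [add_sub_cancel] at h2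
  push_cast
  exact h2

/-- the reduction has degree at most `d` -/
lemma star_push [DecidableEq K] (hd : 1 ≤ f.natDegree) {x : K} {r : ℤ} (s : Finset K)
    (hsx : ∀ y ∈ s, y ∈ ball v x r)
    (hs : ∀ y ∈ s, ∀ z ∈ s, y ≠ z → y ∉ ball v z (r + 1))
    (hf : ∀ y ∈ s, ∀ z ∈ s, f.eval y ∈ ball v (f.eval z) (phi v f x r + 1)) :
    s.card ≤ f.natDegree := by
  by_contra hlt
  push Not at hlt
  obtain ⟨y0, hy0⟩ : s.Nonempty := card_pos.mp (by omega)
  set g := f - C (f.eval y0) with hg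
  have hgdeg : g.natDegree = f.natDegree := by rw [hg]; exact natDegree_sub_C
  have hg0 : g ≠ 0 := by
    intro h
    rw [h] at hgdeg
    simp at hgdeg
    omega
  have hgd : g.degree < s.card := by
    rw [degree_eq_natDegree hg0, hgdeg]
    exact_mod_cast hlt
  obtain ⟨a, ha, hga, hj⟩ := q_lemma (v := v) (ρ := r) hgd hg0 (by
    intro y hy z hz hyz
    have h1 := hs y hy z hz hyz
    rw [mem_ball, not_or] at h1
    have h2 : v.o (y - z) ≤ r := by omega
    exact_mod_cast h2)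
  have hga' : g.eval a = f.eval a - f.eval y0 := by rw [hg]; simp
  rw [hga'] at hga hj
  have h1 := hf a ha y0 hy0
  rw [mem_ball] at h1
  rcases h1 with h1 | h1
  · exact hga (sub_eq_zero.mpr h1)
  obtain ⟨j, hj1, ht, he⟩ := exists_phi (v := v) hd a r
  have h2 : tc g a j = tc f a j := by
    unfold tc
    rw [hg, map_sub, taylor_C, coeff_sub, coeff_C, if_neg (by omega), sub_zero]
  have h3 := hj j hj1
  rw [h2] at h3
  have h4 := DV.ge_le h3 ht
  rw [phi_recenter hd (hsx a ha)] at he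
  have h5 : (phi v f x r : ℝ) = v.o (tc f a j) + j * r := by exact_mod_cast he
  have h6 : (phi v f x r : ℝ) + 1 ≤ v.o (f.eval a - f.eval y0) := by exact_mod_cast h1
  linarith

end phi

section tree

/-- vertices: discs with their radius -/
def PV (v : DV K) : Type _ := {p : Set K × ℤ // ∃ x, p.1 = ball v x p.2}

/-- the disc as a vertex -/
def PV.mk (v : DV K) (x : K) (r : ℤ) : PV v := ⟨(ball v x r, r), x, rfl⟩

lemma PV.exists_rep {v : DV K} (ζ : PV v) : ∃ x r, ζ = PV.mk v x r := by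
  obtain ⟨⟨B, r⟩, x, h⟩ := ζ
  simp only at h
  subst h
  exact ⟨x, r, rfl⟩

lemma PV.mk_eq {v : DV K} {x y : K} {r : ℤ} (h : x ∈ ball v y r) : PV.mk v x r = PV.mk v y r := by
  unfold PV.mk
  congr 2
  exact ball_eq h

/-- action on discs -/
noncomputable def PV.f (v : DV K) (f : K[X]) (ζ : PV v) : PV v :=
  PV.mk v (f.eval ζ.2.choose) (phi v f ζ.2.choose ζ.1.2)

lemma PV.f_mk {v : DV K} {f : K[X]} (hd : 1 ≤ f.natDegree) (x : K) (r : ℤ) :
    PV.f v f (PV.mk v x r) = PV.mk v (f.eval x) (phi v f x r) := by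
  have h : ball v x r = ball v (PV.mk v x r).2.choose r := (PV.mk v x r).2.choose_spec
  have h2 : (PV.mk v x r).2.choose ∈ ball v x r := by rw [h]; exact mem_ball_self _ _
  unfold PV.f
  change PV.mk v (f.eval (PV.mk v x r).2.choose) (phi v f (PV.mk v x r).2.choose r) = _
  rw [phi_recenter hd h2]
  apply PV.mk_eq
  have := eval_mem_ball (v := v) hd (mem_ball_self x r) 0 (z := (PV.mk v x r).2.choose) (by simpa using h2)
  simpa using this

open Classical in
/-- direction of an element at a disc -/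
noncomputable def PV.dir {v : DV K} (ζ : PV v) (y : K) : Set K :=
  if y ∈ ζ.1.1 then ball v y (ζ.1.2 + 1) else ∅

lemma PV.dir_mk_of_mem {v : DV K} {x y : K} {r : ℤ} (h : y ∈ ball v x r) :
    (PV.mk v x r).dir y = ball v y (r + 1) := by
  unfold PV.dir PV.mk
  rw [if_pos h]

lemma PV.dir_mk_of_notMem {v : DV K} {x y : K} {r : ℤ} (h : y ∉ ball v x r) :
    (PV.mk v x r).dir y = ∅ := by
  unfold PV.dir PV.mk
  rw [if_neg h]

lemma PV.dir_ne_empty {v : DV K} {x y : K} {r : ℤ} : (PV.mk v x r).dir y ≠ ∅ ↔ y ∈ ball v x r := by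
  constructor
  · intro h
    by_contra hy
    exact h (PV.dir_mk_of_notMem hy)
  · intro h
    rw [PV.dir_mk_of_mem h]
    exact ball_nonempty _ _

lemma PV.dir_eq_iff {v : DV K} {x y z : K} {r : ℤ} (hy : y ∈ ball v x r) :
    (PV.mk v x r).dir y = (PV.mk v x r).dir z ↔ z ∈ ball v y (r + 1) := by
  rw [PV.dir_mk_of_mem hy]
  constructor
  · intro h
    have hz : z ∈ ball v x r := by
      rw [← PV.dir_ne_empty, ← h]
      exact ball_nonempty _ _
    rw [PV.dir_mk_of_mem hz] at h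
    exact ball_eq_iff.mp h.symm
  · intro h
    have hz : z ∈ ball v x r := mem_ball_trans (ball_mono (by omega) h) hy
    rw [PV.dir_mk_of_mem hz]
    exact (ball_eq h).symm

/-- The tree dynamics of a polynomial. -/
noncomputable def polyTree (v : DV K) (f : K[X]) (hd : 1 ≤ f.natDegree) (x : ℕ → K)
    (hx : ∀ i, x (i + 1) = f.eval (x i)) : TreeDyn (PV v) (Set K) f.natDegree where
  dir ζ i := ζ.dir (x i)
  f := PV.f v f
  bad _ := {∅}
  bad_card _ := by rw [card_singleton]; exact hd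
  good_map := by
    intro ζ i j h1 h2
    obtain ⟨a, r, rfl⟩ := ζ.exists_rep
    rw [mem_singleton, ← ne_eq, PV.dir_ne_empty] at h1
    rw [PV.dir_eq_iff h1] at h2
    rw [PV.f_mk hd, hx, hx]
    have h3 := eval_mem_ball (v := v) hd (mem_ball_self a r) 0 (z := x i) (by simpa using h1)
    rw [PV.dir_eq_iff (by simpa using h3)]
    exact_mod_cast eval_mem_ball (v := v) hd h1 1 (by exact_mod_cast h2)
  fto := by
    classical
    intro ζ δ' Ds h
    obtain ⟨a, r, rfl⟩ := ζ.exists_rep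
    choose! hgood i hi using h
    have hmem : ∀ δ ∈ Ds, x (i δ) ∈ ball v a r := by
      intro δ hδ
      rw [← PV.dir_ne_empty, (hi δ hδ).1]
      have := hgood δ hδ
      rwa [mem_singleton] at this
    have hdelta : ∀ δ ∈ Ds, δ = ball v (x (i δ)) (r + 1) := by
      intro δ hδ
      rw [← PV.dir_mk_of_mem (hmem δ hδ)]
      exact (hi δ hδ).1.symm
    have hne : ∀ δ ∈ Ds, ∀ δ1 ∈ Ds, δ ≠ δ1 → x (i δ) ∉ ball v (x (i δ1)) (r + 1) := by
      intro δ hδ δ1 hδ1 hne hmem'
      apply hne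
      rw [hdelta δ hδ, hdelta δ1 hδ1, ball_eq hmem']
    have hinj : Set.InjOn (fun δ => x (i δ)) (Ds : Set (Set K)) := by
      intro δ hδ δ1 hδ1 he
      by_contra hne'
      simp only at he
      apply hne δ hδ δ1 hδ1 hne'
      rw [he]; exact mem_ball_self _ _
    rw [← card_image_of_injOn hinj]
    have hfmem : ∀ δ ∈ Ds, f.eval (x (i δ)) ∈ ball v (f.eval a) (phi v f a r) := by
      intro δ hδ
      have := eval_mem_ball (v := v) hd (mem_ball_self a r) 0 (z := x (i δ)) (by simpa using hmem δ hδ)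
      simpa using this
    apply star_push (v := v) hd (x := a) (r := r)
    · intro y hy
      obtain ⟨δ, hδ, rfl⟩ := mem_image.mp hy
      exact hmem δ hδ
    · intro y hy z hz hyz
      obtain ⟨δ, hδ, rfl⟩ := mem_image.mp hy
      obtain ⟨δ1, hδ1, rfl⟩ := mem_image.mp hz
      exact hne δ hδ δ1 hδ1 fun e => hyz (by rw [e])
    · intro y hy z hz
      obtain ⟨δ, hδ, rfl⟩ := mem_image.mp hy
      obtain ⟨δ1, hδ1, rfl⟩ := mem_image.mp hz
      have e1 := (hi δ hδ).2
      have e2 := (hi δ1 hδ1).2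
      rw [PV.f_mk hd, hx] at e1 e2
      exact (PV.dir_eq_iff (hfmem δ1 hδ1)).mp (e2.trans e1.symm)
  tree := by
    intro ζ ζ' hne
    obtain ⟨a, r, rfl⟩ := ζ.exists_rep
    obtain ⟨b, s, rfl⟩ := ζ'.exists_rep
    by_cases hint : ∃ z, z ∈ ball v a r ∧ z ∈ ball v b s
    · obtain ⟨z, hza, hzb⟩ := hint
      rw [← PV.mk_eq hza, ← PV.mk_eq hzb] at hne ⊢
      rcases lt_trichotomy r s with hrs | hrs | hrs
      · refine ⟨ball v z (r + 1), ∅, ?_⟩
        intro i hi
        by_contra hi2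
        rw [← ne_eq, PV.dir_ne_empty] at hi2
        apply hi
        have h1 : x i ∈ ball v z (r + 1) := ball_mono (by omega) hi2
        rw [PV.dir_mk_of_mem (ball_mono (by omega) h1), ball_eq h1]
      · exact absurd (by rw [hrs]) hne
      · refine ⟨∅, ball v z (s + 1), ?_⟩
        intro i hi
        rw [PV.dir_ne_empty] at hi
        have h1 : x i ∈ ball v z (s + 1) := ball_mono (by omega) hi
        rw [PV.dir_mk_of_mem (ball_mono (by omega) h1), ball_eq h1]
    · refine ⟨∅, ∅, ?_⟩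
      intro i hi
      rw [PV.dir_ne_empty] at hi
      exact PV.dir_mk_of_notMem fun h => hint ⟨x i, hi, h⟩

/-- levels of the tree above a disc containing the orbit -/
noncomputable def polyLevels (v : DV K) (f : K[X]) (hd : 1 ≤ f.natDegree) (x : ℕ → K)
    (hx : ∀ i, x (i + 1) = f.eval (x i)) (A : ℤ) (hA : ∀ i j, x i ∈ ball v (x j) A) {L : ℕ} (hL : 1 ≤ L) :
    (polyTree v f hd x hx).Levels L where
  vtx ℓ i := PV.mk v (x i) (A + ℓ)
  vtx_zero i j := by
    apply PV.mk_eq
    simpa using hA i j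
  vtx_succ ℓ i j h := by
    change (PV.mk v (x i) (A + ℓ)).dir (x j) = (PV.mk v (x i) (A + ℓ)).dir (x i) at h
    have h1 := (PV.dir_eq_iff (mem_ball_self (x i) (A + ℓ))).mp h.symm
    apply PV.mk_eq
    push_cast
    rwa [← add_assoc]
  deep i j h ℓ hℓ i'' := by
    change (PV.mk v (x i) (A + ((L - 1 : ℕ) : ℤ))).dir (x j) =
      (PV.mk v (x i) (A + ((L - 1 : ℕ) : ℤ))).dir (x i) at h
    have h1 := (PV.dir_eq_iff (mem_ball_self (x i) _)).mp h.symm
    have h2 : x j ∈ ball v (x i) (A + ℓ + 1) := by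
      refine ball_mono ?_ h1
      omega
    change (PV.mk v (x i'') (A + ℓ)).dir (x i) = (PV.mk v (x i'') (A + ℓ)).dir (x j)
    by_cases h3 : x i ∈ ball v (x i'') (A + ℓ)
    · rw [PV.dir_eq_iff h3]
      exact h2
    · have h4 : x j ∉ ball v (x i'') (A + ℓ) := fun h4 =>
        h3 (mem_ball_trans (mem_ball_symm (ball_mono (by omega) h2)) h4)
      rw [PV.dir_mk_of_notMem h3, PV.dir_mk_of_notMem h4]

/-- deep classes are close -/
lemma polyLevels_deep {v : DV K} {f : K[X]} (hd : 1 ≤ f.natDegree) {x : ℕ → K}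
    (hx : ∀ i, x (i + 1) = f.eval (x i)) {A : ℤ} (hA : ∀ i j, x i ∈ ball v (x j) A) {L : ℕ} (hL : 1 ≤ L)
    {i j : ℕ} (h : (polyTree v f hd x hx).dir ((polyLevels v f hd x hx A hA hL).vtx (L - 1) i) j =
      (polyTree v f hd x hx).dir ((polyLevels v f hd x hx A hA hL).vtx (L - 1) i) i) :
    x j ∈ ball v (x i) (A + L) := by
  change (PV.mk v (x i) (A + ((L - 1 : ℕ) : ℤ))).dir (x j) =
      (PV.mk v (x i) (A + ((L - 1 : ℕ) : ℤ))).dir (x i) at h
  have h1 := (PV.dir_eq_iff (mem_ball_self (x i) _)).mp h.symm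
  refine ball_mono ?_ h1
  omega

/-- order of the difference of two points in distinct directions -/
lemma PV.o_of_dir_ne {v : DV K} {a y z : K} {r : ℤ} (hy : y ∈ ball v a r) (hz : z ∈ ball v a r)
    (h : (PV.mk v a r).dir y ≠ (PV.mk v a r).dir z) : v.o (y - z) = r := by
  have h1 : z ∉ ball v y (r + 1) := fun h1 => h ((PV.dir_eq_iff hy).mpr h1)
  have h2 : z ∈ ball v y r := mem_ball_trans hz (mem_ball_symm hy)
  rw [mem_ball, not_or] at h1
  rw [mem_ball] at h2
  rcases h2 with h2 | h2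
  · exact absurd h2 h1.1
  · rw [v.o_sub_comm]; omega

lemma PV.o_of_notMem {v : DV K} {a y z z' : K} {r : ℤ} (hy : y ∉ ball v a r) (hz : z ∈ ball v a r)
    (hz' : z' ∈ ball v a r) : v.o (y - z) = v.o (y - z') := by
  by_cases hzz : z = z'
  · rw [hzz]
  have h1 : z ∈ ball v z' r := mem_ball_trans hz (mem_ball_symm hz')
  have h1' : r ≤ v.o (z - z') := by
    rcases mem_ball.mp h1 with h | h
    · exact absurd h hzz
    · exact h
  have h2 : y ∉ ball v z r := fun h => hy (mem_ball_trans h hz)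
  have h3 : y ∉ ball v z' r := fun h => hy (mem_ball_trans h hz')
  rw [mem_ball, not_or] at h2 h3
  have h4 := v.add (y - z) (z - z') (sub_ne_zero.mpr h2.1) (sub_ne_zero.mpr hzz) (by
    rw [sub_add_sub_cancel]; exact sub_ne_zero.mpr h3.1)
  rw [sub_add_sub_cancel] at h4
  have h5 := v.add (y - z') (z' - z) (sub_ne_zero.mpr h3.1) (sub_ne_zero.mpr (Ne.symm hzz)) (by
    rw [sub_add_sub_cancel]; exact sub_ne_zero.mpr h2.1)
  rw [sub_add_sub_cancel, v.o_sub_comm z' z] at h5
  omega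

/-- points in pairwise distinct directions form a star -/
lemma star_of_dirs {v : DV K} (ζ : PV v) (I : Finset K)
    (h : ∀ y ∈ I, ∀ z ∈ I, y ≠ z → ζ.dir y ≠ ζ.dir z) : Star v I := by
  obtain ⟨a, r, rfl⟩ := ζ.exists_rep
  intro p hp q hq c hc c' hc' h1 h2 h3 h4 h5 h6
  -- at most one point is outside the disc
  have hout : ∀ y ∈ I, ∀ z ∈ I, y ≠ z → y ∉ ball v a r → z ∈ ball v a r := by
    intro y hy z hz hyz hyo
    by_contra hzo
    apply h y hy z hz hyz
    rw [PV.dir_mk_of_notMem hyo, PV.dir_mk_of_notMem hzo]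
  have hin : ∀ y ∈ I, ∀ z ∈ I, y ≠ z → y ∈ ball v a r → z ∈ ball v a r → v.o (y - z) = r :=
    fun y hy z hz hyz hyi hzi => PV.o_of_dir_ne hyi hzi (h y hy z hz hyz)
  by_cases ep : p ∈ ball v a r
  swap
  · have eq := hout p hp q hq h1 ep
    have ec := hout p hp c hc h2 ep
    have ec' := hout p hp c' hc' h3 ep
    rw [PV.o_of_notMem ep eq ec, hin c hc c' hc' h6 ec ec', hin q hq c' hc' h5 eq ec']
  by_cases eq : q ∈ ball v a r
  swap
  · have ec := hout q hq c hc h4 eq
    have ec' := hout q hq c' hc' h5 eq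
    rw [v.o_sub_comm p q, PV.o_of_notMem eq ep ec', hin c hc c' hc' h6 ec ec', hin p hp c hc h2 ep ec]
    ring
  by_cases ec : c ∈ ball v a r
  swap
  · have ec' := hout c hc c' hc' h6 ec
    rw [v.o_sub_comm p c, PV.o_of_notMem ec ec' ep, hin p hp q hq h1 ep eq, hin q hq c' hc' h5 eq ec']
    ring
  by_cases ec' : c' ∈ ball v a r
  swap
  · rw [v.o_sub_comm c c', v.o_sub_comm q c', PV.o_of_notMem ec' ec eq, hin p hp q hq h1 ep eq,
      hin p hp c hc h2 ep ec]
  rw [hin p hp q hq h1 ep eq, hin c hc c' hc' h6 ec ec', hin p hp c hc h2 ep ec,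
    hin q hq c' hc' h5 eq ec']

end tree

end Pool.Agent.Helper33.UB
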