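import Pool.Agent.Helper33.UB.Height
import Pool.Agent.Helper33.UB.PolyTree
import Pool.Agent.Helper33.UB.LB
import Pool.Agent.Helper33.Eps
import Pool.Agent.Helper33.Conj

/-!
# The global instance attached to a long polynomial orbit
-/

set_option autoImplicit false

open Finset Polynomial

namespace Pool.Agent.Helper33.UB

/-- constants for polynomials of degree `d` -/
noncomputable def polyConst (d : ℕ) (hd : 2 ≤ d) : GConst where
  d := d
  hd := by omega
  C1 := 1
  hC1 := le_rfl
  c0 := 1 / ((d : ℝ) - 1)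
  hc0 := by
    have : (2 : ℝ) ≤ d := by exact_mod_cast hd
    exact one_div_pos.mpr (by linarith)
  hc01 := by
    have : (2 : ℝ) ≤ d := by exact_mod_cast hd
    rw [div_le_one (by linarith)]
    linarith
  N0 := d ^ 2
  δ0 := 1 / (d : ℝ) ^ 2
  hδ0 := by
    have : (2 : ℝ) ≤ d := by exact_mod_cast hd
    positivity
  c1 := 1 / ((d : ℝ) - 1)
  hc1 := by
    have : (2 : ℝ) ≤ d := by exact_mod_cast hd
    exact one_div_pos.mpr (by linarith)
  mOf r := r + 1
  nYOf r := (r + 1) * d ^ (r + 1) + 2 * r + 3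
  depth M := ⌈2 * M⌉₊ + 7
  hdepth M := by omega

section loc

variable {K : Type*} [Field K] {v : DV K} {f : K[X]}

/-- discreteness of `w` -/
lemma w_disc (hd : 2 ≤ f.natDegree) {x y : K} (h : 0 < w v f x y) :
    1 / ((f.natDegree : ℝ) - 1) ≤ w v f x y := by
  have hdr : (2 : ℝ) ≤ f.natDegree := by exact_mod_cast hd
  have hd1 : (0 : ℝ) < (f.natDegree : ℝ) - 1 := by linarith
  have hα := alpha_eq v f hd
  have h1 : ((f.natDegree : ℝ) - 1) * w v f x y =
      (((f.natDegree : ℤ) - 1) * v.o (x - y) + v.o f.leadingCoeff : ℤ) := by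
    unfold w
    push_cast
    rw [hα]
    ring
  rw [div_le_iff₀ hd1, mul_comm, h1]
  have h2 : (0 : ℝ) < ((((f.natDegree : ℤ) - 1) * v.o (x - y) + v.o f.leadingCoeff : ℤ) : ℝ) := by
    rw [← h1]
    positivity
  have h3 : (0 : ℤ) < ((f.natDegree : ℤ) - 1) * v.o (x - y) + v.o f.leadingCoeff := by exact_mod_cast h2
  exact_mod_cast (by omega : (1 : ℤ) ≤ ((f.natDegree : ℤ) - 1) * v.o (x - y) + v.o f.leadingCoeff)

/-- discreteness of `ε` -/
lemma att_disc (hd : 2 ≤ f.natDegree) {x : K} {c : ℝ} (hc : 0 < c) (h : Attained v f c x) :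
    1 / (f.natDegree : ℝ) ^ 2 ≤ c := by
  obtain ⟨i, hi1, hi2, _, he⟩ := h
  have hdr : (2 : ℝ) ≤ f.natDegree := by exact_mod_cast hd
  have hd1 : (0 : ℝ) < (f.natDegree : ℝ) - 1 := by linarith
  have hi3 : (i : ℝ) + 1 ≤ f.natDegree := by exact_mod_cast hi2
  have hi4 : (1 : ℝ) ≤ i := by exact_mod_cast hi1
  have hα := alpha_eq v f hd
  have h1 : ((f.natDegree : ℝ) - 1) * ((f.natDegree : ℝ) - i) * c =
      (((f.natDegree : ℤ) - 1) * (v.o f.leadingCoeff - v.o (tc f x i)) -
        ((f.natDegree : ℤ) - i) * v.o f.leadingCoeff : ℤ) := by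
    push_cast
    rw [he, hα]
    ring
  have h0 : (0 : ℝ) < ((f.natDegree : ℝ) - 1) * ((f.natDegree : ℝ) - i) * c := by
    have : (0 : ℝ) < (f.natDegree : ℝ) - i := by linarith
    positivity
  rw [h1] at h0
  have h2 : (0 : ℤ) < (((f.natDegree : ℤ) - 1) * (v.o f.leadingCoeff - v.o (tc f x i)) -
        ((f.natDegree : ℤ) - i) * v.o f.leadingCoeff : ℤ) := by exact_mod_cast h0
  have h3 : (1 : ℝ) ≤ ((f.natDegree : ℝ) - 1) * ((f.natDegree : ℝ) - i) * c := by
    rw [h1]
    exact_mod_cast h2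
  have h4 : ((f.natDegree : ℝ) - 1) * ((f.natDegree : ℝ) - i) ≤ (f.natDegree : ℝ) ^ 2 := by
    nlinarith
  have h5 : ((f.natDegree : ℝ) - 1) * ((f.natDegree : ℝ) - i) * c ≤ (f.natDegree : ℝ) ^ 2 * c :=
    mul_le_mul_of_nonneg_right h4 hc.le
  rw [div_le_iff₀ (by positivity)]
  linarith

/-- non expansion at a good place -/
lemma w_mono (hd : 2 ≤ f.natDegree) {x y : K} (h : EpsLe v f 0 y) (hw : 0 ≤ w v f x y)
    (hf : f.eval x ≠ f.eval y) : w v f x y ≤ w v f (f.eval x) (f.eval y) := by
  have hα := alpha_eq v f hd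
  have hexp : f.eval (y + (x - y)) - f.eval y =
      ∑ i ∈ Finset.Ico 1 (f.natDegree + 1), tc f y i * (x - y) ^ i := by
    rw [eval_add_tc, Finset.range_eq_Ico,
      Finset.sum_eq_sum_Ico_succ_bot (by omega), tc_zero]
    simp
  rw [add_sub_cancel] at hexp
  have hge : v.ge (w v f x y - alpha v f) (f.eval x - f.eval y) := by
    rw [hexp]
    apply DV.ge_sum
    intro i hi
    rw [Finset.mem_Ico] at hi
    have h1 : v.ge ((v.o f.leadingCoeff : ℝ) - ((f.natDegree : ℝ) - i) * (0 + alpha v f)) (tc f y i) := by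
      by_cases hid : i < f.natDegree
      · exact h.2 i hi.1 hid
      · have : i = f.natDegree := by omega
        subst this
        right
        rw [tc_natDegree]
        linarith
    refine DV.ge_mono (DV.ge_mul h1 (DV.ge_pow (DV.ge_self (v := v) (x - y)) i)) ?_
    have hi1 : (1 : ℝ) ≤ i := by exact_mod_cast hi.1
    unfold w at hw ⊢
    rw [hα]
    nlinarith
  have h2 := DV.ge_le hge (sub_ne_zero.mpr hf)
  unfold w at h2 ⊢
  linarith

end loc

/-- nonzero constants are units at all places -/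
lemma const_ord {k K V : Type*} [Field k] [IsAlgClosed k] [Field K] [Algebra k K] (P : PSys k K V)
    (v : V) (c : k) (hc : c ≠ 0) : (P.pl v).o (algebraMap k K c) = 0 := by
  set o := (P.pl v).o (algebraMap k K c) with ho
  obtain ⟨z, hz⟩ := IsAlgClosed.exists_pow_nat_eq c (n := o.natAbs + 1) (by omega)
  have hz0 : z ≠ 0 := by
    rintro rfl
    rw [zero_pow (by omega)] at hz
    exact hc hz.symm
  have h1 : o = ((o.natAbs + 1 : ℕ) : ℤ) * (P.pl v).o (algebraMap k K z) := by
    rw [← DV.o_pow _ _ ((_root_.map_ne_zero _).mpr hz0), ← map_pow, hz]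
  have h2 : ((o.natAbs + 1 : ℕ) : ℤ) ∣ o := Dvd.intro _ h1.symm
  exact Int.eq_zero_of_abs_lt_dvd h2 (by
    rw [Int.abs_eq_natAbs]
    push_cast
    omega)

section inst

variable {k K V : Type} [Field k] [Field K] [Algebra k K] [DecidableEq K] {P : PSys k K V}
  {f : K[X]} {x : ℕ → K} {N : ℕ}

lemma iterate_eval (h : Orbit f x N) (j m : ℕ) : x (j + m) = (f.comp^[m] X).eval (x j) := by
  rw [iterate_comp_eval, eval_X]
  induction m with
  | zero => rfl
  | succ m ih =>
    rw [Function.iterate_succ', Function.comp, ← ih, ← add_assoc, h.step]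

/-- the instance -/
noncomputable def polyInst (h : Orbit f x N) (hd : 2 ≤ f.natDegree) (M : ℝ) (T : Finset V)
    (hTe : ∀ v, v ∉ T → P.e v = 0) (hTl : ∀ v, v ∉ T → (P.pl v).o f.leadingCoeff = 0)
    (hTd : ∀ y ∈ h.X, ∀ z ∈ h.X, y ≠ z → ∀ v, v ∉ T → (P.pl v).o (y - z) = 0)
    (hker : ∀ y, P.D y = 0 → ∃ c : k, algebraMap k K c = y)
    (hconst : ∀ v, ∀ c : k, c ≠ 0 → (P.pl v).o (algebraMap k K c) = 0) :
    GInst P (polyConst f.natDegree hd) N M where
  x := x
  T := T
  inj := h.inj
  Te := hTe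
  Tx v hv i j hi hj hij := hTd _ (h.mem_X i) _ (h.mem_X j) (fun e => hij (h.inj i j hi hj e)) v hv
  ε v := (eps (P.pl v) f h.X : ℝ)
  ε_nonneg v _ := NNReal.coe_nonneg _
  disc v _ hv := by
    have hv' : 0 < eps (P.pl v) f h.X := by exact_mod_cast hv
    exact att_disc hd hv (attained_of_mem hd h.X_inv hv' (h.mem_X 0))
  β v _ := alpha (P.pl v) f / 2
  sumβ i _ := by
    rw [← sum_div]
    unfold alpha
    rw [← sum_div]
    have h0 : f.leadingCoeff ≠ 0 := by
      rw [Ne, leadingCoeff_eq_zero]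
      rintro rfl
      simp at hd
    have h1 := P.sum_eq_zero T _ h0 hTl
    have h2 : ∑ v ∈ T, ((P.pl v).o f.leadingCoeff : ℝ) = 0 := by exact_mod_cast h1
    rw [h2, zero_div, zero_div]
  lower v _ i j hi hj hij := by
    have := w_ge_neg_eps (v := P.pl v) hd h.X_inv (h.mem_X i) (h.mem_X j)
      (fun e => hij (h.inj i j hi hj e))
    unfold w at this
    change -(1 * _) ≤ _
    linarith
  lb v _ s hs hcard := by
    change f.natDegree ^ 2 < s.card at hcard
    have hinj : Set.InjOn x (s : Set ℕ) := fun i hi j hj e => h.inj i j (hs i hi) (hs j hj) e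
    have hsX : s.image x ⊆ h.X := by
      intro y hy
      obtain ⟨i, _, rfl⟩ := mem_image.mp hy
      exact h.mem_X i
    by_cases hε : 0 < eps (P.pl v) f h.X
    · obtain ⟨y, hy, z, hz, hyz, hw⟩ := lb (v := P.pl v) hd (c := (eps (P.pl v) f h.X : ℝ))
        (by exact_mod_cast hε) h.X_inv (fun y hy z hz hyz => w_ge_neg_eps hd h.X_inv hy hz hyz)
        (fun y hy => attained_of_mem hd h.X_inv hε hy) (s.image x) hsX (by
          rwa [card_image_of_injOn hinj])
      obtain ⟨i, hi, rfl⟩ := mem_image.mp hy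
      obtain ⟨j, hj, rfl⟩ := mem_image.mp hz
      refine ⟨i, hi, j, hj, fun e => hyz (by rw [e]), ?_⟩
      unfold w at hw
      change 1 / ((f.natDegree : ℝ) - 1) * _ ≤ _
      rw [one_div, inv_mul_eq_div]
      linarith
    · have h1 : 1 < s.card := lt_of_le_of_lt (Nat.one_le_pow _ _ (by omega)) hcard
      obtain ⟨i, hi, j, hj, hij⟩ := one_lt_card.mp h1
      refine ⟨i, hi, j, hj, hij, ?_⟩
      have h2 := w_ge_neg_eps (v := P.pl v) hd h.X_inv (h.mem_X i) (h.mem_X j)
        (fun e => hij (h.inj i j (hs i hi) (hs j hj) e))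
      have h3 : (eps (P.pl v) f h.X : ℝ) = 0 := by
        have : eps (P.pl v) f h.X = 0 := le_antisymm (not_lt.mp hε) bot_le
        rw [this]; rfl
      rw [h3] at h2 ⊢
      unfold w at h2
      rw [mul_zero]
      linarith
  Vx v := PV (P.pl v)
  Dr _ := Set K
  S v := polyTree (P.pl v) f (by omega) x h.step
  Lv v := polyLevels (P.pl v) f (by omega) x h.step
    ⌈-(eps (P.pl v) f h.X : ℝ) - alpha (P.pl v) f⌉ (by
      intro i j
      by_cases hij : x i = x j
      · exact Or.inl hij
      · right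
        rw [Int.ceil_le]
        have := w_ge_neg_eps (v := P.pl v) hd h.X_inv (h.mem_X i) (h.mem_X j) hij
        unfold w at this
        linarith) ((polyConst f.natDegree hd).hdepth M)
  star v _ ζ s hs hdir := by
    apply star_of_dirs ζ
    intro y hy z hz hyz
    obtain ⟨i, hi, rfl⟩ := mem_image.mp hy
    obtain ⟨j, hj, rfl⟩ := mem_image.mp hz
    exact hdir i hi j hj fun e => hyz (by rw [e])
  deep v _ hεM i j hi hj hij hdir := by
    have h1 := polyLevels_deep _ _ _ _ hdir
    rcases h1 with h1 | h1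
    · exact absurd (h.inj j i hj hi h1).symm hij
    · rw [(P.pl v).o_sub_comm] at h1
      have h2 : -(eps (P.pl v) f h.X : ℝ) - alpha (P.pl v) f ≤
        ⌈-(eps (P.pl v) f h.X : ℝ) - alpha (P.pl v) f⌉ := Int.le_ceil _
      have h3 : ((⌈-(eps (P.pl v) f h.X : ℝ) - alpha (P.pl v) f⌉ : ℤ) : ℝ) +
        (((polyConst f.natDegree hd).depth M : ℕ) : ℝ) ≤ (P.pl v).o (x i - x j) := by exact_mod_cast h1
      have h4 : ((polyConst f.natDegree hd).depth M : ℕ) = ⌈2 * M⌉₊ + 7 := rfl
      rw [h4] at h3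
      push_cast at h3
      have h5 : 2 * M ≤ ⌈2 * M⌉₊ := Nat.le_ceil _
      change 1 * M + 5 ≤ _
      linarith
  good v _ hε s hs hst := by
    by_contra hcon
    push Not at hcon
    apply hst
    have hw0 : ∀ i ∈ s, ∀ j ∈ s, i < j → w (P.pl v) f (x i) (x j) = 0 := by
      intro i hi j hj hij
      have h1 := w_ge_neg_eps (v := P.pl v) hd h.X_inv (h.mem_X i) (h.mem_X j)
        (fun e => hij.ne (h.inj i j (hs i hi) (hs j hj) e))
      rw [hε, neg_zero] at h1
      rcases h1.lt_or_eq with h2 | h2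
      · exfalso
        have h3 := w_disc hd h2
        have h4 := hcon i hi j hj hij
        unfold w at h3
        change _ < 1 / ((f.natDegree : ℝ) - 1) at h4
        linarith
      · exact h2.symm
    have hw0' : ∀ i ∈ s, ∀ j ∈ s, i ≠ j → ((P.pl v).o (x i - x j) : ℝ) = - alpha (P.pl v) f := by
      intro i hi j hj hij
      rcases lt_or_gt_of_ne hij with hlt | hlt
      · have := hw0 i hi j hj hlt
        unfold w at this
        linarith
      · have := hw0 j hj i hi hlt
        rw [w_comm] at this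
        unfold w at this
        linarith
    have hw1 : ∀ y ∈ s.image x, ∀ z ∈ s.image x, y ≠ z →
        ((P.pl v).o (y - z) : ℝ) = - alpha (P.pl v) f := by
      intro y hy z hz hyz
      obtain ⟨i, hi, rfl⟩ := mem_image.mp hy
      obtain ⟨j, hj, rfl⟩ := mem_image.mp hz
      exact hw0' i hi j hj fun e => hyz (by rw [e])
    intro p hp q hq c hc c' hc' h1 h2 h3 h4 h5 h6
    have : (((P.pl v).o (p - q) + (P.pl v).o (c - c') : ℤ) : ℝ) =
        ((P.pl v).o (p - c) + (P.pl v).o (q - c') : ℤ) := by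
      push_cast
      rw [hw1 p hp q hq h1, hw1 c hc c' hc' h6, hw1 p hp c hc h2, hw1 q hq c' hc' h5]
    exact_mod_cast this
  persist v _ hε i j hij hj hc := by
    have h1 : 0 < 1 / ((f.natDegree : ℝ) - 1) := (polyConst f.natDegree hd).hc1
    change 1 / ((f.natDegree : ℝ) - 1) ≤ _ at hc ⊢
    have hle : EpsLe (P.pl v) f 0 (x j) := by
      have := epsLe_eps (P.pl v) f (h.mem_X j)
      rwa [hε] at this
    have h2 : 0 ≤ w (P.pl v) f (x i) (x j) := by unfold w; linarith
    have h3 := w_mono hd hle h2 (by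
      rw [← h.step, ← h.step]
      intro e
      have := h.inj (i + 1) (j + 1) (by omega) (by omega) e
      omega)
    rw [← h.step, ← h.step] at h3
    unfold w at h3
    linarith
  trans v _ hε i j l hij hjl hl h1 h2 := by
    change 1 / ((f.natDegree : ℝ) - 1) ≤ _ at h1 h2 ⊢
    have h3 := w_ultra (v := P.pl v) (f := f) (x := x i) (y := x j) (z := x l)
      (c := 1 / ((f.natDegree : ℝ) - 1)) (Or.inr (by unfold w; linarith))
      (Or.inr (by unfold w; linarith))
    rcases h3 with h3 | h3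
    · have := h.inj i l (by omega) hl h3
      omega
    · unfold w at h3
      linarith
  ode r Λ hΛ hΛN h1 h2 := by
    change (r + 1) * f.natDegree ^ (r + 1) + 2 * r + 3 ≤ Λ.card at hΛ
    change ∀ j ∈ Λ, j + (r + 1) ≤ N at hΛN
    change Rel P.D r (Λ.image fun j => x (j + (r + 1))) at h2
    change ∃ Λ' ⊆ Λ, Λ.card ≤ Λ'.card + r ∧
      ∀ v ∈ T, Star (P.pl v) (Λ'.image fun j => x (j + (r + 1)))
    set F : K[X] := f.comp^[r + 1] X with hF
    have hFd : F.natDegree = f.natDegree ^ (r + 1) := by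
      rw [hF, natDegree_iterate_comp, natDegree_X, mul_one]
    have hxF : ∀ j, x (j + (r + 1)) = F.eval (x j) := fun j => iterate_eval h j (r + 1)
    obtain ⟨A', C', h0', hA', _, hC', hrel'⟩ := h1
    obtain ⟨A, Cp, h0, hA, hAr, hC, hrel⟩ := h2
    have hinj1 : Set.InjOn x (Λ : Set ℕ) := fun i hi j hj e =>
      h.inj i j (by have := hΛN i hi; omega) (by have := hΛN j hj; omega) e
    have hinj2 : Set.InjOn (fun j => x (j + (r + 1))) (Λ : Set ℕ) := fun i hi j hj e => by
      have := h.inj (i + (r + 1)) (j + (r + 1)) (hΛN i hi) (hΛN j hj) e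
      omega
    have himg : (Λ.image x).image (fun y => F.eval y) = Λ.image fun j => x (j + (r + 1)) := by
      rw [image_image]
      apply image_congr
      intro j _
      exact (hxF j).symm
    have hc1 : (Λ.image x).card = Λ.card := card_image_of_injOn hinj1
    have hc2 : (Λ.image fun j => x (j + (r + 1))).card = Λ.card := card_image_of_injOn hinj2
    obtain ⟨α, β, hαβ⟩ := affine_of_ode P.D_add P.D_mul F r (by
        rw [hFd]
        calc r < 2 ^ r := Nat.lt_two_pow_self
          _ ≤ 2 ^ (r + 1) := Nat.pow_le_pow_right (by norm_num) (by omega)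
          _ ≤ f.natDegree ^ (r + 1) := Nat.pow_le_pow_left hd _) (Λ.image x) (by
        rw [hFd, hc1]; omega) (by
        rw [himg, hc2]
        omega) h0 hA hAr hC (by
        intro y hy
        obtain ⟨j, hj, rfl⟩ := mem_image.mp hy
        rw [← hxF]
        exact hrel _ (mem_image_of_mem _ hj)) h0' hA' hC' hrel'
    rw [himg] at hαβ
    refine ⟨Λ.filter fun j => P.D (x (j + (r + 1))) = α * x (j + (r + 1)) + β, filter_subset _ _, ?_, ?_⟩
    · have h3 := card_filter_add_card_filter_not (s := Λ)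
        (fun j => P.D (x (j + (r + 1))) = α * x (j + (r + 1)) + β)
      have h4 : (Λ.filter fun j => ¬ (P.D (x (j + (r + 1))) = α * x (j + (r + 1)) + β)).card ≤ r := by
        refine le_trans ?_ hαβ
        apply card_le_card_of_injOn (fun j => x (j + (r + 1)))
        · intro j hj
          have hj' := mem_filter.mp hj
          exact mem_coe.mpr (mem_filter.mpr ⟨mem_image_of_mem _ hj'.1, hj'.2⟩)
        · intro i hi j hj e
          exact hinj2 (mem_filter.mp hi).1 (mem_filter.mp hj).1 e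
      omega
    · intro v _
      have hD : ∀ y ∈ ((Λ.filter fun j => P.D (x (j + (r + 1))) = α * x (j + (r + 1)) + β).image
          fun j => x (j + (r + 1))), P.D y = α * y + β := by
        intro y hy
        obtain ⟨j, hj, rfl⟩ := mem_image.mp hy
        exact (mem_filter.mp hj).2
      have key : ∀ y z y' z', P.D y = α * y + β → P.D z = α * z + β → P.D y' = α * y' + β →
          P.D z' = α * z' + β → y ≠ z → y' ≠ z' → (P.pl v).o (y - z) = (P.pl v).o (y' - z') := by
        intro y z y' z' e1 e2 e3 e4 hyz hyz'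
        have n1 : y - z ≠ 0 := sub_ne_zero.mpr hyz
        have n2 : y' - z' ≠ 0 := sub_ne_zero.mpr hyz'
        obtain ⟨c, hc⟩ := hker ((y - z) / (y' - z')) (by
          rw [P.D_div _ _ n2, P.D_sub, P.D_sub, e1, e2, e3, e4]
          rw [div_eq_zero_iff]
          left
          ring)
        have hc0 : c ≠ 0 := by
          rintro rfl
          rw [map_zero] at hc
          exact div_ne_zero n1 n2 hc.symm
        have h5 := hconst v c hc0
        rw [hc, DV.o_div _ _ _ n1 n2] at h5
        omega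
      intro p hp q hq c hc c' hc' n1 n2 n3 n4 n5 n6
      rw [key p q p c (hD p hp) (hD q hq) (hD p hp) (hD c hc) n1 n2,
        key c c' q c' (hD c hc) (hD c' hc') (hD q hq) (hD c' hc') n6 n5]

end inst

end Pool.Agent.Helper33.UB
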