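import Pool.Agent.Helper33.UB.Height
import Pool.Agent.Helper33.UB.PolyInst
import Pool.Agent.Helper55.RD.RatLB
import Pool.Agent.Helper93.RatODE
import Pool.Agent.Helper45.RatUBP

/-!
# The global instance attached to a long orbit of a rational map
-/

set_option autoImplicit false

open Finset Polynomial

namespace Pool.Agent.Helper33.UB

open Pool.Agent.Helper51.RatTree Pool.Agent.Helper55.RD Pool.Agent.Helper93.RatODE
  Pool.Agent.Helper45.FR

/-- constants for rational maps of degree `d` -/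
noncomputable def ratConst (d : ℕ) (hd : 2 ≤ d) : GConst where
  d := d
  hd := by omega
  C1 := 2
  hC1 := by norm_num
  c0 := min (c₀ d) 1
  hc0 := lt_min (c₀_pos hd) one_pos
  hc01 := min_le_right _ _
  N0 := N₀ d
  δ0 := 1
  hδ0 := one_pos
  c1 := 1
  hc1 := one_pos
  mOf r := r + 1
  nYOf r := (r + 1) * d ^ (r + 1) + 2 * r + 3
  depth M := ⌈4 * M⌉₊ + 6
  hdepth M := by omega

section height

variable {K : Type*} [Field K] {d : ℕ} {F G : K[X]}

/-- the rational map -/
noncomputable def rmap (F G : K[X]) (y : K) : K := F.eval y / G.eval y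

/-- the local height of an orbit point -/
noncomputable def ratH (v : DV K) (d : ℕ) (F G : K[X]) (y : K) : ℝ :=
  ∑' n : ℕ, (v.o (G.eval ((rmap F G)^[n] y)) : ℝ) / (d : ℝ) ^ (n + 1)

lemma iterate_mem {X : Finset K} (hX : ∀ y ∈ X, rmap F G y ∈ X) {y : K} (hy : y ∈ X) (n : ℕ) :
    (rmap F G)^[n] y ∈ X := by
  induction n with
  | zero => exact hy
  | succ n ih =>
    rw [Function.iterate_succ', Function.comp]
    exact hX _ ih

lemma ratH_summable (v : DV K) (hd : 2 ≤ d) {X : Finset K} (hX : ∀ y ∈ X, rmap F G y ∈ X) {y : K}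
    (hy : y ∈ X) :
    Summable fun n : ℕ => (v.o (G.eval ((rmap F G)^[n] y)) : ℝ) / (d : ℝ) ^ (n + 1) := by
  have hdr : (2 : ℝ) ≤ d := by exact_mod_cast hd
  set B : ℝ := ∑ z ∈ X, |(v.o (G.eval z) : ℝ)| with hB
  have hgeo : Summable fun n : ℕ => B * ((1 / (d : ℝ)) ^ n) := by
    apply Summable.mul_left
    apply summable_geometric_of_lt_one (by positivity)
    rw [div_lt_one (by linarith)]
    linarith
  refine Summable.of_norm_bounded hgeo ?_
  intro n
  rw [Real.norm_eq_abs, abs_div, abs_of_pos (by positivity : (0 : ℝ) < (d : ℝ) ^ (n + 1))]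
  have h1 : |(v.o (G.eval ((rmap F G)^[n] y)) : ℝ)| ≤ B :=
    single_le_sum (f := fun z => |(v.o (G.eval z) : ℝ)|) (fun _ _ => abs_nonneg _) (iterate_mem hX hy n)
  have hB0 : 0 ≤ B := (abs_nonneg _).trans h1
  rw [one_div, inv_pow, ← div_eq_mul_inv]
  calc _ ≤ B / (d : ℝ) ^ (n + 1) := by gcongr
    _ ≤ B / (d : ℝ) ^ n := by
      apply div_le_div_of_nonneg_left hB0 (by positivity)
      apply pow_le_pow_right₀ (by linarith) (by omega)

lemma ratH_rec (v : DV K) (hd : 2 ≤ d) {X : Finset K} (hX : ∀ y ∈ X, rmap F G y ∈ X) {y : K}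
    (hy : y ∈ X) : ratH v d F G (F.eval y / G.eval y) + v.o (G.eval y) = d * ratH v d F G y := by
  have hdr : (2 : ℝ) ≤ d := by exact_mod_cast hd
  have h1 := (ratH_summable v hd hX hy).tsum_eq_zero_add
  have h2 : ∀ n : ℕ, (v.o (G.eval ((rmap F G)^[n + 1] y)) : ℝ) / (d : ℝ) ^ (n + 1 + 1) =
      (1 / (d : ℝ)) * ((v.o (G.eval ((rmap F G)^[n] (rmap F G y))) : ℝ) / (d : ℝ) ^ (n + 1)) := by
    intro n
    rw [Function.iterate_succ, Function.comp]
    field_simp
    ring
  unfold ratH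
  rw [h1, tsum_congr h2, tsum_mul_left]
  have h3 : (rmap F G)^[0] y = y := rfl
  rw [h3]
  change (∑' n : ℕ, (v.o (G.eval ((rmap F G)^[n] (rmap F G y))) : ℝ) / (d : ℝ) ^ (n + 1)) + _ = _
  field_simp
  ring

lemma sum_ratH {k V : Type*} [Field k] [Algebra k K] (P : PSys k K V) (hd : 2 ≤ d) {X : Finset K}
    (hX : ∀ y ∈ X, rmap F G y ∈ X) (hG : ∀ y ∈ X, G.eval y ≠ 0) (T : Finset V)
    (hT : ∀ v, v ∉ T → ∀ y ∈ X, (P.pl v).o (G.eval y) = 0) {y : K}
    (hy : y ∈ X) : ∑ v ∈ T, ratH (P.pl v) d F G y = 0 := by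
  unfold ratH
  rw [← Summable.tsum_finsetSum fun v _ => ratH_summable (P.pl v) hd hX hy]
  have : ∀ n : ℕ, ∑ v ∈ T, ((P.pl v).o (G.eval ((rmap F G)^[n] y)) : ℝ) / (d : ℝ) ^ (n + 1) = 0 := by
    intro n
    rw [← sum_div]
    have h1 := P.sum_eq_zero T (G.eval ((rmap F G)^[n] y)) (hG _ (iterate_mem hX hy n))
      (fun v hv => hT v hv _ (iterate_mem hX hy n))
    have h2 : ∑ v ∈ T, ((P.pl v).o (G.eval ((rmap F G)^[n] y)) : ℝ) = 0 := by exact_mod_cast h1
    rw [h2, zero_div]
  rw [tsum_congr this, tsum_zero]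

end height

section basic

variable {K : Type*} [Field K] {d : ℕ} {F G : K[X]}

lemma hmax_of_top (hF : F.natDegree ≤ d) (hG : G.natDegree ≤ d) (htop : F.coeff d ≠ 0 ∨ G.coeff d ≠ 0) :
    F.natDegree = d ∨ G.natDegree = d := by
  rcases htop with h | h
  · exact Or.inl (le_antisymm hF (le_natDegree_of_ne_zero h))
  · exact Or.inr (le_antisymm hG (le_natDegree_of_ne_zero h))

lemma sub_ne_zero_of_coprime (hd : 2 ≤ d) (hcop : IsCoprime F G) (hF : F.natDegree ≤ d)
    (hG : G.natDegree ≤ d) (htop : F.coeff d ≠ 0 ∨ G.coeff d ≠ 0) (b : K) : F - C b * G ≠ 0 := by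
  intro h
  have h1 : F = C b * G := sub_eq_zero.mp h
  have h2 : IsUnit G := by
    rw [h1] at hcop
    exact isCoprime_self.mp ((IsCoprime.mul_left_iff.mp hcop).2)
  obtain ⟨g, hg, hgG⟩ := Polynomial.isUnit_iff.mp h2
  rcases htop with h3 | h3
  · rw [h1, ← hgG, ← C_mul, coeff_C, if_neg (by omega)] at h3
    exact h3 rfl
  · rw [← hgG, coeff_C, if_neg (by omega)] at h3
    exact h3 rfl

end basic

section orb

variable {K : Type*} [Field K] {F G : K[X]} {x : ℕ → K} {N : ℕ}

/-- the finite invariant set -/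
noncomputable def rX (h : RatOrbit F G x N) : Finset K := h.fin.toFinset

lemma mem_rX (h : RatOrbit F G x N) (i : ℕ) : x i ∈ rX h := by
  unfold rX
  rw [Set.Finite.mem_toFinset]
  exact ⟨i, rfl⟩

lemma rX_spec (h : RatOrbit F G x N) : ∀ y ∈ rX h, G.eval y ≠ 0 ∧ F.eval y / G.eval y ∈ rX h := by
  intro y hy
  unfold rX at hy
  rw [Set.Finite.mem_toFinset] at hy
  obtain ⟨i, rfl⟩ := hy
  refine ⟨h.ne i, ?_⟩
  rw [← h.step i]
  exact mem_rX h (i + 1)

end orb

section inst

variable {k K V : Type} [Field k] [Field K] [Algebra k K] {P : PSys k K V}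
  {F G : K[X]} {x : ℕ → K} {N d : ℕ}

/-- admissible sets of places -/
structure RAdm (P : PSys k K V) (F G : K[X]) (d : ℕ) (X : Finset K) (T : Finset V) : Prop where
  e : ∀ v, v ∉ T → P.e v = 0
  res : ∀ v, v ∉ T → (P.pl v).o (resultant F G d d) = 0
  G0 : ∀ v, v ∉ T → ∀ y ∈ X, (P.pl v).o (G.eval y) = 0
  diff : ∀ v, v ∉ T → ∀ y ∈ X, ∀ z ∈ X, y ≠ z → (P.pl v).o (y - z) = 0

lemma exists_radm (P : PSys k K V) {F G : K[X]} {d : ℕ} (hres : resultant F G d d ≠ 0) (X : Finset K)
    (hG : ∀ y ∈ X, G.eval y ≠ 0) : ∃ T : Finset V, RAdm P F G d X T := by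
  classical
  obtain ⟨T, hT1, hT2⟩ := P.exists_finset
    (insert (resultant F G d d) ((X.image fun y => G.eval y) ∪ X.offDiag.image fun q => q.1 - q.2)) (by
      intro x hx
      rcases mem_insert.mp hx with rfl | hx
      · exact hres
      rcases mem_union.mp hx with hx | hx
      · obtain ⟨y, hy, rfl⟩ := mem_image.mp hx
        exact hG y hy
      · obtain ⟨q, hq, rfl⟩ := mem_image.mp hx
        rw [mem_offDiag] at hq
        exact sub_ne_zero.mpr hq.2.2)
  refine ⟨T, hT1, fun v hv => hT2 _ (mem_insert_self _ _) v hv, fun v hv y hy => ?_, ?_⟩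
  · exact hT2 _ (mem_insert_of_mem (mem_union_left _ (mem_image_of_mem _ hy))) v hv
  · intro v hv y hy z hz hyz
    exact hT2 _ (mem_insert_of_mem (mem_union_right _ (mem_image.mpr
      ⟨(y, z), mem_offDiag.mpr ⟨hy, hz, hyz⟩, rfl⟩))) v hv

/-- local data -/
structure RLoc (v : DV K) (F G : K[X]) (d : ℕ) (X : Finset K) (H : K → ℝ) where
  ε : ℕ
  a : K
  r : ℤ
  close : ∀ x ∈ X, ∀ y ∈ X, x ≠ y → |gg v d F G H x y - gp v a r x y| ≤ 2 * ε
  lb : ∀ s ⊆ X, N₀ d ≤ s.card → ∃ x ∈ s, ∃ y ∈ s, x ≠ y ∧ c₀ d * ε ≤ gg v d F G H x y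
  good : ε = 0 → ∀ x ∈ X, ∀ y ∈ X, F.eval x / G.eval x ≠ F.eval y / G.eval y →
        gp v a r x y ≤ gp v a r (F.eval x / G.eval x) (F.eval y / G.eval y)

lemma exists_rloc (hd : 2 ≤ d) (v : DV K) (hF : F.natDegree ≤ d)
    (hG : G.natDegree ≤ d) (hres : resultant F G d d ≠ 0) (h : RatOrbit F G x N) :
    Nonempty (RLoc v F G d (rX h) (ratH v d F G)) := by
  obtain ⟨ε, a, r, h1, h2, h3, -⟩ := ratLB hd v hF hG hres (rX h) (rX_spec h) (ratH v d F G)
    (fun y hy => ratH_rec v hd (fun z hz => (rX_spec h z hz).2) hy)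
  exact ⟨⟨ε, a, r, h1, h2, h3⟩⟩

/-- chosen local data -/
noncomputable def rloc (hd : 2 ≤ d) (v : DV K) (hF : F.natDegree ≤ d)
    (hG : G.natDegree ≤ d) (hres : resultant F G d d ≠ 0) (h : RatOrbit F G x N) :
    RLoc v F G d (rX h) (ratH v d F G) := (exists_rloc hd v hF hG hres h).some

lemma gp_nonneg' {v : DV K} {a : K} {r : ℤ} {y z : K} (h : y ≠ z) : 0 ≤ gp v a r y z := by
  have := gp_nonneg (v := v) (a := a) (r := r) h
  unfold gp
  omega

lemma gp_of_GP {v : DV K} {a : K} {r n : ℤ} {y z : K} (h : y ≠ z) (h1 : GP v a r n y z) :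
    n ≤ gp v a r y z := by
  rcases h1 with h1 | h1
  · exact absurd h1 h
  · unfold gp
    omega

lemma gp_trans {v : DV K} {a : K} {r : ℤ} {y z w : K} (hyz : y ≠ z) (hzw : z ≠ w) (hyw : y ≠ w)
    (h1 : 1 ≤ gp v a r y z) (h2 : 1 ≤ gp v a r z w) : 1 ≤ gp v a r y w := by
  have e1 : (PV.mk v a r).dir y = (PV.mk v a r).dir z := by
    rw [dir_eq_iff_gp hyz]; unfold gp at h1; omega
  have e2 : (PV.mk v a r).dir z = (PV.mk v a r).dir w := by
    rw [dir_eq_iff_gp hzw]; unfold gp at h2; omega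
  have e3 := (dir_eq_iff_gp hyw).mp (e1.trans e2)
  unfold gp
  omega

variable [DecidableEq K]

/-- the instance -/
noncomputable def ratInst (h : RatOrbit F G x N) (hd : 2 ≤ d) (hcop : IsCoprime F G)
    (hF : F.natDegree ≤ d) (hG : G.natDegree ≤ d) (htop : F.coeff d ≠ 0 ∨ G.coeff d ≠ 0)
    (hres : resultant F G d d ≠ 0) (M : ℝ) (T : Finset V) (hT : RAdm P F G d (rX h) T)
    (hker : ∀ y, P.D y = 0 → ∃ c : k, algebraMap k K c = y)
    (hconst : ∀ v, ∀ c : k, c ≠ 0 → (P.pl v).o (algebraMap k K c) = 0) :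
    GInst P (ratConst d hd) N M where
  x := x
  T := T
  inj := h.inj
  Te := hT.e
  Tx v hv i j hi hj hij := hT.diff v hv _ (mem_rX h i) _ (mem_rX h j) (fun e => hij (h.inj i j hi hj e))
  ε v := ((rloc hd (P.pl v) hF hG hres h).ε : ℝ)
  ε_nonneg v _ := Nat.cast_nonneg _
  disc v _ hv := by
    have hv' : 0 < (rloc hd (P.pl v) hF hG hres h).ε := by exact_mod_cast hv
    change (1 : ℝ) ≤ _
    exact_mod_cast hv'
  β v i := -ratH (P.pl v) d F G (x i) + (P.pl v).o (resultant F G d d) / (d * (d - 1)) / 2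
  sumβ i _ := by
    rw [sum_add_distrib, ← sum_div, ← sum_div, sum_neg_distrib,
      sum_ratH P hd (fun z hz => (rX_spec h z hz).2) (fun z hz => (rX_spec h z hz).1) T
        (fun v hv y hy => hT.G0 v hv y hy) (mem_rX h i)]
    have h1 := P.sum_eq_zero T _ hres hT.res
    have h2 : ∑ v ∈ T, ((P.pl v).o (resultant F G d d) : ℝ) = 0 := by exact_mod_cast h1
    rw [h2]
    simp
  lower v _ i j hi hj hij := by
    have hne : x i ≠ x j := fun e => hij (h.inj i j hi hj e)
    have h1 := (abs_le.mp ((rloc hd (P.pl v) hF hG hres h).close _ (mem_rX h i) _ (mem_rX h j) hne)).1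
    have h2 : (0 : ℝ) ≤ gp (P.pl v) (rloc hd (P.pl v) hF hG hres h).a
      (rloc hd (P.pl v) hF hG hres h).r (x i) (x j) := by exact_mod_cast gp_nonneg' hne
    unfold gg at h1
    change -(2 * _) ≤ _
    linarith
  lb v _ s hs hcard := by
    change N₀ d < s.card at hcard
    have hinj : Set.InjOn x (s : Set ℕ) := fun i hi j hj e => h.inj i j (hs i hi) (hs j hj) e
    have hsX : s.image x ⊆ rX h := by
      intro y hy
      obtain ⟨i, _, rfl⟩ := mem_image.mp hy
      exact mem_rX h i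
    obtain ⟨y, hy, z, hz, hyz, hw⟩ := (rloc hd (P.pl v) hF hG hres h).lb (s.image x) hsX (by
      rw [card_image_of_injOn hinj]; exact hcard.le)
    obtain ⟨i, hi, rfl⟩ := mem_image.mp hy
    obtain ⟨j, hj, rfl⟩ := mem_image.mp hz
    refine ⟨i, hi, j, hj, fun e => hyz (by rw [e]), ?_⟩
    unfold gg at hw
    have h1 : min (c₀ d) 1 * ((rloc hd (P.pl v) hF hG hres h).ε : ℝ) ≤
      c₀ d * (rloc hd (P.pl v) hF hG hres h).ε :=
      mul_le_mul_of_nonneg_right (min_le_left _ _) (Nat.cast_nonneg _)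
    change min (c₀ d) 1 * _ ≤ _
    linarith
  Vx v := PV (P.pl v)
  Dr _ := Set K
  S v := ratTree (P.pl v) (fun e => h.ne 0 (by rw [e, eval_zero]))
    (sub_ne_zero_of_coprime hd hcop hF hG htop) hF hG x h.ne h.step
  Lv v := ratLevels (P.pl v) (fun e => h.ne 0 (by rw [e, eval_zero]))
    (sub_ne_zero_of_coprime hd hcop hF hG htop) hF hG x h.ne h.step
    (rloc hd (P.pl v) hF hG hres h).a (rloc hd (P.pl v) hF hG hres h).r
    ((ratConst d hd).hdepth M)
  star v _ ζ s hs hdir := by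
    apply star_of_dirs ζ
    intro y hy z hz hyz
    obtain ⟨i, hi, rfl⟩ := mem_image.mp hy
    obtain ⟨j, hj, rfl⟩ := mem_image.mp hz
    exact hdir i hi j hj fun e => hyz (by rw [e])
  deep v _ hεM i j hi hj hij hdir := by
    have hne : x i ≠ x j := fun e => hij (h.inj i j hi hj e)
    have h1 := gp_of_GP hne (ratLevels_deep _ _ _ _ _ _ _ _ _ hdir)
    have h2 := (abs_le.mp ((rloc hd (P.pl v) hF hG hres h).close _ (mem_rX h i) _ (mem_rX h j) hne)).1
    have h3 : (((ratConst d hd).depth M : ℕ) : ℝ) ≤ gp (P.pl v) (rloc hd (P.pl v) hF hG hres h).a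
      (rloc hd (P.pl v) hF hG hres h).r (x i) (x j) := by exact_mod_cast h1
    have h4 : ((ratConst d hd).depth M : ℕ) = ⌈4 * M⌉₊ + 6 := rfl
    rw [h4] at h3
    push_cast at h3
    have h5 : 4 * M ≤ ⌈4 * M⌉₊ := Nat.le_ceil _
    unfold gg at h2
    change 2 * M + 5 ≤ _
    linarith
  good v _ hε s hs hst := by
    by_contra hcon
    push Not at hcon
    apply hst
    have hε0 : (rloc hd (P.pl v) hF hG hres h).ε = 0 := by exact_mod_cast hε
    apply star_of_dirs (PV.mk (P.pl v) (rloc hd (P.pl v) hF hG hres h).a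
      (rloc hd (P.pl v) hF hG hres h).r)
    intro y hy z hz hyz hdir
    obtain ⟨i, hi, rfl⟩ := mem_image.mp hy
    obtain ⟨j, hj, rfl⟩ := mem_image.mp hz
    have key : ∀ i ∈ s, ∀ j ∈ s, i < j → x i ≠ x j →
        ¬ 1 ≤ gp (P.pl v) (rloc hd (P.pl v) hF hG hres h).a
      (rloc hd (P.pl v) hF hG hres h).r (x i) (x j) := by
      intro i hi j hj hij hne h1
      have h2 := hcon i hi j hj hij
      have h3 := (abs_le.mp ((rloc hd (P.pl v) hF hG hres h).close _ (mem_rX h i) _ (mem_rX h j) hne)).1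
      have h4 : (1 : ℝ) ≤ gp (P.pl v) (rloc hd (P.pl v) hF hG hres h).a
        (rloc hd (P.pl v) hF hG hres h).r (x i) (x j) := by exact_mod_cast h1
      rw [hε0] at h3
      unfold gg at h3
      change _ < (1 : ℝ) at h2
      push_cast at h3
      linarith
    have hgp := (dir_eq_iff_gp hyz).mp hdir
    have hij : i ≠ j := fun e => hyz (by rw [e])
    rcases lt_or_gt_of_ne hij with hlt | hlt
    · exact key i hi j hj hlt hyz (by unfold gp; omega)
    · refine key j hj i hi hlt hyz.symm ?_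
      unfold gp
      rw [(P.pl v).o_sub_comm]
      omega
  persist v _ hε i j hij hj hc := by
    have hε0 : (rloc hd (P.pl v) hF hG hres h).ε = 0 := by exact_mod_cast hε
    have hne : x i ≠ x j := fun e => by
      have := h.inj i j (by omega) (by omega) e; omega
    have hne' : x (i + 1) ≠ x (j + 1) := fun e => by
      have := h.inj (i + 1) (j + 1) (by omega) (by omega) e; omega
    have h1 := (abs_le.mp ((rloc hd (P.pl v) hF hG hres h).close _ (mem_rX h i) _ (mem_rX h j) hne)).2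
    have h2 := (abs_le.mp ((rloc hd (P.pl v) hF hG hres h).close _ (mem_rX h (i + 1)) _
      (mem_rX h (j + 1)) hne')).1
    have h3 := (rloc hd (P.pl v) hF hG hres h).good hε0 _ (mem_rX h i) _ (mem_rX h j) (by
      rw [← h.step, ← h.step]; exact hne')
    rw [← h.step, ← h.step] at h3
    have h4 : (gp (P.pl v) (rloc hd (P.pl v) hF hG hres h).a
      (rloc hd (P.pl v) hF hG hres h).r (x i) (x j) : ℝ) ≤ gp (P.pl v)
      (rloc hd (P.pl v) hF hG hres h).a
      (rloc hd (P.pl v) hF hG hres h).r (x (i + 1)) (x (j + 1)) := by exact_mod_cast h3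
    rw [hε0] at h1 h2
    unfold gg at h1 h2
    push_cast at h1 h2
    change (1 : ℝ) ≤ _ at hc ⊢
    linarith
  trans v _ hε i j l hij hjl hl hc1 hc2 := by
    have hε0 : (rloc hd (P.pl v) hF hG hres h).ε = 0 := by exact_mod_cast hε
    have hne1 : x i ≠ x j := fun e => by
      have := h.inj i j (by omega) (by omega) e; omega
    have hne2 : x j ≠ x l := fun e => by
      have := h.inj j l (by omega) (by omega) e; omega
    have hne3 : x i ≠ x l := fun e => by
      have := h.inj i l (by omega) (by omega) e; omega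
    have h1 := (abs_le.mp ((rloc hd (P.pl v) hF hG hres h).close _ (mem_rX h i) _ (mem_rX h j) hne1)).2
    have h2 := (abs_le.mp ((rloc hd (P.pl v) hF hG hres h).close _ (mem_rX h j) _ (mem_rX h l) hne2)).2
    have h3 := (abs_le.mp ((rloc hd (P.pl v) hF hG hres h).close _ (mem_rX h i) _ (mem_rX h l) hne3)).1
    rw [hε0] at h1 h2 h3
    unfold gg at h1 h2 h3
    push_cast at h1 h2 h3
    change (1 : ℝ) ≤ _ at hc1 hc2 ⊢
    have e1 : 1 ≤ gp (P.pl v) (rloc hd (P.pl v) hF hG hres h).a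
      (rloc hd (P.pl v) hF hG hres h).r (x i) (x j) := by
      have : (1 : ℝ) ≤ gp (P.pl v) (rloc hd (P.pl v) hF hG hres h).a
        (rloc hd (P.pl v) hF hG hres h).r (x i) (x j) := by linarith
      exact_mod_cast this
    have e2 : 1 ≤ gp (P.pl v) (rloc hd (P.pl v) hF hG hres h).a
      (rloc hd (P.pl v) hF hG hres h).r (x j) (x l) := by
      have : (1 : ℝ) ≤ gp (P.pl v) (rloc hd (P.pl v) hF hG hres h).a
        (rloc hd (P.pl v) hF hG hres h).r (x j) (x l) := by linarith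
      exact_mod_cast this
    have e3 := gp_trans hne1 hne2 hne3 e1 e2
    have e4 : (1 : ℝ) ≤ gp (P.pl v) (rloc hd (P.pl v) hF hG hres h).a
        (rloc hd (P.pl v) hF hG hres h).r (x i) (x l) := by exact_mod_cast e3
    linarith
  ode r Λ hΛ hΛN h1 h2 := by
    change (r + 1) * d ^ (r + 1) + 2 * r + 3 ≤ Λ.card at hΛ
    change ∀ j ∈ Λ, j + (r + 1) ≤ N at hΛN
    change Rel P.D r (Λ.image fun j => x (j + (r + 1))) at h2
    change ∃ Λ' ⊆ Λ, Λ.card ≤ Λ'.card + r ∧
      ∀ v ∈ T, Star (P.pl v) (Λ'.image fun j => x (j + (r + 1)))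
    obtain ⟨U, W, hUW, hU, hW, hUWtop, hit, -⟩ := exists_iterate hcop hF hG (by
      rcases hmax_of_top hF hG htop with h3 | h3 <;> omega) (by omega : 1 ≤ d) (r + 1)
    have hit' := hit x (fun i => ⟨h.ne i, h.step i⟩)
    obtain ⟨A', C', h0', hA', _, hC', hrel'⟩ := h1
    obtain ⟨A, Cp, h0, hA, hAr, hC, hrel⟩ := h2
    have hinj1 : Set.InjOn x (Λ : Set ℕ) := fun i hi j hj e =>
      h.inj i j (by have := hΛN i hi; omega) (by have := hΛN j hj; omega) e
    have hinj2 : Set.InjOn (fun j => x (j + (r + 1))) (Λ : Set ℕ) := fun i hi j hj e => by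
      have := h.inj (i + (r + 1)) (j + (r + 1)) (hΛN i hi) (hΛN j hj) e
      omega
    have himg : (Λ.image x).image (fun y => U.eval y / W.eval y) = Λ.image fun j => x (j + (r + 1)) := by
      rw [image_image]
      apply image_congr
      intro j _
      exact (hit' j).2
    have hc1 : (Λ.image x).card = Λ.card := card_image_of_injOn hinj1
    have hc2 : (Λ.image fun j => x (j + (r + 1))).card = Λ.card := card_image_of_injOn hinj2
    obtain ⟨α, β, γ, hαβ⟩ := riccati_of_ode P.D_add P.D_mul hUW hU hW hUWtop r (by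
        calc r < 2 ^ r := Nat.lt_two_pow_self
          _ ≤ 2 ^ (r + 1) := Nat.pow_le_pow_right (by norm_num) (by omega)
          _ ≤ d ^ (r + 1) := Nat.pow_le_pow_left hd _) (Λ.image x) (by
        intro y hy
        obtain ⟨j, hj, rfl⟩ := mem_image.mp hy
        exact (hit' j).1) (by
        rw [hc1]; omega) (by
        rw [himg, hc2]
        omega) h0 hA hAr hC (by
        intro y hy
        obtain ⟨j, hj, rfl⟩ := mem_image.mp hy
        rw [(hit' j).2]
        exact hrel _ (mem_image_of_mem _ hj)) h0' hA' hC' hrel'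
    rw [himg] at hαβ
    refine ⟨Λ.filter fun j => P.D (x (j + (r + 1))) = α * x (j + (r + 1)) ^ 2 +
      β * x (j + (r + 1)) + γ, filter_subset _ _, ?_, ?_⟩
    · have h3 := card_filter_add_card_filter_not (s := Λ)
        (fun j => P.D (x (j + (r + 1))) = α * x (j + (r + 1)) ^ 2 + β * x (j + (r + 1)) + γ)
      have h4 : (Λ.filter fun j => ¬ (P.D (x (j + (r + 1))) = α * x (j + (r + 1)) ^ 2 +
          β * x (j + (r + 1)) + γ)).card ≤ r := by
        refine le_trans ?_ hαβ
        apply card_le_card_of_injOn (fun j => x (j + (r + 1)))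
        · intro j hj
          have hj' := mem_filter.mp hj
          exact mem_coe.mpr (mem_filter.mpr ⟨mem_image_of_mem _ hj'.1, hj'.2⟩)
        · intro i hi j hj e
          exact hinj2 (mem_filter.mp hi).1 (mem_filter.mp hj).1 e
      omega
    · intro v _
      intro p hp q hq c hc c' hc' n1 n2 n3 n4 n5 n6
      have hD : ∀ y ∈ ((Λ.filter fun j => P.D (x (j + (r + 1))) = α * x (j + (r + 1)) ^ 2 +
          β * x (j + (r + 1)) + γ).image
          fun j => x (j + (r + 1))), P.D y = α * y ^ 2 + β * y + γ := by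
        intro y hy
        obtain ⟨j, hj, rfl⟩ := mem_image.mp hy
        exact (mem_filter.mp hj).2
      have hz := D_cross_eq_zero P.D_add P.D_mul (hD p hp) (hD c' hc') (hD q hq) (hD c hc)
      obtain ⟨t, ht⟩ := hker _ hz
      have m1 : p - q ≠ 0 := sub_ne_zero.mpr n1
      have m2 : c' - c ≠ 0 := sub_ne_zero.mpr n6.symm
      have m3 : p - c ≠ 0 := sub_ne_zero.mpr n2
      have m4 : c' - q ≠ 0 := sub_ne_zero.mpr n5.symm
      have ht0 : t ≠ 0 := by
        rintro rfl
        rw [map_zero] at ht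
        exact div_ne_zero (mul_ne_zero m1 m2) (mul_ne_zero m3 m4) ht.symm
      have h5 := hconst v t ht0
      rw [ht, DV.o_div _ _ _ (mul_ne_zero m1 m2) (mul_ne_zero m3 m4), (P.pl v).mul _ _ m1 m2,
        (P.pl v).mul _ _ m3 m4] at h5
      rw [(P.pl v).o_sub_comm c c', (P.pl v).o_sub_comm q c']
      omega

end inst

end Pool.Agent.Helper33.UB
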