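import Pool.Agent.Helper33.UB.AM2

/-!
# The differential equation dichotomy
-/

set_option autoImplicit false

open Finset Polynomial

namespace Pool.Agent.Helper33.UB

section dichotomy

variable {K : Type*} [Field K]

/-- the linear form `(A, C) ↦ A(x) Dx - C(x)` on pairs of coefficient vectors -/
noncomputable def ev (r : ℕ) (D : K → K) (x : K) : ((Fin r → K) × (Fin (r + 2) → K)) →ₗ[K] K where
  toFun w := (∑ a, w.1 a * x ^ (a : ℕ)) * D x - ∑ b, w.2 b * x ^ (b : ℕ)
  map_add' w w' := by
    simp only [Prod.fst_add, Prod.snd_add, Pi.add_apply, add_mul, sum_add_distrib]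
    ring
  map_smul' c w := by
    simp only [Prod.smul_fst, Prod.smul_snd, Pi.smul_apply, smul_eq_mul, mul_assoc, ← mul_sum,
      RingHom.id_apply]
    ring

variable [DecidableEq K]

/-- vanishing of the Hankel determinant gives a relation on `I` -/
lemma exists_relation_of_det (D : K → K) (r : ℕ) (I : Finset K) (hI : I.card = 2 * r + 2)
    (hdet : (hankel D I r).det = 0) :
    ∃ w : (Fin r → K) × (Fin (r + 2) → K), w ≠ 0 ∧ ∀ x ∈ I, ev r D x w = 0 := by
  obtain ⟨u, hu0, hu⟩ := Matrix.exists_mulVec_eq_zero_iff.mpr hdet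
  set y : K → K := fun x => (∑ a, u a * x ^ (a : ℕ)) * D x with hy
  have hinj : Set.InjOn (id : K → K) (I : Set K) := fun _ _ _ _ h => h
  set Cp : K[X] := Lagrange.interpolate I id y with hCp
  have hCdeg : Cp.degree < I.card := Lagrange.degree_interpolate_lt _ hinj
  have hCev : ∀ x ∈ I, Cp.eval x = y x := fun x hx => Lagrange.eval_interpolate_at_node y hinj hx
  -- the moments vanish
  have hmom : ∀ a : ℕ, a < r → ∑ x ∈ I, (y x * x ^ a) / ∏ z ∈ I.erase x, (x - z) = 0 := by
    intro a ha
    have h1 := congrFun hu ⟨a, ha⟩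
    rw [Matrix.mulVec, dotProduct] at h1
    simp only [hankel, Matrix.of_apply, sum_mul, Pi.zero_apply] at h1
    rw [sum_comm] at h1
    rw [← h1]
    apply sum_congr rfl
    intro x _
    rw [hy]
    simp only [om]
    rw [sum_mul, sum_mul, sum_div]
    apply sum_congr rfl
    intro b _
    rw [pow_add]
    ring
  -- hence the top coefficients vanish
  have hcoef : ∀ a : ℕ, a ≤ r → Cp.degree < ((2 * r + 2 - a : ℕ) : WithBot ℕ) := by
    intro a
    induction a with
    | zero => intro _; rw [← hI]; exact hCdeg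
    | succ a ih =>
      intro ha
      have h1 := ih (by omega)
      have hXdeg : (Cp * X ^ a).degree < (I.card : WithBot ℕ) := by
        rw [hI]
        by_cases hC0 : Cp = 0
        · rw [hC0, zero_mul, degree_zero]
          exact WithBot.bot_lt_coe _
        rw [degree_mul, degree_X_pow, degree_eq_natDegree hC0]
        rw [degree_eq_natDegree hC0] at h1
        have h2 : Cp.natDegree < 2 * r + 2 - a := by exact_mod_cast h1
        have h3 : Cp.natDegree + a < 2 * r + 2 := by omega
        exact_mod_cast h3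
      have h2 := Lagrange.coeff_eq_sum hinj hXdeg
      have h3 : ∑ i ∈ I, (eval (id i) (Cp * X ^ a)) / ∏ j ∈ I.erase i, (id i - id j) = 0 := by
        rw [← hmom a (by omega)]
        apply sum_congr rfl
        intro x hx
        simp only [id, eval_mul, eval_pow, eval_X]
        rw [hCev x hx]
      rw [h3, hI] at h2
      have h4 : (2 * r + 2 - 1) = (2 * r + 2 - (a + 1)) + a := by omega
      rw [h4, coeff_mul_X_pow] at h2
      -- conclude
      by_cases hC0 : Cp = 0
      · rw [hC0, degree_zero]; exact WithBot.bot_lt_coe _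
      rw [degree_eq_natDegree hC0] at h1 ⊢
      have h5 : Cp.natDegree < 2 * r + 2 - a := by exact_mod_cast h1
      have h6 : Cp.natDegree ≠ 2 * r + 2 - (a + 1) := by
        intro h7
        rw [← h7] at h2
        exact hC0 (leadingCoeff_eq_zero.mp h2)
      have h7 : Cp.natDegree < 2 * r + 2 - (a + 1) := by omega
      exact_mod_cast h7
  have hCr : Cp.degree < ((r + 2 : ℕ) : WithBot ℕ) := by
    have := hcoef r le_rfl
    rwa [show 2 * r + 2 - r = r + 2 by omega] at this
  refine ⟨(u, fun b => Cp.coeff b), ?_, ?_⟩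
  · intro h
    exact hu0 (congrArg Prod.fst h)
  · intro x hx
    have h1 : ∑ b : Fin (r + 2), Cp.coeff b * x ^ (b : ℕ) = Cp.eval x := by
      by_cases hC0 : Cp = 0
      · rw [hC0]; simp
      rw [eval_eq_sum_range' (n := r + 2)]
      · exact (Finset.sum_range fun i => Cp.coeff i * x ^ i).symm
      · rw [degree_eq_natDegree hC0] at hCr
        exact_mod_cast hCr
    change (∑ a, u a * x ^ (a : ℕ)) * D x - ∑ b : Fin (r + 2), Cp.coeff b * x ^ (b : ℕ) = 0
    rw [h1, hCev x hx, hy]
    simp only
    ring

/-- **Dichotomy.** -/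
theorem dichotomy (D : K → K) (r : ℕ) (Y : Finset K)
    (h : ∀ I ⊆ Y, I.card = 2 * r + 2 → (hankel D I r).det = 0) :
    ∃ w : (Fin r → K) × (Fin (r + 2) → K), w ≠ 0 ∧ ∀ x ∈ Y, ev r D x w = 0 := by
  classical
  by_contra hcon
  push Not at hcon
  -- `Good I`: the relations on `I` are trivial
  let Good : Finset K → Prop := fun I => ∀ w : (Fin r → K) × (Fin (r + 2) → K), w ≠ 0 →
    ∃ x ∈ I, ev r D x w ≠ 0
  have hY : Good Y := hcon
  have hne : (Y.powerset.filter fun I => Good I).Nonempty :=
    ⟨Y, mem_filter.mpr ⟨mem_powerset_self Y, hY⟩⟩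
  obtain ⟨I, hI, hmin⟩ := exists_min_image _ card hne
  rw [mem_filter, mem_powerset] at hI
  obtain ⟨hIY, hIgood⟩ := hI
  have hfin : Module.finrank K ((Fin r → K) × (Fin (r + 2) → K)) = 2 * r + 2 := by
    rw [Module.finrank_prod, Module.finrank_fin_fun, Module.finrank_fin_fun]
    ring
  -- upper bound
  have hex : ∀ x : I, ∃ w : (Fin r → K) × (Fin (r + 2) → K), w ≠ 0 ∧ ev r D (x : K) w ≠ 0 ∧
      ∀ y ∈ I, y ≠ (x : K) → ev r D y w = 0 := by
    intro x
    have h1 : ¬ Good (I.erase x) := by
      intro h2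
      have := hmin (I.erase x) (mem_filter.mpr ⟨mem_powerset.mpr ((erase_subset _ _).trans hIY), h2⟩)
      have := card_erase_lt_of_mem x.2
      omega
    simp only [Good] at h1
    push Not at h1
    obtain ⟨w, hw, h2⟩ := h1
    obtain ⟨y, hy, h3⟩ := hIgood w hw
    have hyx : y = (x : K) := by
      by_contra hyx
      exact h3 (h2 y (mem_erase.mpr ⟨hyx, hy⟩))
    rw [hyx] at h3
    exact ⟨w, hw, h3, fun y' hy' hne => h2 y' (mem_erase.mpr ⟨hne, hy'⟩)⟩
  choose w hw0 hwx hwy using hex
  have hli : LinearIndependent K w := by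
    rw [Fintype.linearIndependent_iff]
    intro g hg x
    have h1 := congrArg (ev r D x) hg
    rw [map_sum, map_zero] at h1
    simp only [map_smul, smul_eq_mul] at h1
    rw [sum_eq_single x] at h1
    · rcases mul_eq_zero.mp h1 with h2 | h2
      · exact h2
      · exact absurd h2 (hwx x)
    · intro y _ hyx
      rw [hwy y x x.2 (fun e => hyx (Subtype.ext e.symm)), mul_zero]
    · intro h2; exact absurd (mem_univ x) h2
  have hcard1 : I.card ≤ 2 * r + 2 := by
    have := hli.fintype_card_le_finrank
    rw [hfin, Fintype.card_coe] at this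
    exact this
  -- lower bound
  have hcard2 : 2 * r + 2 ≤ I.card := by
    let Φ : ((Fin r → K) × (Fin (r + 2) → K)) →ₗ[K] (I → K) := LinearMap.pi fun x : I => ev r D (x : K)
    have hΦ : Function.Injective Φ := by
      rw [← LinearMap.ker_eq_bot, LinearMap.ker_eq_bot']
      intro u hu
      by_contra hu0
      obtain ⟨x, hx, h1⟩ := hIgood u hu0
      exact h1 (congrFun hu ⟨x, hx⟩)
    have := LinearMap.finrank_le_finrank_of_injective hΦ
    rw [hfin, Module.finrank_fintype_fun_eq_card, Fintype.card_coe] at this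
    exact this
  obtain ⟨u, hu0, hu⟩ := exists_relation_of_det D r I (by omega) (h I hIY (by omega))
  obtain ⟨x, hx, h1⟩ := hIgood u hu0
  exact h1 (hu x hx)

/-- polynomial form of the dichotomy -/
theorem dichotomy' (D : K → K) (r : ℕ) (Y : Finset K)
    (h : ∀ I ⊆ Y, I.card = 2 * r + 2 → (hankel D I r).det = 0) :
    ∃ A Cp : K[X], (A ≠ 0 ∨ Cp ≠ 0) ∧ A.natDegree ≤ r - 1 ∧ (A ≠ 0 → 1 ≤ r) ∧ Cp.natDegree ≤ r + 1 ∧
      ∀ x ∈ Y, A.eval x * D x = Cp.eval x := by
  obtain ⟨w, hw0, hw⟩ := dichotomy D r Y h
  set A : K[X] := ∑ a : Fin r, C (w.1 a) * X ^ (a : ℕ) with hA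
  set Cp : K[X] := ∑ b : Fin (r + 2), C (w.2 b) * X ^ (b : ℕ) with hC
  have hAc : ∀ a : Fin r, A.coeff a = w.1 a := by
    intro a
    rw [hA, finsetSum_coeff, sum_eq_single a]
    · simp
    · intro b _ hb
      rw [coeff_C_mul_X_pow, if_neg]
      intro h; exact hb (Fin.ext h.symm)
    · intro h; exact absurd (mem_univ a) h
  have hCc : ∀ a : Fin (r + 2), Cp.coeff a = w.2 a := by
    intro a
    rw [hC, finsetSum_coeff, sum_eq_single a]
    · simp
    · intro b _ hb
      rw [coeff_C_mul_X_pow, if_neg]
      intro h; exact hb (Fin.ext h.symm)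
    · intro h; exact absurd (mem_univ a) h
  refine ⟨A, Cp, ?_, ?_, ?_, ?_, ?_⟩
  · by_contra hcon
    push Not at hcon
    apply hw0
    refine Prod.ext ?_ ?_
    · ext a; rw [← hAc, hcon.1]; simp
    · ext a; rw [← hCc, hcon.2]; simp
  · rw [hA]
    apply natDegree_sum_le_of_forall_le
    intro a _
    refine (natDegree_C_mul_X_pow_le _ _).trans ?_
    have := a.2
    omega
  · intro hA0
    by_contra hr
    have hr0 : r = 0 := by omega
    subst hr0
    apply hA0
    rw [hA]
    simp
  · rw [hC]
    apply natDegree_sum_le_of_forall_le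
    intro a _
    refine (natDegree_C_mul_X_pow_le _ _).trans ?_
    have := a.2
    omega
  · intro x hx
    have h1 := hw x hx
    change (∑ a, w.1 a * x ^ (a : ℕ)) * D x - ∑ b, w.2 b * x ^ (b : ℕ) = 0 at h1
    rw [hA, hC, eval_finsetSum, eval_finsetSum]
    simp only [eval_mul, eval_C, eval_pow, eval_X]
    exact sub_eq_zero.mp h1

end dichotomy

section affine

variable {K : Type*} [Field K]

/-- apply `D` to the coefficients -/
noncomputable def mapD (D : K → K) (F : K[X]) : K[X] :=
  ∑ i ∈ range (F.natDegree + 1), C (D (F.coeff i)) * X ^ i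

lemma mapD_natDegree (D : K → K) (F : K[X]) : (mapD D F).natDegree ≤ F.natDegree := by
  unfold mapD
  apply natDegree_sum_le_of_forall_le
  intro i hi
  refine (natDegree_C_mul_X_pow_le _ _).trans ?_
  rw [mem_range] at hi
  omega

/-- chain rule -/
lemma D_eval {D : K → K} (hadd : ∀ x y, D (x + y) = D x + D y) (hmul : ∀ x y, D (x * y) = x * D y + y * D x)
    (F : K[X]) (y : K) : D (F.eval y) = (mapD D F).eval y + (derivative F).eval y * D y := by
  have hzero : D 0 = 0 := by
    have h := hadd 0 0
    rw [add_zero] at h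
    exact left_eq_add.mp h
  have hone : D 1 = 0 := by
    have h := hmul 1 1
    rw [mul_one, one_mul] at h
    exact left_eq_add.mp h
  have hsum : ∀ (s : Finset ℕ) (g : ℕ → K), D (∑ i ∈ s, g i) = ∑ i ∈ s, D (g i) := by
    intro s g
    induction s using Finset.induction_on with
    | empty => simp [hzero]
    | insert a s ha ih => rw [sum_insert ha, sum_insert ha, hadd, ih]
  have hpow : ∀ n : ℕ, D (y ^ n) = n * y ^ (n - 1) * D y := by
    intro n
    induction n with
    | zero => simp [hone]
    | succ n ih =>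
      rw [pow_succ, hmul, ih]
      rcases n with _ | n
      · simp
      · simp only [Nat.add_sub_cancel]
        push_cast
        ring
  have hder : (derivative F).eval y = ∑ i ∈ range (F.natDegree + 1), F.coeff i * i * y ^ (i - 1) := by
    rw [derivative_eval, sum_over_range]
    intro n; simp
  rw [hder]
  conv_lhs => rw [eval_eq_sum_range]
  rw [hsum]
  unfold mapD
  rw [eval_finsetSum, sum_mul, ← sum_add_distrib]
  apply sum_congr rfl
  intro i _
  rw [hmul, hpow]
  simp only [eval_mul, eval_C, eval_pow, eval_X]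
  ring

variable [DecidableEq K]

/-- **A rational differential equation along an orbit is affine.** -/
theorem affine_of_ode {D : K → K} (hadd : ∀ x y, D (x + y) = D x + D y)
    (hmul : ∀ x y, D (x * y) = x * D y + y * D x) (F : K[X]) (r : ℕ) (hr : r < F.natDegree)
    (Y' : Finset K) (hY' : (r + 1) * F.natDegree + r < Y'.card)
    (hY : r + 1 < (Y'.image fun y => F.eval y).card)
    {A Cp A' C' : K[X]} (h0 : A ≠ 0 ∨ Cp ≠ 0) (hA : A.natDegree ≤ r - 1) (hAr : A ≠ 0 → 1 ≤ r)
    (hC : Cp.natDegree ≤ r + 1)
    (hrel : ∀ y ∈ Y', A.eval (F.eval y) * D (F.eval y) = Cp.eval (F.eval y))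
    (h0' : A' ≠ 0 ∨ C' ≠ 0) (hA' : A'.natDegree ≤ r - 1) (hC' : C'.natDegree ≤ r + 1)
    (hrel' : ∀ y ∈ Y', A'.eval y * D y = C'.eval y) :
    ∃ α β : K, ((Y'.image fun y => F.eval y).filter fun y => D y ≠ α * y + β).card ≤ r := by
  set q := F.natDegree with hq
  set Y := Y'.image fun y => F.eval y with hYdef
  have hrel2 : ∀ y ∈ Y, A.eval y * D y = Cp.eval y := by
    intro y hy
    obtain ⟨z, hz, rfl⟩ := mem_image.mp hy
    exact hrel z hz
  have hA0' : A' ≠ 0 := by
    rintro rfl
    have hC0 : C' ≠ 0 := by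
      rcases h0' with h | h
      · exact absurd rfl h
      · exact h
    apply hC0
    apply eq_zero_of_natDegree_lt_card_of_eval_eq_zero' C' Y'
    · intro y hy
      have := hrel' y hy
      rw [eval_zero, zero_mul] at this
      exact this.symm
    · have : r + 1 ≤ (r + 1) * q := Nat.le_mul_of_pos_right _ (by omega)
      omega
  have hA0 : A ≠ 0 := by
    rintro rfl
    have hC0 : Cp ≠ 0 := by
      rcases h0 with h | h
      · exact absurd rfl h
      · exact h
    apply hC0
    apply eq_zero_of_natDegree_lt_card_of_eval_eq_zero' Cp Y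
    · intro y hy
      have := hrel2 y hy
      rw [eval_zero, zero_mul] at this
      exact this.symm
    · omega
  have hr1 := hAr hA0
  -- polynomial identity
  have hid : A.comp F * (A' * mapD D F + derivative F * C') = A' * Cp.comp F := by
    rw [← sub_eq_zero]
    apply eq_zero_of_natDegree_lt_card_of_eval_eq_zero' _ Y'
    · intro y hy
      have h1 := hrel y hy
      have h2 := hrel' y hy
      rw [D_eval hadd hmul] at h1
      simp only [eval_sub, eval_mul, eval_add, eval_comp]
      rw [← h2, ← h1]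
      ring
    · refine lt_of_le_of_lt ?_ hY'
      have d1 : (A.comp F).natDegree ≤ (r - 1) * q := by
        rw [natDegree_comp]; exact Nat.mul_le_mul_right _ hA
      have d2 : (Cp.comp F).natDegree ≤ (r + 1) * q := by
        rw [natDegree_comp]; exact Nat.mul_le_mul_right _ hC
      have d3 : (A' * mapD D F).natDegree ≤ (r - 1) + q :=
        natDegree_mul_le.trans (Nat.add_le_add hA' (mapD_natDegree D F))
      have d4 : (derivative F * C').natDegree ≤ (q - 1) + (r + 1) :=
        natDegree_mul_le.trans (Nat.add_le_add (natDegree_derivative_le F) hC')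
      have d5 : (A' * mapD D F + derivative F * C').natDegree ≤ q + r :=
        natDegree_add_le_of_degree_le (d3.trans (by omega)) (d4.trans (by omega))
      have e1 : (r - 1) * q + (q + r) ≤ (r + 1) * q + r := by
        have : (r - 1) * q + q ≤ (r + 1) * q := by
          rw [← Nat.succ_mul]
          exact Nat.mul_le_mul_right _ (by omega)
        omega
      have e2 : (r - 1) + (r + 1) * q ≤ (r + 1) * q + r := by omega
      refine (natDegree_sub_le_of_le ?_ ?_).trans (max_self _).le
      · exact (natDegree_mul_le.trans (Nat.add_le_add d1 d5)).trans e1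
      · exact (natDegree_mul_le.trans (Nat.add_le_add hA' d2)).trans e2
  -- remove the gcd
  set G := EuclideanDomain.gcd A Cp with hG
  have hG0 : G ≠ 0 := by
    rw [hG, Ne, EuclideanDomain.gcd_eq_zero_iff]
    exact fun h => hA0 h.1
  obtain ⟨A1, hA1⟩ := EuclideanDomain.gcd_dvd_left A Cp
  obtain ⟨C1, hC1⟩ := EuclideanDomain.gcd_dvd_right A Cp
  rw [← hG] at hA1 hC1
  have hcop : IsCoprime A1 C1 := by
    have h1 := EuclideanDomain.gcd_eq_gcd_ab A Cp
    rw [← hG] at h1
    refine ⟨EuclideanDomain.gcdA A Cp, EuclideanDomain.gcdB A Cp, ?_⟩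
    apply mul_left_cancel₀ hG0
    calc G * (EuclideanDomain.gcdA A Cp * A1 + EuclideanDomain.gcdB A Cp * C1)
        = (G * A1) * EuclideanDomain.gcdA A Cp + (G * C1) * EuclideanDomain.gcdB A Cp := by ring
      _ = A * EuclideanDomain.gcdA A Cp + Cp * EuclideanDomain.gcdB A Cp := by rw [← hA1, ← hC1]
      _ = G * 1 := by rw [← h1, mul_one]
  have hA10 : A1 ≠ 0 := by
    rintro rfl; rw [mul_zero] at hA1; exact hA0 hA1
  have hGF : G.comp F ≠ 0 := by
    intro h
    rw [comp_eq_zero_iff] at h
    rcases h with h | h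
    · exact hG0 h
    · have : F.natDegree = 0 := by rw [h.2]; simp
      omega
  have hid2 : A1.comp F * (A' * mapD D F + derivative F * C') = A' * C1.comp F := by
    apply mul_left_cancel₀ hGF
    rw [hA1, hC1, mul_comp, mul_comp] at hid
    linear_combination hid
  have hcop2 : IsCoprime (A1.comp F) (C1.comp F) := by
    have := hcop.map (compRingHom F)
    simpa using this
  have hdvd : A1.comp F ∣ A' := by
    apply hcop2.dvd_of_dvd_mul_right
    exact ⟨_, hid2.symm⟩
  have hA1deg : A1.natDegree = 0 := by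
    have h1 := natDegree_le_of_dvd hdvd hA0'
    rw [natDegree_comp, ← hq] at h1
    by_contra h2
    have h3 : q ≤ A1.natDegree * q := Nat.le_mul_of_pos_left _ (Nat.pos_of_ne_zero h2)
    omega
  obtain ⟨c, hc⟩ : ∃ c, A1 = C c := ⟨A1.coeff 0, eq_C_of_natDegree_eq_zero hA1deg⟩
  have hc0 : c ≠ 0 := by
    rintro rfl; rw [hc, C_0] at hA10; exact hA10 rfl
  rw [hc, C_comp] at hid2
  have hC1deg : C1.natDegree ≤ 1 := by
    by_contra h2
    push Not at h2
    have hC10 : C1 ≠ 0 := by
      rintro rfl; simp at h2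
    have d1 : (A' * C1.comp F).natDegree = A'.natDegree + C1.natDegree * q := by
      rw [natDegree_mul hA0', natDegree_comp]
      intro h
      rw [comp_eq_zero_iff] at h
      rcases h with h | h
      · exact hC10 h
      · have : F.natDegree = 0 := by rw [h.2]; simp
        omega
    have d2 : (C c * (A' * mapD D F + derivative F * C')).natDegree ≤ max (A'.natDegree + q) (q + r) := by
      refine (natDegree_C_mul_le _ _).trans ?_
      apply natDegree_add_le_of_le
      · exact natDegree_mul_le.trans (Nat.add_le_add_left (mapD_natDegree D F) _)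
      · refine (natDegree_mul_le.trans (Nat.add_le_add (natDegree_derivative_le F) hC')).trans ?_
        omega
    rw [hid2, d1] at d2
    have h3 : 2 * q ≤ C1.natDegree * q := Nat.mul_le_mul_right _ h2
    rcases le_max_iff.mp d2 with h4 | h4 <;> omega
  refine ⟨C1.coeff 1 / c, C1.coeff 0 / c, ?_⟩
  have hsub : (Y.filter fun y => D y ≠ C1.coeff 1 / c * y + C1.coeff 0 / c) ⊆ G.roots.toFinset := by
    intro y hy
    rw [mem_filter] at hy
    rw [Multiset.mem_toFinset, mem_roots hG0, IsRoot.def]
    by_contra hGy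
    apply hy.2
    have h1 := hrel2 y hy.1
    rw [hA1, hC1, hc, eval_mul, eval_mul, eval_C, mul_assoc] at h1
    have h2 := mul_left_cancel₀ hGy h1
    have h3 : C1.eval y = C1.coeff 1 * y + C1.coeff 0 := by
      rw [eval_eq_sum_range' (n := 2) (by omega), sum_range_succ, sum_range_one]
      ring
    rw [h3] at h2
    field_simp
    linear_combination h2
  refine (card_le_card hsub).trans ((Multiset.toFinset_card_le _).trans ((card_roots' _).trans ?_))
  have := natDegree_le_of_dvd ⟨A1, hA1⟩ hA0
  omega

end affine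

end Pool.Agent.Helper33.UB
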