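import Pool.Agent.Helper33.UB.Greedy
import Pool.Agent.Helper33.UB.Scale
import Pool.Agent.Helper33.UB.ODE

/-!
# Abstract global instances
-/

set_option autoImplicit false

open Finset Polynomial

namespace Pool.Agent.Helper33.UB

/-- constants attached to a class of maps -/
structure GConst where
  /-- degree -/
  d : ℕ
  hd : 1 ≤ d
  /-- constant of the lower bound -/
  C1 : ℝ
  hC1 : 1 ≤ C1
  /-- constant of the local lower bound -/
  c0 : ℝ
  hc0 : 0 < c0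
  hc01 : c0 ≤ 1
  /-- size of the sets in the local lower bound -/
  N0 : ℕ
  /-- discreteness -/
  δ0 : ℝ
  hδ0 : 0 < δ0
  /-- threshold at good places -/
  c1 : ℝ
  hc1 : 0 < c1
  /-- number of iterates needed for the differential equations -/
  mOf : ℕ → ℕ
  /-- number of points needed for the differential equations -/
  nYOf : ℕ → ℕ
  /-- depth of the levels -/
  depth : ℝ → ℕ
  hdepth : ∀ M, 1 ≤ depth M

/-- a polynomial relation of complexity `r` between `x` and `Dx` on a finite set -/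
def Rel {K : Type*} [Field K] (D : K → K) (r : ℕ) (s : Finset K) : Prop :=
  ∃ A Cp : K[X], (A ≠ 0 ∨ Cp ≠ 0) ∧ A.natDegree ≤ r - 1 ∧ (A ≠ 0 → 1 ≤ r) ∧ Cp.natDegree ≤ r + 1 ∧
    ∀ x ∈ s, A.eval x * D x = Cp.eval x

/-- a long orbit with its local data -/
structure GInst {k K V : Type*} [Field k] [Field K] [Algebra k K] [DecidableEq K] (P : PSys k K V)
    (c : GConst) (N : ℕ) (M : ℝ) where
  /-- the orbit -/
  x : ℕ → K
  /-- the relevant places -/
  T : Finset V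
  inj : ∀ i j, i ≤ N → j ≤ N → x i = x j → i = j
  Te : ∀ v, v ∉ T → P.e v = 0
  Tx : ∀ v, v ∉ T → ∀ i j, i ≤ N → j ≤ N → i ≠ j → (P.pl v).o (x i - x j) = 0
  /-- badness -/
  ε : V → ℝ
  ε_nonneg : ∀ v ∈ T, 0 ≤ ε v
  disc : ∀ v ∈ T, 0 < ε v → c.δ0 ≤ ε v
  /-- local heights -/
  β : V → ℕ → ℝ
  sumβ : ∀ i, i ≤ N → ∑ v ∈ T, β v i = 0
  lower : ∀ v ∈ T, ∀ i j, i ≤ N → j ≤ N → i ≠ j →
    -(c.C1 * ε v) ≤ (P.pl v).o (x i - x j) + β v i + β v j
  lb : ∀ v ∈ T, ∀ s : Finset ℕ, (∀ i ∈ s, i ≤ N) → c.N0 < s.card →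
    ∃ i ∈ s, ∃ j ∈ s, i ≠ j ∧ c.c0 * ε v ≤ (P.pl v).o (x i - x j) + β v i + β v j
  /-- vertices -/
  Vx : V → Type
  /-- directions -/
  Dr : V → Type
  /-- the trees -/
  S : ∀ v, TreeDyn (Vx v) (Dr v) c.d
  /-- the levels -/
  Lv : ∀ v, (S v).Levels (c.depth M)
  star : ∀ v ∈ T, ∀ ζ : Vx v, ∀ s : Finset ℕ, (∀ i ∈ s, i ≤ N) →
    (∀ i ∈ s, ∀ j ∈ s, i ≠ j → (S v).dir ζ i ≠ (S v).dir ζ j) → Star (P.pl v) (s.image x)
  deep : ∀ v ∈ T, ε v < M → ∀ i j, i ≤ N → j ≤ N → i ≠ j →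
    (S v).dir ((Lv v).vtx (c.depth M - 1) i) j = (S v).dir ((Lv v).vtx (c.depth M - 1) i) i →
    c.C1 * M + 5 ≤ (P.pl v).o (x i - x j) + β v i + β v j
  good : ∀ v ∈ T, ε v = 0 → ∀ s : Finset ℕ, (∀ i ∈ s, i ≤ N) → ¬ Star (P.pl v) (s.image x) →
    ∃ i ∈ s, ∃ j ∈ s, i < j ∧ c.c1 ≤ (P.pl v).o (x i - x j) + β v i + β v j
  persist : ∀ v ∈ T, ε v = 0 → ∀ i j, i < j → j < N →
    c.c1 ≤ (P.pl v).o (x i - x j) + β v i + β v j →
    c.c1 ≤ (P.pl v).o (x (i + 1) - x (j + 1)) + β v (i + 1) + β v (j + 1)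
  trans : ∀ v ∈ T, ε v = 0 → ∀ i j l, i < j → j < l → l ≤ N →
    c.c1 ≤ (P.pl v).o (x i - x j) + β v i + β v j →
    c.c1 ≤ (P.pl v).o (x j - x l) + β v j + β v l →
    c.c1 ≤ (P.pl v).o (x i - x l) + β v i + β v l
  ode : ∀ r : ℕ, ∀ Λ : Finset ℕ, c.nYOf r ≤ Λ.card → (∀ j ∈ Λ, j + c.mOf r ≤ N) →
    Rel P.D r (Λ.image x) → Rel P.D r (Λ.image fun j => x (j + c.mOf r)) →
    ∃ Λ' ⊆ Λ, Λ.card ≤ Λ'.card + r ∧
      ∀ v ∈ T, Star (P.pl v) (Λ'.image fun j => x (j + c.mOf r))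

namespace GInst

variable {k K V : Type*} [Field k] [Field K] [Algebra k K] [DecidableEq K] {P : PSys k K V}
  {c : GConst} {N : ℕ} {M : ℝ} (I : GInst P c N M)

/-- the Green function -/
noncomputable def g (v : V) (i j : ℕ) : ℝ := (P.pl v).o (I.x i - I.x j) + I.β v i + I.β v j

lemma g_comm (v : V) (i j : ℕ) : I.g v i j = I.g v j i := by
  unfold g
  rw [DV.o_sub_comm]
  ring

/-- total badness -/
noncomputable def h : ℝ := ∑ v ∈ I.T, I.ε v

lemma h_nonneg : 0 ≤ I.h := sum_nonneg I.ε_nonneg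

lemma sum_g {i j : ℕ} (hi : i ≤ N) (hj : j ≤ N) (hij : i ≠ j) : ∑ v ∈ I.T, I.g v i j = 0 := by
  unfold g
  rw [sum_add_distrib, sum_add_distrib, I.sumβ i hi, I.sumβ j hj, add_zero, add_zero]
  have h1 : I.x i - I.x j ≠ 0 := sub_ne_zero.mpr fun h => hij (I.inj i j hi hj h)
  exact_mod_cast P.sum_eq_zero I.T _ h1 fun v hv => I.Tx v hv i j hi hj hij

lemma sum_g_pos {i j : ℕ} (hi : i ≤ N) (hj : j ≤ N) (hij : i ≠ j) :
    ∑ v ∈ I.T, max 0 (I.g v i j) ≤ c.C1 * I.h := by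
  have h1 : ∀ v ∈ I.T, max 0 (I.g v i j) ≤ I.g v i j + c.C1 * I.ε v := by
    intro v hv
    have h2 := I.lower v hv i j hi hj hij
    have h3 : 0 ≤ c.C1 * I.ε v := mul_nonneg (by have := c.hC1; linarith) (I.ε_nonneg v hv)
    have h4 : -(c.C1 * I.ε v) ≤ I.g v i j := h2
    apply max_le <;> linarith
  have h2 := sum_le_sum h1
  rw [sum_add_distrib, I.sum_g hi hj hij, zero_add, ← mul_sum] at h2
  exact h2

/-- number of places where a pair is close -/
lemma card_close {i j : ℕ} (hi : i ≤ N) (hj : j ≤ N) (hij : i ≠ j) (s : Finset V) (hs : s ⊆ I.T)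
    (h : ∀ v ∈ s, c.c1 ≤ I.g v i j) : (s.card : ℝ) ≤ c.C1 / c.c1 * I.h := by
  have hc := c.hc1
  have h1 : (s.card : ℝ) * c.c1 ≤ c.C1 * I.h := by
    calc (s.card : ℝ) * c.c1 = ∑ v ∈ s, c.c1 := by rw [sum_const, nsmul_eq_mul]
      _ ≤ ∑ v ∈ s, max 0 (I.g v i j) := sum_le_sum fun v hv => (h v hv).trans (le_max_right _ _)
      _ ≤ ∑ v ∈ I.T, max 0 (I.g v i j) :=
          sum_le_sum_of_subset_of_nonneg hs fun _ _ _ => le_max_left _ _
      _ ≤ c.C1 * I.h := I.sum_g_pos hi hj hij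
  rw [div_mul_eq_mul_div, le_div_iff₀ hc]
  exact h1

/-- number of very bad places -/
lemma card_bad {t : ℝ} (ht : 0 < t) (s : Finset V) (hs : s ⊆ I.T) (h : ∀ v ∈ s, t ≤ I.ε v) :
    (s.card : ℝ) ≤ I.h / t := by
  rw [le_div_iff₀ ht]
  calc (s.card : ℝ) * t = ∑ v ∈ s, t := by rw [sum_const, nsmul_eq_mul]
    _ ≤ ∑ v ∈ s, I.ε v := sum_le_sum h
    _ ≤ I.h := sum_le_sum_of_subset_of_nonneg hs fun v hv _ => I.ε_nonneg v hv

/-- the `lb` matching -/
lemma exists_lb_matching {R : ℕ} (hR : c.N0 * (c.c0 + c.C1) ≤ (R + 1) * c.c0) {v : V} (hv : v ∈ I.T)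
    (s : Finset ℕ) (hs : ∀ i ∈ s, i ≤ N) (hcard : s.card = 2 * (R + 1)) :
    ∃ A B : Fin (R + 1) → ℕ, Enum s A B ∧
      (R + 1) * (c.c0 / 2 * I.ε v) ≤ ∑ i, I.g v (A i) (B i) := by
  classical
  obtain ⟨A, B, hE, hbad⟩ := exists_greedy (fun i j => c.c0 * I.ε v ≤ I.g v i j) c.N0 (R + 1) s hcard (by
    intro s' hs' hs''
    exact I.lb v hv s' (fun i hi => hs i (hs' hi)) hs'')
  refine ⟨A, B, hE, ?_⟩
  have hε := I.ε_nonneg v hv
  have hc0 := c.hc0
  have hC1 := c.hC1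
  have h1 := sum_ge_of_greedy (fun i => I.g v (A i) (B i)) (fun i => c.c0 * I.ε v ≤ I.g v (A i) (B i))
    (c := c.c0 * I.ε v) (e := c.C1 * I.ε v) (N0 := c.N0) (by positivity)
    (mul_nonneg (by linarith) hε) (by exact_mod_cast hbad) (fun i hi => hi)
    (fun i => I.lower v hv _ _ (hs _ (hE.memA i)) (hs _ (hE.memB i)) (hE.ne i i))
  refine le_trans ?_ h1
  push_cast
  have h2 : c.N0 * (c.c0 + c.C1) * I.ε v ≤ (R + 1) * c.c0 * I.ε v := mul_le_mul_of_nonneg_right hR hε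
  linarith

/-- image of an enumeration -/
lemma enum_image {x : ℕ → K} {s : Finset ℕ} (hinj : Set.InjOn x (s : Set ℕ)) {m : ℕ}
    {A B : Fin m → ℕ} (h : Enum s A B) : Enum (s.image x) (fun i => x (A i)) (fun i => x (B i)) := by
  refine ⟨fun i j hij => h.injA (hinj (h.memA i) (h.memA j) hij),
    fun i j hij => h.injB (hinj (h.memB i) (h.memB j) hij), fun i j hij =>
      h.ne i j (hinj (h.memA i) (h.memB j) hij), ?_⟩
  conv_lhs => rw [h.cover]
  rw [image_union, image_image, image_image]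
  rfl

lemma injOn {s : Finset ℕ} (hs : ∀ i ∈ s, i ≤ N) : Set.InjOn I.x (s : Set ℕ) :=
  fun i hi j hj h => I.inj i j (hs i hi) (hs j hj) h

/-- sums of Green functions over matchings -/
lemma sum_matching {m : ℕ} {s : Finset ℕ} {A B : Fin m → ℕ} (hE : Enum s A B) (v : V) :
    ∑ i, I.g v (A i) (B i) = ∑ i, ((P.pl v).o (I.x (A i) - I.x (B i)) : ℝ) + ∑ j ∈ s, I.β v j := by
  unfold g
  rw [hE.sum, sum_add_distrib, sum_add_distrib]
  ring

/-- **Main inequality.** -/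
theorem main_ineq {R : ℕ} (hR : c.N0 * (c.c0 + c.C1) ≤ (R + 1) * c.c0) (hM : 0 ≤ M)
    (s : Finset ℕ) (hs : ∀ i ∈ s, i ≤ N) (hcard : s.card = 2 * (R + 1))
    (hdet : (hankel P.D (s.image I.x) R).det ≠ 0) (Hg Loss : Finset V) (hHg : Hg ⊆ I.T)
    (hstar : ∀ v ∈ I.T, v ∉ Hg → v ∉ Loss → Star (P.pl v) (s.image I.x))
    (hheavy : ∀ v ∈ Hg, I.ε v < M ∧ ∃ N1 : ℕ, (N1 : ℝ) ≤ 2 * (R + 1) / 5 ∧
      ∀ s' ⊆ s, N1 < s'.card → ∃ i ∈ s', ∃ j ∈ s', i ≠ j ∧ c.C1 * M + 5 ≤ I.g v i j) :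
    c.c0 / 2 * I.h ≤ 2 * (Loss.card + P.E) := by
  classical
  have hc0 := c.hc0
  have hC1 := c.hC1
  have hc01 := c.hc01
  -- the matchings
  have hex : ∀ v ∈ I.T, ∃ A B : Fin (R + 1) → ℕ, Enum s A B ∧
      (R + 1) * (c.c0 / 2 * I.ε v + (if v ∈ Hg then 2 else 0)) ≤ ∑ i, I.g v (A i) (B i) := by
    intro v hv
    by_cases hvH : v ∈ Hg
    · rw [if_pos hvH]
      obtain ⟨hεM, N1, hN1, hrel⟩ := hheavy v hvH
      obtain ⟨A, B, hE, hbad⟩ := exists_greedy (fun i j => c.C1 * M + 5 ≤ I.g v i j) N1 (R + 1) s hcard hrel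
      refine ⟨A, B, hE, ?_⟩
      have hε := I.ε_nonneg v hv
      have hCM : 0 ≤ c.C1 * M := mul_nonneg (by linarith) hM
      have h1 := sum_ge_of_greedy (fun i => I.g v (A i) (B i))
        (fun i => c.C1 * M + 5 ≤ I.g v (A i) (B i))
        (c := c.C1 * M + 5) (e := c.C1 * M) (N0 := N1) (by linarith) hCM
        (by exact_mod_cast hbad) (fun i hi => hi) (fun i => by
          have h2 := I.lower v hv _ _ (hs _ (hE.memA i)) (hs _ (hE.memB i)) (hE.ne i i)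
          have h3 : c.C1 * I.ε v ≤ c.C1 * M := mul_le_mul_of_nonneg_left hεM.le (by linarith)
          change -(c.C1 * M) ≤ (P.pl v).o (I.x (A i) - I.x (B i)) + I.β v (A i) + I.β v (B i)
          linarith)
      refine le_trans ?_ h1
      push_cast
      have h4 : (N1 : ℝ) / 2 * (c.C1 * M + 5 + c.C1 * M) ≤ (R + 1) / 5 * (c.C1 * M + 5 + c.C1 * M) := by
        apply mul_le_mul_of_nonneg_right _ (by linarith)
        linarith
      have h5 : c.c0 / 2 * I.ε v ≤ M / 2 := by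
        have : c.c0 * I.ε v ≤ 1 * M := mul_le_mul hc01 hεM.le hε (by norm_num)
        linarith
      have h6 : M ≤ c.C1 * M := by nlinarith
      have hRr : (0 : ℝ) ≤ R := Nat.cast_nonneg R
      have h7 : ((R : ℝ) + 1) * (c.c0 / 2 * I.ε v + 2) ≤ (R + 1) * (3 / 5 * (c.C1 * M) + 4) := by
        apply mul_le_mul_of_nonneg_left _ (by linarith)
        linarith
      linarith
    · rw [if_neg hvH, add_zero]
      exact I.exists_lb_matching hR hv s hs hcard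
  choose! A B hE hsum using hex
  have ham := am P (I := s.image I.x) hdet I.T (Hg ∪ Loss) I.Te (by
    intro v hv x hx y hy hxy
    obtain ⟨i, hi, rfl⟩ := mem_image.mp hx
    obtain ⟨j, hj, rfl⟩ := mem_image.mp hy
    exact I.Tx v hv i j (hs i hi) (hs j hj) fun e => hxy (by rw [e]))
    (fun v hv hvS => hstar v hv (fun h => hvS (mem_union_left _ h)) (fun h => hvS (mem_union_right _ h)))
    (fun v i => I.x (A v i)) (fun v i => I.x (B v i))
    (fun v hv => enum_image (I.injOn hs) (hE v hv))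
  have h1 : ∑ v ∈ I.T, ∑ i, I.g v (A v i) (B v i) =
      ((∑ v ∈ I.T, ∑ i, (P.pl v).o (I.x (A v i) - I.x (B v i)) : ℤ) : ℝ) := by
    rw [sum_congr rfl (fun v hv => I.sum_matching (hE v hv) v), sum_add_distrib]
    have : ∑ v ∈ I.T, ∑ j ∈ s, I.β v j = 0 := by
      rw [sum_comm]
      exact sum_eq_zero fun j hj => I.sumβ j (hs j hj)
    rw [this, add_zero]
    push_cast
    rfl
  have h2 := sum_le_sum hsum
  rw [h1] at h2
  have h3 : ((∑ v ∈ I.T, ∑ i, (P.pl v).o (I.x (A v i) - I.x (B v i)) : ℤ) : ℝ) ≤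
      2 * R * (((Hg ∪ Loss).card : ℝ) + P.E) := by
    have : ((∑ v ∈ I.T, ∑ i, (P.pl v).o (I.x (A v i) - I.x (B v i)) : ℤ) : ℝ) ≤
      ((2 * R * (((Hg ∪ Loss).card : ℤ) + P.E) : ℤ) : ℝ) := by exact_mod_cast ham
    push_cast at this ⊢
    exact this
  have h4 : ((Hg ∪ Loss).card : ℝ) ≤ Hg.card + Loss.card := by exact_mod_cast card_union_le _ _
  have h5 : ∑ v ∈ I.T, ((R : ℝ) + 1) * (c.c0 / 2 * I.ε v + (if v ∈ Hg then 2 else 0)) =
      (R + 1) * (c.c0 / 2 * I.h + 2 * Hg.card) := by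
    rw [← mul_sum, sum_add_distrib, ← mul_sum, sum_ite_mem, inter_eq_right.mpr hHg, sum_const,
      nsmul_eq_mul]
    unfold h
    ring
  rw [h5] at h2
  have hRr : (0 : ℝ) ≤ R := Nat.cast_nonneg R
  have hEr : (0 : ℝ) ≤ P.E := Nat.cast_nonneg _
  have h6 : (2 : ℝ) * R * (((Hg ∪ Loss).card : ℝ) + P.E) ≤ (R + 1) * (2 * (Hg.card + Loss.card + P.E)) := by
    have h7 : (0 : ℝ) ≤ ((Hg ∪ Loss).card : ℝ) + P.E := by positivity
    nlinarith
  have h8 : ((R : ℝ) + 1) * (c.c0 / 2 * I.h + 2 * Hg.card) ≤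
      (R + 1) * (2 * (Hg.card + Loss.card + P.E)) := by linarith
  have h9 := le_of_mul_le_mul_left h8 (by linarith : (0 : ℝ) < R + 1)
  linarith

/-- stars everywhere force `h = 0` -/
theorem h_le_of_star {R : ℕ} (hR : c.N0 * (c.c0 + c.C1) ≤ (R + 1) * c.c0) (hR1 : 1 ≤ R)
    (s : Finset ℕ) (hs : ∀ i ∈ s, i ≤ N) (hcard : s.card = 2 * (R + 1))
    (hstar : ∀ v ∈ I.T, Star (P.pl v) (s.image I.x)) : I.h ≤ 0 := by
  classical
  have hinj := I.injOn hs
  have himg : (s.image I.x).card = 2 * (R + 1) := by rw [card_image_of_injOn hinj, hcard]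
  -- total sum over pairs
  have htot : ∑ v ∈ I.T, ∑ i ∈ s, ∑ j ∈ s.erase i, I.g v i j = 0 := by
    rw [sum_comm]
    apply sum_eq_zero
    intro i hi
    rw [sum_comm]
    apply sum_eq_zero
    intro j hj
    rw [mem_erase] at hj
    exact I.sum_g (hs i hi) (hs j hj.2) (Ne.symm hj.1)
  have hloc : ∀ v ∈ I.T, (2 * (2 * (R + 1) - 1) : ℝ) * ((R + 1) * (c.c0 / 2 * I.ε v)) ≤
      ∑ i ∈ s, ∑ j ∈ s.erase i, I.g v i j := by
    intro v hv
    obtain ⟨A, B, hE, hsum⟩ := I.exists_lb_matching hR hv s hs hcard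
    obtain ⟨b, hb⟩ := (hstar v hv).exists_split (by omega)
    have hgb : ∀ i ∈ s, ∀ j ∈ s, i ≠ j → I.g v i j = (b (I.x i) + I.β v i) + (b (I.x j) + I.β v j) := by
      intro i hi j hj hij
      unfold g
      rw [hb (I.x i) (mem_image_of_mem _ hi) (I.x j) (mem_image_of_mem _ hj)
        fun h => hij (hinj hi hj h)]
      ring
    set w : ℕ → ℝ := fun i => b (I.x i) + I.β v i with hw
    have h1 : ∑ i, I.g v (A i) (B i) = ∑ i ∈ s, w i := by
      rw [hE.sum, ← sum_add_distrib]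
      apply sum_congr rfl
      intro i _
      exact hgb _ (hE.memA i) _ (hE.memB i) (hE.ne i i)
    have h2 : ∑ i ∈ s, ∑ j ∈ s.erase i, I.g v i j = (2 * (2 * (R + 1) - 1) : ℝ) * ∑ i ∈ s, w i := by
      have h3 : ∀ i ∈ s, ∑ j ∈ s.erase i, I.g v i j = ((2 * (R + 1) - 1 : ℝ)) * w i + (∑ j ∈ s, w j - w i) := by
        intro i hi
        rw [sum_congr rfl (fun j hj => hgb i hi j (mem_erase.mp hj).2 (Ne.symm (mem_erase.mp hj).1)),
          sum_add_distrib, sum_const, card_erase_of_mem hi, hcard, nsmul_eq_mul,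
          ← add_sum_erase s _ hi]
        rw [Nat.cast_sub (by omega)]
        push_cast
        simp only [hw]
        ring
      rw [sum_congr rfl h3, sum_add_distrib, ← mul_sum, sum_sub_distrib, sum_const, hcard, nsmul_eq_mul]
      push_cast
      ring
    rw [h2, ← h1]
    apply mul_le_mul_of_nonneg_left hsum
    have : (0 : ℝ) ≤ R := Nat.cast_nonneg R
    linarith
  have h1 := sum_le_sum hloc
  rw [htot, ← mul_sum, ← mul_sum, ← mul_sum] at h1
  have hRr : (0 : ℝ) ≤ R := Nat.cast_nonneg R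
  have hc0 := c.hc0
  by_contra hpos
  push Not at hpos
  have : 0 < (2 * (2 * (R + 1) - 1) : ℝ) * ((R + 1) * (c.c0 / 2 * I.h)) := by
    have h2 : (0 : ℝ) < 2 * (2 * (R + 1) - 1) := by linarith
    positivity
  unfold h at this
  linarith

/-- closeness at a good place persists -/
lemma persist_iter {v : V} (hv : v ∈ I.T) (hε : I.ε v = 0) {i j : ℕ} (hij : i < j)
    (h : c.c1 ≤ I.g v i j) : ∀ t, j + t ≤ N → c.c1 ≤ I.g v (i + t) (j + t) := by
  intro t
  induction t with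
  | zero => intro _; exact h
  | succ t ih =>
    intro ht
    exact I.persist v hv hε (i + t) (j + t) (by omega) (by omega) (ih (by omega))

lemma persist_mul {v : V} (hv : v ∈ I.T) (hε : I.ε v = 0) {i m : ℕ} (hm : 1 ≤ m)
    (h : c.c1 ≤ I.g v i (i + m)) {n : ℕ} (hn : i ≤ n) : ∀ q, 1 ≤ q → n + q * m ≤ N →
      c.c1 ≤ I.g v n (n + q * m) := by
  intro q
  induction q with
  | zero => intro h0; omega
  | succ q ih =>
    intro _ hq
    have hstep : ∀ a, i ≤ a → a + m ≤ N → c.c1 ≤ I.g v a (a + m) := by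
      intro a ha haN
      have := I.persist_iter hv hε (by omega) h (a - i) (by omega)
      rwa [show i + (a - i) = a by omega, show i + m + (a - i) = a + m by omega] at this
    rw [Nat.succ_mul] at hq ⊢
    rcases Nat.eq_zero_or_pos q with rfl | hq0
    · rw [zero_mul, zero_add]
      exact hstep n hn (by omega)
    · have h1 := ih hq0 (by omega)
      have h2 := hstep (n + q * m) (by omega) (by omega)
      have hqm : 1 ≤ q * m := Nat.mul_pos hq0 hm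
      rw [show n + (q * m + m) = n + q * m + m by ring]
      exact I.trans v hv hε n (n + q * m) (n + q * m + m) (by omega) (by omega) (by omega) h1 h2

end GInst

end Pool.Agent.Helper33.UB
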