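import Pool.Agent.Helper33.UB.Height
import Pool.Agent.Helper55.RD.Comb

/-!
# Small total badness implies that all cross ratios are constant
-/

set_option autoImplicit false

open Finset Polynomial

namespace Pool.Agent.Helper33.UB

/-- iterated Ramsey numbers -/
def Rm (n0 : ℕ) : ℕ → ℕ
  | 0 => 2
  | s + 1 => Pool.Agent.Helper55.RD.ram (n0 + 1) (Rm n0 s)

lemma exists_pair {V : Type*} (n0 : ℕ) (good : V → ℕ → ℕ → Prop)
    (hsym : ∀ v i j, good v i j → good v j i) (U : Finset ℕ) (S : Finset V)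
    (hS : ∀ v ∈ S, ∀ s ⊆ U, n0 < s.card → ∃ i ∈ s, ∃ j ∈ s, i ≠ j ∧ good v i j) :
    ∀ T ⊆ U, Rm n0 S.card ≤ T.card → ∃ i ∈ T, ∃ j ∈ T, i ≠ j ∧ ∀ v ∈ S, good v i j := by
  classical
  induction S using Finset.induction_on with
  | empty =>
    intro T _ hT
    rw [card_empty] at hT
    have h1 : 1 < T.card := by
      change 2 ≤ T.card at hT
      omega
    obtain ⟨i, hi, j, hj, hij⟩ := one_lt_card.mp h1
    exact ⟨i, hi, j, hj, hij, by simp⟩
  | insert v S hv ih =>
    intro T hTU hT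
    rw [card_insert_of_notMem hv] at hT
    change Pool.Agent.Helper55.RD.ram (n0 + 1) (Rm n0 S.card) ≤ T.card at hT
    rcases Pool.Agent.Helper55.RD.ramsey (fun i j => ¬ good v i j)
      (fun i j h h' => h (hsym _ _ _ h')) (n0 + 1) (Rm n0 S.card) T hT with
      ⟨A, hA, hAc, hAP⟩ | ⟨B, hB, hBc, hBP⟩
    · exfalso
      obtain ⟨i, hi, j, hj, hij, hg⟩ := hS v (mem_insert_self _ _) A (hA.trans hTU) (by omega)
      exact hAP i hi j hj hij hg
    · obtain ⟨i, hi, j, hj, hij, hg⟩ := ih (fun v hv => hS v (mem_insert_of_mem hv)) B (hB.trans hTU)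
        hBc.ge
      refine ⟨i, hB hi, j, hB hj, hij, ?_⟩
      intro w hw
      rcases mem_insert.mp hw with rfl | hw
      · exact not_not.mp (hBP i hi j hj hij)
      · exact hg w hw

/-- small total badness is zero -/
theorem h_eq_zero_of_small (c : GConst) (H0 : ℝ) : ∃ N2 : ℕ, ∀ {k K V : Type} [Field k] [Field K]
    [Algebra k K] [DecidableEq K] (P : PSys k K V) (M : ℝ) (N : ℕ), N2 ≤ N →
    ∀ I : GInst P c N M, I.h ≤ H0 → I.h = 0 := by
  classical
  refine ⟨∑ s ∈ range (⌊H0 / c.δ0⌋₊ + 1), Rm c.N0 s, ?_⟩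
  intro k K V _ _ _ _ P M N hN I hI
  have hδ := c.hδ0
  have hc0 := c.hc0
  set S := I.T.filter fun v => 0 < I.ε v with hS
  have h1 := I.card_bad hδ S (filter_subset _ _) (fun v hv => I.disc v (mem_filter.mp hv).1
    (mem_filter.mp hv).2)
  have h2 : S.card ≤ ⌊H0 / c.δ0⌋₊ := by
    apply Nat.le_floor
    refine h1.trans ?_
    exact div_le_div_of_nonneg_right hI hδ.le
  have h3 : Rm c.N0 S.card ≤ (range (N + 1)).card := by
    rw [card_range]
    have := single_le_sum (f := fun s => Rm c.N0 s) (fun _ _ => Nat.zero_le _)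
      (mem_range.mpr (by omega : S.card < ⌊H0 / c.δ0⌋₊ + 1))
    omega
  obtain ⟨i, hi, j, hj, hij, hg⟩ := exists_pair c.N0 (fun v i j => c.c0 * I.ε v ≤ I.g v i j)
    (fun v i j h => by rw [I.g_comm]; exact h) (range (N + 1)) S (by
      intro v hv s hs hcard
      exact I.lb v (mem_filter.mp hv).1 s (fun i hi => by
        have := mem_range.mp (hs hi)
        omega) hcard) (range (N + 1)) subset_rfl h3
  rw [mem_range] at hi hj
  have hsum := I.sum_g (by omega : i ≤ N) (by omega : j ≤ N) hij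
  have hle : ∀ v ∈ I.T, c.c0 * I.ε v ≤ I.g v i j := by
    intro v hv
    by_cases hpos : 0 < I.ε v
    · exact hg v (mem_filter.mpr ⟨hv, hpos⟩)
    · have h0 : I.ε v = 0 := le_antisymm (not_lt.mp hpos) (I.ε_nonneg v hv)
      have := I.lower v hv i j (by omega) (by omega) hij
      rw [h0] at this ⊢
      unfold GInst.g
      linarith
  have h4 : ∑ v ∈ I.T, c.c0 * I.ε v ≤ 0 := by
    rw [← hsum]
    exact sum_le_sum hle
  rw [← mul_sum] at h4
  change c.c0 * I.h ≤ 0 at h4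
  have h5 := I.h_nonneg
  nlinarith

namespace GInst

variable {k K V : Type} [Field k] [Field K] [Algebra k K] [DecidableEq K] {P : PSys k K V}
  {c : GConst} {N : ℕ} {M : ℝ} (I : GInst P c N M)

lemma g_eq_zero (h0 : I.h = 0) {i j : ℕ} (hi : i ≤ N) (hj : j ≤ N) (hij : i ≠ j) {v : V}
    (hv : v ∈ I.T) : I.g v i j = 0 := by
  have hε : ∀ v ∈ I.T, I.ε v = 0 := (sum_eq_zero_iff_of_nonneg I.ε_nonneg).mp h0
  have hnn : ∀ v ∈ I.T, 0 ≤ I.g v i j := by
    intro v hv
    have := I.lower v hv i j hi hj hij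
    rw [hε v hv] at this
    unfold GInst.g
    linarith
  exact (sum_eq_zero_iff_of_nonneg hnn).mp (I.sum_g hi hj hij) v hv

/-- cross ratios are constant -/
theorem cross_const (h0 : I.h = 0) {i j l m : ℕ} (hi : i ≤ N) (hj : j ≤ N) (hl : l ≤ N) (hm : m ≤ N)
    (hil : i ≠ l) (him : i ≠ m) (hjl : j ≠ l) (hjm : j ≠ m) :
    ∃ c : k, algebraMap k K c =
      (I.x i - I.x l) * (I.x j - I.x m) / ((I.x i - I.x m) * (I.x j - I.x l)) := by
  have hne : ∀ a b, a ≤ N → b ≤ N → a ≠ b → I.x a - I.x b ≠ 0 := fun a b ha hb hab =>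
    sub_ne_zero.mpr fun e => hab (I.inj a b ha hb e)
  have n1 := hne i l hi hl hil
  have n2 := hne j m hj hm hjm
  have n3 := hne i m hi hm him
  have n4 := hne j l hj hl hjl
  apply P.const
  · exact div_ne_zero (mul_ne_zero n1 n2) (mul_ne_zero n3 n4)
  · intro v
    rw [DV.o_div _ _ _ (mul_ne_zero n1 n2) (mul_ne_zero n3 n4), (P.pl v).mul _ _ n1 n2,
      (P.pl v).mul _ _ n3 n4]
    by_cases hv : v ∈ I.T
    · have e1 := I.g_eq_zero h0 hi hl hil hv
      have e2 := I.g_eq_zero h0 hj hm hjm hv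
      have e3 := I.g_eq_zero h0 hi hm him hv
      have e4 := I.g_eq_zero h0 hj hl hjl hv
      unfold GInst.g at e1 e2 e3 e4
      have : (((P.pl v).o (I.x i - I.x l) + (P.pl v).o (I.x j - I.x m) -
          ((P.pl v).o (I.x i - I.x m) + (P.pl v).o (I.x j - I.x l)) : ℤ) : ℝ) = 0 := by
        push_cast
        linarith
      exact_mod_cast this
    · rw [I.Tx v hv i l hi hl hil, I.Tx v hv j m hj hm hjm, I.Tx v hv i m hi hm him,
        I.Tx v hv j l hj hl hjl]
      norm_num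

end GInst

end Pool.Agent.Helper33.UB
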