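import Pool.Agent.Helper33.PSys
import Pool.Agent.Helper33.DVBasic

/-!
# The Arakelov matching inequality
-/

set_option autoImplicit false

open Finset Polynomial

namespace Pool.Agent.Helper33.UB

/-- signs making a quadratic form nonpositive -/
lemma exists_signs {ι : Type*} [DecidableEq ι] (ψ : ι → ι → ℤ) (hsym : ∀ i j, ψ i j = ψ j i)
    (hdiag : ∀ i, ψ i i = 0) (s : Finset ι) :
    ∃ ε : ι → ℤ, (∀ i, ε i = 1 ∨ ε i = -1) ∧ ∑ i ∈ s, ∑ j ∈ s, ε i * ε j * ψ i j ≤ 0 := by
  induction s using Finset.induction_on with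
  | empty => exact ⟨fun _ => 1, fun _ => Or.inl rfl, by simp⟩
  | insert a s ha ih =>
    obtain ⟨ε, hε, hsum⟩ := ih
    set σ : ℤ := ∑ j ∈ s, ε j * ψ a j with hσ
    set c : ℤ := if 0 ≤ σ then -1 else 1 with hc
    have hcσ : c * σ ≤ 0 := by
      rw [hc]; split_ifs with h
      · linarith
      · linarith
    refine ⟨Function.update ε a c, ?_, ?_⟩
    · intro i
      by_cases hi : i = a
      · subst hi
        rw [Function.update_self, hc]
        split_ifs
        · exact Or.inr rfl
        · exact Or.inl rfl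
      · rw [Function.update_of_ne hi]
        exact hε i
    · have hne : ∀ i ∈ s, i ≠ a := by
        rintro i hi rfl; exact ha hi
      have h1 : ∀ i ∈ s, Function.update ε a c i = ε i := fun i hi =>
        Function.update_of_ne (hne i hi) _ _
      rw [sum_insert ha, sum_insert ha, Function.update_self, hdiag, mul_zero, zero_add]
      have e1 : ∑ j ∈ s, c * Function.update ε a c j * ψ a j = c * σ := by
        rw [hσ, mul_sum]
        apply sum_congr rfl
        intro j hj
        rw [h1 j hj]; ring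
      have e2 : ∑ i ∈ s, ∑ j ∈ insert a s, Function.update ε a c i * Function.update ε a c j * ψ i j =
          c * σ + ∑ i ∈ s, ∑ j ∈ s, ε i * ε j * ψ i j := by
        rw [hσ, mul_sum, ← sum_add_distrib]
        apply sum_congr rfl
        intro i hi
        rw [sum_insert ha, Function.update_self, h1 i hi, hsym i a]
        congr 1
        · ring
        · apply sum_congr rfl
          intro j hj
          rw [h1 j hj]
      rw [e1, e2]
      linarith

/-- An enumeration of `I` by pairs. -/
structure Enum {α : Type*} [DecidableEq α] (I : Finset α) {m : ℕ} (A B : Fin m → α) : Prop where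
  injA : Function.Injective A
  injB : Function.Injective B
  ne : ∀ i j, A i ≠ B j
  cover : I = univ.image A ∪ univ.image B

section enum

variable {α : Type*} [DecidableEq α] {I : Finset α} {m : ℕ} {A B : Fin m → α}

lemma Enum.sum (h : Enum I A B) {M : Type*} [AddCommMonoid M] (F : α → M) :
    ∑ x ∈ I, F x = ∑ i, F (A i) + ∑ i, F (B i) := by
  rw [h.cover, sum_union, sum_image, sum_image]
  · intro i _ j _ hij; exact h.injB hij
  · intro i _ j _ hij; exact h.injA hij
  · rw [disjoint_left]
    intro x hx hx'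
    obtain ⟨i, _, rfl⟩ := mem_image.mp hx
    obtain ⟨j, _, hj⟩ := mem_image.mp hx'
    exact h.ne i j hj.symm

lemma Enum.memA (h : Enum I A B) (i : Fin m) : A i ∈ I := by
  rw [h.cover]; exact mem_union_left _ (mem_image_of_mem _ (mem_univ i))

lemma Enum.memB (h : Enum I A B) (i : Fin m) : B i ∈ I := by
  rw [h.cover]; exact mem_union_right _ (mem_image_of_mem _ (mem_univ i))

lemma Enum.swap (h : Enum I A B) (p : Fin m → Prop) [DecidablePred p] :
    Enum I (fun i => if p i then A i else B i) (fun i => if p i then B i else A i) := by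
  refine ⟨?_, ?_, ?_, ?_⟩
  · intro i j hij
    simp only at hij
    split_ifs at hij
    · exact h.injA hij
    · exact absurd hij (h.ne _ _)
    · exact absurd hij.symm (h.ne _ _)
    · exact h.injB hij
  · intro i j hij
    simp only at hij
    split_ifs at hij
    · exact h.injB hij
    · exact absurd hij.symm (h.ne _ _)
    · exact absurd hij (h.ne _ _)
    · exact h.injA hij
  · intro i j hij
    split_ifs at hij with h1 h2 h2
    · exact h.ne _ _ hij
    · have := h.injA hij; subst this; exact h2 h1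
    · have := h.injB hij; subst this; exact h1 h2
    · exact h.ne _ _ hij.symm
  · ext x
    rw [h.cover]
    simp only [mem_union, mem_image, mem_univ, true_and]
    constructor
    · rintro (⟨i, rfl⟩ | ⟨i, rfl⟩)
      · by_cases hp : p i
        · left; exact ⟨i, by rw [if_pos hp]⟩
        · right; exact ⟨i, by rw [if_neg hp]⟩
      · by_cases hp : p i
        · right; exact ⟨i, by rw [if_pos hp]⟩
        · left; exact ⟨i, by rw [if_neg hp]⟩
    · rintro (⟨i, rfl⟩ | ⟨i, rfl⟩)
      · by_cases hp : p i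
        · left; exact ⟨i, by rw [if_pos hp]⟩
        · right; exact ⟨i, by rw [if_neg hp]⟩
      · by_cases hp : p i
        · right; exact ⟨i, by rw [if_pos hp]⟩
        · left; exact ⟨i, by rw [if_neg hp]⟩

end enum

variable {K : Type*} [Field K] [DecidableEq K]

/-- `ω_x = Dx / ∏_{y ≠ x} (x - y)` -/
noncomputable def om (D : K → K) (I : Finset K) (x : K) : K := D x / ∏ y ∈ I.erase x, (x - y)

/-- the Hankel matrix of moments -/
noncomputable def hankel (D : K → K) (I : Finset K) (r : ℕ) : Matrix (Fin r) (Fin r) K :=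
  Matrix.of fun a b => ∑ x ∈ I, om D I x * x ^ ((a : ℕ) + (b : ℕ))

/-- the polynomial vanishing at all `a t`, `t ≠ s` -/
noncomputable def nod {r : ℕ} (a : Fin r → K) (s : Fin r) : K[X] := ∏ t ∈ univ.erase s, (X - C (a t))

lemma nod_eval {r : ℕ} (a : Fin r → K) (s : Fin r) (z : K) :
    (nod a s).eval z = ∏ t ∈ univ.erase s, (z - a t) := by
  unfold nod
  rw [eval_prod]
  simp

lemma nod_natDegree {r : ℕ} (a : Fin r → K) (s : Fin r) : (nod a s).natDegree < r := by
  unfold nod
  rw [natDegree_prod_of_monic _ _ (fun t _ => monic_X_sub_C (a t))]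
  simp only [natDegree_X_sub_C, sum_const, smul_eq_mul, mul_one]
  rw [card_erase_of_mem (mem_univ s), card_univ, Fintype.card_fin]
  have := s.pos
  omega

/-- coefficient matrix of the nodal polynomials -/
noncomputable def cm {r : ℕ} (a : Fin r → K) : Matrix (Fin r) (Fin r) K :=
  Matrix.of fun s j => (nod a s).coeff j

lemma cm_sum {r : ℕ} (a : Fin r → K) (s : Fin r) (z : K) :
    ∑ j : Fin r, cm a s j * z ^ (j : ℕ) = (nod a s).eval z := by
  rw [eval_eq_sum_range' (nod_natDegree a s)]
  unfold cm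
  simp only [Matrix.of_apply]
  exact (Finset.sum_range fun i => (nod a s).coeff i * z ^ i).symm

lemma cm_mul_vandermonde {r : ℕ} (a : Fin r → K) :
    cm a * (Matrix.vandermonde a).transpose =
      Matrix.diagonal fun s => ∏ t ∈ univ.erase s, (a s - a t) := by
  ext s t
  rw [Matrix.mul_apply]
  simp only [Matrix.transpose_apply, Matrix.vandermonde_apply]
  rw [cm_sum, nod_eval]
  by_cases hst : s = t
  · subst hst
    rw [Matrix.diagonal_apply_eq]
  · rw [Matrix.diagonal_apply_ne _ hst]
    exact prod_eq_zero (mem_erase.mpr ⟨fun h => hst h.symm, mem_univ t⟩) (sub_self _)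

lemma det_cm_mul {r : ℕ} (a : Fin r → K) :
    (cm a).det * ∏ i : Fin r, ∏ j ∈ Ioi i, (a j - a i) = ∏ s : Fin r, ∏ t ∈ univ.erase s, (a s - a t) := by
  rw [← Matrix.det_vandermonde, ← Matrix.det_transpose (Matrix.vandermonde a), ← Matrix.det_mul,
    cm_mul_vandermonde, Matrix.det_diagonal]

/-- symmetric version of the order of a difference -/
def od (v : DV K) (x y : K) : ℤ := if x = y then 0 else v.o (x - y)

lemma od_comm (v : DV K) (x y : K) : od v x y = od v y x := by
  unfold od
  by_cases h : x = y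
  · simp [h]
  · rw [if_neg h, if_neg (Ne.symm h), v.o_sub_comm]

lemma od_self (v : DV K) (x : K) : od v x x = 0 := by
  unfold od; simp

lemma od_of_ne (v : DV K) {x y : K} (h : x ≠ y) : od v x y = v.o (x - y) := by
  unfold od; rw [if_neg h]

lemma sum_Ioi {r : ℕ} (φ : Fin r → Fin r → ℤ) (hsym : ∀ i j, φ i j = φ j i) (hdiag : ∀ i, φ i i = 0) :
    ∑ i, ∑ j, φ i j = 2 * ∑ i, ∑ j ∈ Ioi i, φ j i := by
  have h1 : ∀ i, ∑ j, φ i j = ∑ j ∈ Iio i, φ i j + ∑ j ∈ Ioi i, φ i j := by
    intro i
    have : (univ : Finset (Fin r)) = insert i (Iio i ∪ Ioi i) := by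
      ext j
      simp only [mem_univ, mem_insert, mem_union, mem_Iio, mem_Ioi, true_iff]
      rcases lt_trichotomy j i with h | h | h
      · exact Or.inr (Or.inl h)
      · exact Or.inl h
      · exact Or.inr (Or.inr h)
    rw [this, sum_insert (by simp), hdiag, zero_add, sum_union]
    rw [disjoint_left]
    intro j hj hj'
    rw [mem_Iio] at hj
    rw [mem_Ioi] at hj'
    exact lt_asymm hj hj'
  rw [sum_congr rfl (fun i _ => h1 i), sum_add_distrib]
  have h2 : ∑ i, ∑ j ∈ Iio i, φ i j = ∑ i, ∑ j ∈ Ioi i, φ j i := by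
    rw [Finset.sum_sigma', Finset.sum_sigma']
    apply sum_nbij' (fun x => ⟨x.2, x.1⟩) (fun x => ⟨x.2, x.1⟩)
    · rintro ⟨i, j⟩ h
      simp only [mem_sigma, mem_univ, mem_Iio, true_and] at h
      simp only [mem_sigma, mem_univ, mem_Ioi, true_and]
      exact h
    · rintro ⟨i, j⟩ h
      simp only [mem_sigma, mem_univ, mem_Ioi, true_and] at h
      simp only [mem_sigma, mem_univ, mem_Iio, true_and]
      exact h
    · rintro ⟨i, j⟩ _; rfl
    · rintro ⟨i, j⟩ _; rfl
    · rintro ⟨i, j⟩ _; rfl
  have h3 : ∑ i, ∑ j ∈ Ioi i, φ i j = ∑ i, ∑ j ∈ Ioi i, φ j i :=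
    sum_congr rfl fun i _ => sum_congr rfl fun j _ => hsym i j
  rw [h2, h3]
  ring

lemma two_mul_o_det_cm {r : ℕ} (v : DV K) (a : Fin r → K) (ha : Function.Injective a) :
    (cm a).det ≠ 0 ∧ 2 * v.o (cm a).det = ∑ i, ∑ j, od v (a i) (a j) := by
  have hne : ∀ i j, i ≠ j → a i - a j ≠ 0 := fun i j hij => sub_ne_zero.mpr fun h => hij (ha h)
  have hV : ∏ i : Fin r, ∏ j ∈ Ioi i, (a j - a i) ≠ 0 := by
    rw [prod_ne_zero_iff]
    intro i _
    rw [prod_ne_zero_iff]
    intro j hj
    exact hne j i (ne_of_gt (mem_Ioi.mp hj))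
  have hR : ∏ s : Fin r, ∏ t ∈ univ.erase s, (a s - a t) ≠ 0 := by
    rw [prod_ne_zero_iff]
    intro i _
    rw [prod_ne_zero_iff]
    intro j hj
    exact hne i j (Ne.symm (mem_erase.mp hj).1)
  have hdet : (cm a).det ≠ 0 := by
    intro h
    have := det_cm_mul a
    rw [h, zero_mul] at this
    exact hR this.symm
  refine ⟨hdet, ?_⟩
  have h1 : v.o ((cm a).det * ∏ i : Fin r, ∏ j ∈ Ioi i, (a j - a i)) =
      v.o (∏ s : Fin r, ∏ t ∈ univ.erase s, (a s - a t)) := by rw [det_cm_mul]
  rw [v.mul _ _ hdet hV, v.o_prod _ _ (fun i _ => ?_), v.o_prod _ _ (fun i _ => ?_)] at h1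
  rotate_left
  · rw [prod_ne_zero_iff]
    intro j hj
    exact hne i j (Ne.symm (mem_erase.mp hj).1)
  · rw [prod_ne_zero_iff]
    intro j hj
    exact hne j i (ne_of_gt (mem_Ioi.mp hj))
  have h2 : ∑ i : Fin r, v.o (∏ j ∈ Ioi i, (a j - a i)) = ∑ i, ∑ j ∈ Ioi i, od v (a j) (a i) := by
    apply sum_congr rfl
    intro i _
    rw [v.o_prod _ _ (fun j hj => hne j i (ne_of_gt (mem_Ioi.mp hj)))]
    apply sum_congr rfl
    intro j hj
    rw [od_of_ne v fun h => (ne_of_gt (mem_Ioi.mp hj)) (ha h)]
  have h3 : ∑ s : Fin r, v.o (∏ t ∈ univ.erase s, (a s - a t)) = ∑ i, ∑ j, od v (a i) (a j) := by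
    apply sum_congr rfl
    intro i _
    rw [v.o_prod _ _ (fun j hj => hne i j (Ne.symm (mem_erase.mp hj).1))]
    rw [← add_sum_erase univ _ (mem_univ i), od_self, zero_add]
    apply sum_congr rfl
    intro j hj
    rw [od_of_ne v fun h => (Ne.symm (mem_erase.mp hj).1) (ha h)]
  have h4 := sum_Ioi (fun i j => od v (a i) (a j)) (fun i j => od_comm v _ _) (fun i => od_self v _)
  rw [h2, h3] at h1
  linarith

/-- the four point sum -/
noncomputable def tau (D : K → K) (F : Finset K) : K := ∑ x ∈ F, om D F x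

lemma entry_eq (D : K → K) {I : Finset K} {r : ℕ} {A B : Fin (r + 1) → K} (h : Enum I A B)
    (s t : Fin r) :
    (cm (fun i : Fin r => A i.succ) * hankel D I r * (cm fun i : Fin r => B i.succ).transpose) s t =
      tau D {A s.succ, B t.succ, A 0, B 0} := by
  set a : Fin r → K := fun i => A i.succ with ha
  set b : Fin r → K := fun i => B i.succ with hb
  have h1 : (cm a * hankel D I r * (cm b).transpose) s t =
      ∑ x ∈ I, om D I x * ((nod a s).eval x * (nod b t).eval x) := by
    have e : ∀ x, (nod a s).eval x * (nod b t).eval x =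
        ∑ i : Fin r, ∑ j : Fin r, cm a s i * cm b t j * x ^ ((i : ℕ) + (j : ℕ)) := by
      intro x
      rw [← cm_sum, ← cm_sum, sum_mul_sum]
      apply sum_congr rfl
      intro i _
      apply sum_congr rfl
      intro j _
      rw [pow_add]; ring
    simp only [e, Matrix.mul_apply, Matrix.transpose_apply, hankel, Matrix.of_apply, mul_sum, sum_mul]
    rw [sum_comm]
    calc _ = ∑ i : Fin r, ∑ j : Fin r, ∑ x ∈ I, cm a s i * (om D I x * x ^ ((i : ℕ) + (j : ℕ))) * cm b t j := rfl
      _ = ∑ i : Fin r, ∑ x ∈ I, ∑ j : Fin r, cm a s i * (om D I x * x ^ ((i : ℕ) + (j : ℕ))) * cm b t j :=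
          sum_congr rfl fun i _ => sum_comm
      _ = ∑ x ∈ I, ∑ i : Fin r, ∑ j : Fin r, cm a s i * (om D I x * x ^ ((i : ℕ) + (j : ℕ))) * cm b t j :=
          sum_comm
      _ = _ := by
          apply sum_congr rfl
          intro x _
          apply sum_congr rfl
          intro i _
          apply sum_congr rfl
          intro j _
          ring
  rw [h1]
  set F : Finset K := {A s.succ, B t.succ, A 0, B 0} with hF
  have hFI : F ⊆ I := by
    intro x hx
    rw [hF] at hx
    simp only [mem_insert, mem_singleton] at hx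
    rcases hx with rfl | rfl | rfl | rfl
    · exact h.memA _
    · exact h.memB _
    · exact h.memA _
    · exact h.memB _
  have hdiff : I \ F = (univ.erase s).image a ∪ (univ.erase t).image b := by
    ext x
    rw [mem_sdiff, h.cover, hF]
    simp only [mem_union, mem_image, mem_univ, true_and, mem_insert, mem_singleton, mem_erase, not_or,
      and_true, ha, hb]
    constructor
    · rintro ⟨⟨i, rfl⟩ | ⟨i, rfl⟩, h1, h2, h3, h4⟩
      · left
        have hi0 : i ≠ 0 := by rintro rfl; exact h3 rfl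
        obtain ⟨j, rfl⟩ := Fin.exists_succ_eq.mpr hi0
        exact ⟨j, fun hj => h1 (by rw [hj]), rfl⟩
      · right
        have hi0 : i ≠ 0 := by rintro rfl; exact h4 rfl
        obtain ⟨j, rfl⟩ := Fin.exists_succ_eq.mpr hi0
        exact ⟨j, fun hj => h2 (by rw [hj]), rfl⟩
    · rintro (⟨j, hj, rfl⟩ | ⟨j, hj, rfl⟩)
      · refine ⟨Or.inl ⟨_, rfl⟩, ?_, ?_, ?_, ?_⟩
        · intro e; exact hj (Fin.succ_injective _ (h.injA e))
        · exact h.ne _ _
        · intro e; exact Fin.succ_ne_zero _ (h.injA e)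
        · exact h.ne _ _
      · refine ⟨Or.inr ⟨_, rfl⟩, ?_, ?_, ?_, ?_⟩
        · exact (h.ne _ _).symm
        · intro e; exact hj (Fin.succ_injective _ (h.injB e))
        · exact (h.ne _ _).symm
        · intro e; exact Fin.succ_ne_zero _ (h.injB e)
  have hprod : ∀ x, ∏ y ∈ I \ F, (x - y) = (nod a s).eval x * (nod b t).eval x := by
    intro x
    rw [hdiff, prod_union, prod_image, prod_image, nod_eval, nod_eval]
    · intro i _ j _ hij; exact Fin.succ_injective _ (h.injB hij)
    · intro i _ j _ hij; exact Fin.succ_injective _ (h.injA hij)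
    · rw [disjoint_left]
      intro x hx hx'
      obtain ⟨i, _, rfl⟩ := mem_image.mp hx
      obtain ⟨j, _, hj⟩ := mem_image.mp hx'
      exact h.ne _ _ hj.symm
  unfold tau
  rw [← sum_subset hFI]
  · apply sum_congr rfl
    intro x hx
    unfold om
    have herase : I.erase x = (I \ F) ∪ F.erase x := by
      ext y
      simp only [mem_erase, mem_union, mem_sdiff]
      constructor
      · rintro ⟨h1, h2⟩
        by_cases hy : y ∈ F
        · exact Or.inr ⟨h1, hy⟩
        · exact Or.inl ⟨h2, hy⟩
      · rintro (⟨h1, h2⟩ | ⟨h1, h2⟩)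
        · refine ⟨?_, h1⟩
          rintro rfl; exact h2 hx
        · exact ⟨h1, hFI h2⟩
    have hdisj : Disjoint (I \ F) (F.erase x) := by
      rw [disjoint_left]
      intro y hy hy'
      exact (mem_sdiff.mp hy).2 (mem_of_mem_erase hy')
    rw [herase, prod_union hdisj, ← hprod]
    have hne : ∏ y ∈ I \ F, (x - y) ≠ 0 := by
      rw [prod_ne_zero_iff]
      intro y hy
      apply sub_ne_zero.mpr
      rintro rfl
      exact (mem_sdiff.mp hy).2 hx
    rw [mul_comm, ← mul_div_assoc, mul_div_mul_left _ _ hne]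
  · intro x hx hxF
    rw [← hprod]
    have : ∏ y ∈ I \ F, (x - y) = 0 := prod_eq_zero (mem_sdiff.mpr ⟨hx, hxF⟩) (sub_self x)
    rw [this, mul_zero]

end Pool.Agent.Helper33.UB
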