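import Pool.Agent.Helper33.UB.AM2

/-!
# Greedy matchings and stars
-/

set_option autoImplicit false

open Finset

namespace Pool.Agent.Helper33.UB

section greedy

variable {α : Type*} [DecidableEq α]

/-- adding a pair to an enumeration -/
lemma Enum.cons {I : Finset α} {m : ℕ} {A B : Fin m → α} {a b : α} (ha : a ∈ I) (hb : b ∈ I)
    (hab : a ≠ b) (h : Enum ((I.erase a).erase b) A B) :
    Enum I (Fin.cons a A : Fin (m + 1) → α) (Fin.cons b B : Fin (m + 1) → α) := by
  have hA : ∀ i, A i ≠ b ∧ A i ≠ a ∧ A i ∈ I := by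
    intro i
    have := h.memA i
    rw [mem_erase, mem_erase] at this
    exact ⟨this.1, this.2.1, this.2.2⟩
  have hB : ∀ i, B i ≠ b ∧ B i ≠ a ∧ B i ∈ I := by
    intro i
    have := h.memB i
    rw [mem_erase, mem_erase] at this
    exact ⟨this.1, this.2.1, this.2.2⟩
  refine ⟨?_, ?_, ?_, ?_⟩
  · rw [Fin.cons_injective_iff]
    refine ⟨?_, h.injA⟩
    rintro ⟨i, hi⟩
    exact (hA i).2.1 hi
  · rw [Fin.cons_injective_iff]
    refine ⟨?_, h.injB⟩
    rintro ⟨i, hi⟩
    exact (hB i).1 hi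
  · intro i j
    refine Fin.cases ?_ (fun i => ?_) i
    · refine Fin.cases ?_ (fun j => ?_) j
      · exact hab
      · exact Ne.symm (hB j).2.1
    · refine Fin.cases ?_ (fun j => ?_) j
      · exact (hA i).1
      · exact h.ne i j
  · ext x
    simp only [mem_union, mem_image, mem_univ, true_and]
    constructor
    · intro hx
      by_cases hxa : x = a
      · left; exact ⟨0, by rw [hxa]; rfl⟩
      by_cases hxb : x = b
      · right; exact ⟨0, by rw [hxb]; rfl⟩
      have hx' : x ∈ (I.erase a).erase b := mem_erase.mpr ⟨hxb, mem_erase.mpr ⟨hxa, hx⟩⟩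
      rw [h.cover] at hx'
      rcases mem_union.mp hx' with h1 | h1
      · obtain ⟨i, _, rfl⟩ := mem_image.mp h1
        left; exact ⟨i.succ, rfl⟩
      · obtain ⟨i, _, rfl⟩ := mem_image.mp h1
        right; exact ⟨i.succ, rfl⟩
    · rintro (⟨i, rfl⟩ | ⟨i, rfl⟩)
      · refine Fin.cases ?_ (fun i => ?_) i
        · exact ha
        · exact (hA i).2.2
      · refine Fin.cases ?_ (fun i => ?_) i
        · exact hb
        · exact (hB i).2.2

/-- **Greedy matching.** -/
lemma exists_greedy (Rl : α → α → Prop) [DecidableRel Rl] (N0 : ℕ) (m : ℕ) :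
    ∀ I : Finset α, I.card = 2 * m →
      (∀ s ⊆ I, N0 < s.card → ∃ a ∈ s, ∃ b ∈ s, a ≠ b ∧ Rl a b) →
      ∃ A B : Fin m → α, Enum I A B ∧
        2 * (univ.filter fun i => ¬ Rl (A i) (B i)).card ≤ N0 := by
  induction m with
  | zero =>
    intro I hI _
    rw [mul_zero, card_eq_zero] at hI
    subst hI
    refine ⟨Fin.elim0, Fin.elim0, ⟨fun i => i.elim0, fun i => i.elim0, fun i => i.elim0, ?_⟩, ?_⟩
    · ext x; simp
    · simp
  | succ m ih =>
    intro I hI hR
    have hcard : ∀ a b, a ∈ I → b ∈ I → a ≠ b → ((I.erase a).erase b).card = 2 * m := by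
      intro a b ha hb hab
      rw [card_erase_of_mem (mem_erase.mpr ⟨Ne.symm hab, hb⟩), card_erase_of_mem ha, hI]
      omega
    by_cases hbig : N0 < I.card
    · obtain ⟨a, ha, b, hb, hab, hRab⟩ := hR I Subset.rfl hbig
      obtain ⟨A, B, hE, hbad⟩ := ih ((I.erase a).erase b) (hcard a b ha hb hab) (by
        intro s hs hs2
        exact hR s ((hs.trans (erase_subset _ _)).trans (erase_subset _ _)) hs2)
      refine ⟨_, _, Enum.cons ha hb hab hE, ?_⟩
      have hneg : ¬ ¬ Rl ((Fin.cons a A : Fin (m + 1) → α) 0) ((Fin.cons b B : Fin (m + 1) → α) 0) := by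
        rw [not_not]; exact hRab
      rw [Fin.univ_succ, filter_cons_of_neg (p := fun i => ¬ Rl ((Fin.cons a A : Fin (m + 1) → α) i)
        ((Fin.cons b B : Fin (m + 1) → α) i)) (hp := hneg), filter_map, card_map]
      exact hbad
    · -- everything may be bad
      obtain ⟨a, ha, b, hb, hab⟩ : ∃ a ∈ I, ∃ b ∈ I, a ≠ b := by
        have : 1 < I.card := by omega
        obtain ⟨a, ha, b, hb, hab⟩ := one_lt_card.mp this
        exact ⟨a, ha, b, hb, hab⟩
      obtain ⟨A, B, hE, _⟩ := ih ((I.erase a).erase b) (hcard a b ha hb hab) (by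
        intro s hs hs2
        exact hR s ((hs.trans (erase_subset _ _)).trans (erase_subset _ _)) hs2)
      refine ⟨_, _, Enum.cons ha hb hab hE, ?_⟩
      have h1 := card_filter_le (univ : Finset (Fin (m + 1)))
        (fun i => ¬ Rl ((Fin.cons a A : Fin (m + 1) → α) i) ((Fin.cons b B : Fin (m + 1) → α) i))
      rw [card_univ, Fintype.card_fin] at h1
      omega

/-- a sum over a matching with few bad pairs -/
lemma sum_ge_of_greedy {m : ℕ} (g : Fin m → ℝ) (p : Fin m → Prop) [DecidablePred p] {c e N0 : ℝ}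
    (hc : 0 ≤ c) (he : 0 ≤ e)
    (hbad : 2 * ((univ.filter fun i => ¬ p i).card : ℝ) ≤ N0) (hgood : ∀ i, p i → c ≤ g i)
    (hall : ∀ i, -e ≤ g i) : m * c - N0 / 2 * (c + e) ≤ ∑ i, g i := by
  have h1 : ∀ i, c - (if p i then 0 else c + e) ≤ g i := by
    intro i
    by_cases hp : p i
    · rw [if_pos hp]; have := hgood i hp; linarith
    · rw [if_neg hp]; have := hall i; linarith
  have h2 := sum_le_sum (s := univ) fun i _ => h1 i
  have h3 : ∑ i, (if p i then 0 else c + e) = ((univ.filter fun i => ¬ p i).card : ℝ) * (c + e) := by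
    rw [← sum_filter_add_sum_filter_not univ p]
    rw [sum_congr rfl (fun i hi => if_pos (mem_filter.mp hi).2),
      sum_congr rfl (fun i hi => if_neg (mem_filter.mp hi).2), sum_const_zero, zero_add, sum_const,
      nsmul_eq_mul]
  rw [sum_sub_distrib, sum_const, card_univ, Fintype.card_fin, nsmul_eq_mul, h3] at h2
  have h4 : ((univ.filter fun i => ¬ p i).card : ℝ) * (c + e) ≤ N0 / 2 * (c + e) := by
    apply mul_le_mul_of_nonneg_right _ (by linarith)
    linarith
  linarith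

end greedy

section star

variable {K : Type*} [Field K] [DecidableEq K]

/-- in a star the distances split -/
lemma Star.exists_split {v : DV K} {I : Finset K} (h : Star v I) (hI : 3 ≤ I.card) :
    ∃ b : K → ℝ, ∀ x ∈ I, ∀ y ∈ I, x ≠ y → (v.o (x - y) : ℝ) = b x + b y := by
  obtain ⟨a1, ha1, a2, ha2, a3, ha3, h12, h13, h23⟩ : ∃ a1 ∈ I, ∃ a2 ∈ I, ∃ a3 ∈ I,
      a1 ≠ a2 ∧ a1 ≠ a3 ∧ a2 ≠ a3 := by
    obtain ⟨a1, h1, a2, h2, a3, h3, h4, h5, h6⟩ := two_lt_card.mp (by omega : 2 < I.card)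
    exact ⟨a1, h1, a2, h2, a3, h3, h4, h5, h6⟩
  have hr : ∀ p ∈ I, ∀ q ∈ I, ∀ c ∈ I, ∀ c' ∈ I, p ≠ q → p ≠ c → p ≠ c' → q ≠ c → q ≠ c' → c ≠ c' →
      (v.o (p - q) : ℝ) + v.o (c - c') = v.o (p - c) + v.o (q - c') := by
    intro p hp q hq c hc c' hc' e1 e2 e3 e4 e5 e6
    exact_mod_cast h p hp q hq c hc c' hc' e1 e2 e3 e4 e5 e6
  have hcomm : ∀ x y : K, (v.o (x - y) : ℝ) = v.o (y - x) := fun x y => by rw [v.o_sub_comm]
  set b1 : ℝ := ((v.o (a1 - a2) : ℝ) + v.o (a1 - a3) - v.o (a2 - a3)) / 2 with hb1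
  refine ⟨fun x => if x = a1 then b1 else v.o (x - a1) - b1, ?_⟩
  have key : ∀ x ∈ I, ∀ y ∈ I, x ≠ y → x ≠ a1 → y ≠ a1 →
      (v.o (x - y) : ℝ) = v.o (x - a1) - b1 + (v.o (y - a1) - b1) := by
    intro x hx y hy hxy hx1 hy1
    rw [hb1]
    by_cases hx2 : x = a2
    · subst hx2
      by_cases hy3 : y = a3
      · subst hy3
        rw [hcomm x a1, hcomm y a1]; ring
      · have := hr y hy a1 ha1 x hx a3 ha3 hy1 (Ne.symm hxy) hy3 h12 h13 h23
        rw [hcomm x y, hcomm x a1]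
        linarith
    by_cases hx3 : x = a3
    · subst hx3
      by_cases hy2 : y = a2
      · subst hy2
        rw [hcomm x y, hcomm x a1, hcomm y a1]; ring
      · have := hr y hy a1 ha1 x hx a2 ha2 hy1 (Ne.symm hxy) hy2 h13 h12 (Ne.symm h23)
        rw [hcomm x y, hcomm x a1, hcomm a2 x]
        linarith
    by_cases hy2 : y = a2
    · subst hy2
      have := hr x hx a1 ha1 y hy a3 ha3 hx1 hxy hx3 h12 h13 h23
      rw [hcomm y a1]
      linarith
    by_cases hy3 : y = a3
    · subst hy3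
      have := hr x hx a1 ha1 y hy a2 ha2 hx1 hxy hx2 h13 h12 (Ne.symm h23)
      rw [hcomm y a1, hcomm a2 y]
      linarith
    have e1 := hr x hx a1 ha1 y hy a2 ha2 hx1 hxy hx2 (Ne.symm hy1) h12 hy2
    have e2 := hr y hy a1 ha1 a2 ha2 a3 ha3 hy1 hy2 hy3 h12 h13 h23
    linarith
  intro x hx y hy hxy
  simp only
  by_cases hx1 : x = a1
  · rw [if_pos hx1, if_neg (by rintro rfl; exact hxy hx1), hx1, hcomm]; ring
  by_cases hy1 : y = a1
  · rw [if_pos hy1, if_neg hx1, hy1]; ring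
  rw [if_neg hx1, if_neg hy1]
  exact key x hx y hy hxy hx1 hy1

end star

end Pool.Agent.Helper33.UB
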