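import Pool.Agent.Helper33.UB.Select3

/-!
# The height bound
-/

set_option autoImplicit false

open Finset Polynomial

namespace Pool.Agent.Helper33.UB

open TreeDyn

/-- size of the determinants -/
noncomputable def Rf (c : GConst) (ϑ : ℝ) : ℕ := ⌈5 / ϑ⌉₊ + ⌈c.N0 * (c.c0 + c.C1) / c.c0⌉₊ + 1

/-- number of points -/
noncomputable def Nf (c : GConst) (ϑ : ℝ) : ℕ := 2 * (c.nYOf (Rf c ϑ) + 3 * Rf c ϑ + 10) + ⌈1 / ϑ⌉₊

lemma Rf_spec (c : GConst) {ϑ : ℝ} :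
    5 / ϑ ≤ Rf c ϑ + 1 ∧ c.N0 * (c.c0 + c.C1) ≤ (Rf c ϑ + 1) * c.c0 ∧ 1 ≤ Rf c ϑ := by
  have hc0 := c.hc0
  have h1 : 5 / ϑ ≤ ⌈5 / ϑ⌉₊ := Nat.le_ceil _
  have h2 : c.N0 * (c.c0 + c.C1) / c.c0 ≤ ⌈c.N0 * (c.c0 + c.C1) / c.c0⌉₊ := Nat.le_ceil _
  have h3 : (Rf c ϑ : ℝ) = ⌈5 / ϑ⌉₊ + ⌈c.N0 * (c.c0 + c.C1) / c.c0⌉₊ + 1 := by
    unfold Rf; push_cast; ring
  have h4 : (0 : ℝ) ≤ ⌈c.N0 * (c.c0 + c.C1) / c.c0⌉₊ := Nat.cast_nonneg _
  have h5 : (0 : ℝ) ≤ ⌈5 / ϑ⌉₊ := Nat.cast_nonneg _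
  refine ⟨by rw [h3]; linarith, ?_, by unfold Rf; omega⟩
  rw [div_le_iff₀ hc0] at h2
  rw [h3]
  nlinarith

lemma Nf_spec (c : GConst) {ϑ : ℝ} (hϑ : 0 < ϑ) : 1 ≤ Nf c ϑ ∧ 1 ≤ ϑ * Nf c ϑ := by
  refine ⟨by unfold Nf; omega, ?_⟩
  have h1 : 1 / ϑ ≤ ⌈1 / ϑ⌉₊ := Nat.le_ceil _
  have h2 : ((⌈1 / ϑ⌉₊ : ℕ) : ℝ) ≤ Nf c ϑ := by
    exact_mod_cast (by unfold Nf; omega)
  have h3 : 1 / ϑ ≤ Nf c ϑ := h1.trans h2
  rw [div_le_iff₀ hϑ] at h3
  linarith

/-- **Height bound.** A very long orbit has bounded total badness. -/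
theorem height_bound (c : GConst) : ∃ N : ℕ, ∀ {k K V : Type} [Field k] [Field K] [Algebra k K]
    [DecidableEq K] (P : PSys k K V) (I : GInst P c N (16 / c.c0)), I.h ≤ 8 * P.E / c.c0 := by
  classical
  have hc0 := c.hc0
  have hC1 := c.hC1
  have hc1 := c.hc1
  have hδ0 := c.hδ0
  set M : ℝ := 16 / c.c0 with hM
  have hMpos : 0 < M := by positivity
  set L : ℕ := c.depth M with hLdef
  have hL : 1 ≤ L := c.hdepth M
  set Cr : ℝ := 1 / c.δ0 + c.C1 / c.c1 with hCr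
  have hCr0 : 0 < Cr := by
    have : 0 < 1 / c.δ0 := by positivity
    have : 0 < c.C1 / c.c1 := div_pos (by linarith) hc1
    positivity
  set κ : ℝ := min 1 (c.c0 / (32320 * Cr)) with hκdef
  have hκ : 0 < κ := lt_min one_pos (by positivity)
  have hκ1 : κ ≤ 1 := min_le_left _ _
  have hκ2 : κ * Cr ≤ c.c0 / 32320 := by
    have : κ ≤ c.c0 / (32320 * Cr) := min_le_right _ _
    calc κ * Cr ≤ c.c0 / (32320 * Cr) * Cr := mul_le_mul_of_nonneg_right this hCr0.le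
      _ = c.c0 / 32320 := by field_simp
  obtain ⟨ϑ, J, n0, hϑ, hsc⟩ := exists_scales c.d L c.hd hL κ hκ hκ1 (Nf c) (fun ϑ h => Nf_spec c h)
  set Kn : ℕ := ⌈((L : ℝ) + 1) / κ⌉₊ + 1 with hKn
  have hKnκ : ((L : ℝ) + 1) ≤ κ * Kn := by
    have h1 : ((L : ℝ) + 1) / κ ≤ ⌈((L : ℝ) + 1) / κ⌉₊ := Nat.le_ceil _
    have h2 : ((L : ℝ) + 1) / κ ≤ Kn := by rw [hKn]; push_cast; linarith
    rw [div_le_iff₀ hκ] at h2
    linarith
  set need : ℕ → ℕ := fun b =>
    n0 b + ⌈4 * (Nf c (ϑ b) * J b + c.mOf (Rf c (ϑ b)) + 2 : ℝ) / κ⌉₊ with hneed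
  set n : ℕ := ∑ b ∈ range Kn, need b + 1 with hn
  set Nst : ℕ := ∏ b ∈ range Kn, (Nf c (ϑ b)).factorial * J b with hNst
  have hJ1 : ∀ b, 1 ≤ J b := fun b => (hsc b).1
  have hNst1 : 1 ≤ Nst := by
    apply Nat.one_le_iff_ne_zero.mpr
    rw [hNst, prod_ne_zero_iff]
    intro b _
    have := Nat.factorial_pos (Nf c (ϑ b))
    have := hJ1 b
    positivity
  have hn1 : 1 ≤ n := by omega
  refine ⟨n + Nst, ?_⟩
  intro k K V _ _ _ _ P I
  set ρ : ℝ := ((I.rel n Nst).card : ℝ) with hρ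
  have hρ0 : 0 ≤ ρ := Nat.cast_nonneg _
  -- choice of the scale
  obtain ⟨b, hb, hunc⟩ : ∃ b ∈ range Kn,
      ∑ v ∈ I.rel n Nst, (((I.Lv v).unclean n (ϑ (b + 1) * n) (ϑ b * n)).card : ℝ) ≤ κ * n * ρ := by
    by_contra hcon
    push Not at hcon
    have h1 : ∑ b ∈ range Kn, ∑ v ∈ I.rel n Nst,
        (((I.Lv v).unclean n (ϑ (b + 1) * n) (ϑ b * n)).card : ℝ) ≤ ρ * ((L + 1) * n) := by
      rw [sum_comm, hρ, ← nsmul_eq_mul, ← sum_const]
      apply sum_le_sum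
      intro v _
      have := sum_unclean (I.Lv v) ϑ (fun b => (hsc b).2.2.1) n Kn
      exact_mod_cast this
    have h2 : ∑ b ∈ range Kn, κ * n * ρ < ∑ b ∈ range Kn, ∑ v ∈ I.rel n Nst,
        (((I.Lv v).unclean n (ϑ (b + 1) * n) (ϑ b * n)).card : ℝ) :=
      sum_lt_sum_of_nonempty (by rw [nonempty_range_iff]; omega) hcon
    rw [sum_const, card_range, nsmul_eq_mul] at h2
    have h3 : ρ * ((L + 1) * n) ≤ Kn * (κ * n * ρ) := by
      have h4 : 0 ≤ (n : ℝ) * ρ := by positivity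
      have h5 : ((L : ℝ) + 1) * (n * ρ) ≤ κ * Kn * (n * ρ) := mul_le_mul_of_nonneg_right hKnκ h4
      linarith
    linarith
  rw [mem_range] at hb
  obtain ⟨hJb, hϑ1, hϑ2, hcls⟩ := hsc b
  have hneedb : need b ≤ n := by
    have := single_le_sum (f := need) (fun _ _ => Nat.zero_le _) (mem_range.mpr hb)
    omega
  have hn0b : n0 b ≤ n := by
    have : n0 b ≤ need b := by simp only [hneed]; omega
    omega
  set N' : ℕ := Nf c (ϑ b) with hN'
  set R : ℕ := Rf c (ϑ b) with hR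
  set m : ℕ := c.mOf R with hm
  have hnb : (N' * J b + m + 2 : ℝ) ≤ κ * n / 4 := by
    have h1 : 4 * (N' * J b + m + 2 : ℝ) / κ ≤ ⌈4 * (N' * J b + m + 2 : ℝ) / κ⌉₊ := Nat.le_ceil _
    have h2 : ⌈4 * (N' * J b + m + 2 : ℝ) / κ⌉₊ ≤ n := by
      have : ⌈4 * (N' * J b + m + 2 : ℝ) / κ⌉₊ ≤ need b := Nat.le_add_left _ _
      omega
    have h3 : 4 * (N' * J b + m + 2 : ℝ) / κ ≤ n := h1.trans (by exact_mod_cast h2)
    rw [div_le_iff₀ hκ] at h3
    linarith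
  have hdvd : ∀ l, 1 ≤ l → l ≤ N' → l * J b ∣ Nst := by
    intro l hl1 hl2
    have h1 : l * J b ∣ (Nf c (ϑ b)).factorial * J b :=
      Nat.mul_dvd_mul_right (Nat.dvd_factorial hl1 hl2) _
    exact h1.trans (dvd_prod_of_mem (fun b => (Nf c (ϑ b)).factorial * J b) (mem_range.mpr hb))
  -- the exceptional sets
  have hex := fun v => hcls n hn0b (I.Vx v) (I.Dr v) (I.S v) (I.Lv v)
  choose Bad hBadsub hBadcard hcl using hex
  have hBadsum : ∑ v ∈ I.rel n Nst, ((Bad v).card : ℝ) ≤ 2 * (κ * n * ρ) := by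
    have h1 := sum_le_sum (s := I.rel n Nst) fun v _ => hBadcard v
    rw [sum_add_distrib, sum_const, nsmul_eq_mul] at h1
    linarith
  -- the index
  obtain ⟨i, hi, hgood⟩ := exists_good_index (I.rel n Nst) n N' (J b) m κ hκ hκ1 hnb
    (fun v => (I.Lv v).heavy n (ϑ b * n)) Bad
    (fun v _ => by unfold TreeDyn.Levels.heavy; exact filter_subset _ _) hBadsum
    (fun v _ i hi hb hh => (hcl v i hi hb hh).2)
  obtain ⟨hRs1, hRs2, hRs3⟩ := Rf_spec c (ϑ := ϑ b)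
  rw [← hR] at hRs1 hRs2 hRs3
  by_contra hcon
  push Not at hcon
  obtain ⟨hT1, Λ1, hΛ1s, hΛ1c, hU1⟩ := hgood i (Or.inl rfl)
  obtain ⟨hT2, Λ2, hΛ2s, hΛ2c, hU2⟩ := hgood (i + m) (Or.inr rfl)
  -- vanishing of the determinants
  have hrelcard := I.card_rel (n := n) (Nst := Nst) le_rfl hNst1
  rw [← hCr, ← hρ] at hrelcard
  have hdet : ∀ i', i' + N' * J b < n →
      ((((I.rel n Nst).filter fun v => i' ∈ Bad v).card : ℝ) ≤ 20 * (κ * ρ)) →
      ∀ Λ : Finset ℕ, (∀ l ∈ Λ, l ≤ N') →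
      (∀ l ∈ Λ, ((((I.rel n Nst).filter fun v => i' ∈ (I.Lv v).heavy n (ϑ b * n) ∧
        i' + l * J b ∉ (I.Lv v).heavy n (ϑ b * n)).card : ℝ) ≤ 200 * (κ * ρ))) →
      Rel P.D R ((Λ.image fun l => i' + l * J b).image I.x) := by
    intro i' hi' hT' Λ hΛ hU'
    apply dichotomy'
    intro Y hY hYc
    obtain ⟨s, hs, hsY⟩ := subset_image_iff.mp hY
    have hsN : ∀ j ∈ s, ∃ l ≤ N', l ∈ Λ ∧ j = i' + l * J b := by
      intro j hj
      obtain ⟨l, hl, rfl⟩ := mem_image.mp (hs hj)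
      exact ⟨l, hΛ l hl, hl, rfl⟩
    have hsle : ∀ j ∈ s, j ≤ n + Nst := by
      intro j hj
      obtain ⟨l, hl, _, rfl⟩ := hsN j hj
      have := Nat.mul_le_mul_right (J b) hl
      omega
    have hscard : s.card = 2 * (R + 1) := by
      rw [← hsY, card_image_of_injOn (I.injOn hsle)] at hYc
      omega
    rw [← hsY]
    by_contra hdet
    have hcl1 := I.claim1 (M := M) hMpos (n := n) (Nst := Nst) le_rfl (R := R) (N' := N') (J := J b)
      (ϑ := ϑ b) (hϑ b).1 hn1 hRs1 hRs2 hJb hdvd hNst1 Bad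
      (fun v i hi hb hh => (hcl v i hi hb hh).1) (i := i') hi' s
      (fun j hj => by
        obtain ⟨l, hl, _, h⟩ := hsN j hj
        exact ⟨l, hl, h⟩) hscard hdet (20 * (κ * ρ)) (200 * (κ * ρ))
      (by
        intro B hB hB'
        refine le_trans ?_ hT'
        have : B ⊆ (I.rel n Nst).filter fun v => i' ∈ Bad v :=
          fun v hv => mem_filter.mpr ⟨hB hv, hB' v hv⟩
        exact_mod_cast card_le_card this)
      (by
        intro j hj B hB hB'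
        obtain ⟨l, hl, hlΛ, rfl⟩ := hsN j hj
        refine le_trans ?_ (hU' l hlΛ)
        have : B ⊆ (I.rel n Nst).filter fun v => i' ∈ (I.Lv v).heavy n (ϑ b * n) ∧
            i' + l * J b ∉ (I.Lv v).heavy n (ϑ b * n) :=
          fun v hv => mem_filter.mpr ⟨hB hv, hB' v hv⟩
        exact_mod_cast card_le_card this)
    have h1 : ∀ y : ℝ, y / M = c.c0 * y / 16 := by
      intro y
      rw [hM]; field_simp
    rw [h1] at hcl1
    have h2 : κ * ρ ≤ c.c0 / 32320 * I.h := by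
      calc κ * ρ ≤ κ * (Cr * I.h) := mul_le_mul_of_nonneg_left hrelcard hκ.le
        _ = κ * Cr * I.h := by ring
        _ ≤ c.c0 / 32320 * I.h := mul_le_mul_of_nonneg_right hκ2 I.h_nonneg
    have h3 : c.c0 * I.h ≤ 8 * P.E := by linarith
    have h4 : 8 * (P.E : ℝ) / c.c0 < I.h := hcon
    rw [div_lt_iff₀ hc0] at h4
    linarith
  -- the common set
  set Λ : Finset ℕ := Λ1 ∩ Λ2 with hΛ
  have hΛcard : (8 / 10 * (N' + 1) : ℝ) ≤ Λ.card := by
    have h1 := card_union_add_card_inter Λ1 Λ2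
    rw [← hΛ] at h1
    have h2 : (Λ1 ∪ Λ2).card ≤ N' + 1 := by
      have := card_le_card (union_subset hΛ1s hΛ2s)
      rwa [card_range] at this
    have h3 : (Λ1.card : ℝ) + Λ2.card ≤ (N' + 1) + Λ.card := by
      have : Λ1.card + Λ2.card ≤ (N' + 1) + Λ.card := by omega
      exact_mod_cast this
    linarith
  have hN'R : 2 * (c.nYOf R + 3 * R + 10) ≤ N' := by
    rw [hN', hR]; unfold Nf; omega
  have hΛcard' : c.nYOf R + 3 * R + 2 ≤ Λ.card := by
    have h1 : ((2 * (c.nYOf R + 3 * R + 10) : ℕ) : ℝ) ≤ N' := by exact_mod_cast hN'R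
    have h2 : ((c.nYOf R + 3 * R + 2 : ℕ) : ℝ) ≤ Λ.card := by
      push_cast at h1 ⊢
      have h3 : (0 : ℝ) ≤ c.nYOf R := Nat.cast_nonneg _
      have h4 : (0 : ℝ) ≤ R := Nat.cast_nonneg _
      linarith
    exact_mod_cast h2
  have hΛle : ∀ l ∈ Λ, l ≤ N' := by
    intro l hl
    have := mem_range.mp (hΛ1s (mem_inter.mp hl).1)
    omega
  have hr1 := hdet i (by omega) hT1 Λ hΛle (fun l hl => hU1 l (mem_inter.mp hl).1)
  have hr2 := hdet (i + m) (by omega) hT2 Λ hΛle (fun l hl => hU2 l (mem_inter.mp hl).2)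
  set Λs : Finset ℕ := Λ.image fun l => i + l * J b with hΛs
  have hΛscard : Λs.card = Λ.card := by
    rw [hΛs]
    apply card_image_of_injective
    intro a b' hab
    have : a * J b = b' * J b := by
      have : i + a * J b = i + b' * J b := hab
      omega
    exact Nat.eq_of_mul_eq_mul_right (by omega) this
  have hΛsle : ∀ j ∈ Λs, j + m < n := by
    intro j hj
    obtain ⟨l, hl, rfl⟩ := mem_image.mp hj
    have := Nat.mul_le_mul_right (J b) (hΛle l hl)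
    omega
  obtain ⟨Λ', hΛ's, hΛ'c, hstar⟩ := I.ode R Λs (by rw [hΛscard]; omega) (by
      intro j hj
      have := hΛsle j hj
      omega) hr1 (by
      have h1 : ((Λ.image fun l => i + m + l * J b).image I.x) = (Λs.image fun j => I.x (j + m)) := by
        rw [hΛs, image_image, image_image]
        apply image_congr
        intro l _
        simp only [Function.comp]
        congr 1
        ring
      rw [h1] at hr2
      exact hr2)
  obtain ⟨s, hs, hsc'⟩ := exists_subset_card_eq (s := Λ') (n := 2 * (R + 1)) (by omega)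
  have hfin := I.h_le_of_star (R := R) hRs2 hRs3 (s.image fun j => j + m) (by
      intro j hj
      obtain ⟨j', hj', rfl⟩ := mem_image.mp hj
      have := hΛsle j' (hΛ's (hs hj'))
      omega) (by
      rw [card_image_of_injective _ (fun a b h => Nat.add_right_cancel h), hsc']) (by
      intro v hv
      apply (hstar v hv).mono
      rw [image_image]
      exact image_subset_image hs)
  have h1 : (0 : ℝ) ≤ 8 * P.E / c.c0 := by positivity
  linarith

end Pool.Agent.Helper33.UB
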