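import Pool.Agent.Helper33.UB.PolyInst
import Pool.Agent.Helper88.PolyFinal
import Pool.Agent.Helper45.FieldRed0

/-!
# Uniform boundedness for polynomials in characteristic zero
-/

set_option autoImplicit false

open Finset Polynomial

namespace Pool.Agent.Helper33.UB

open Pool.Agent.Helper45

/-- long orbits of polynomials are constant -/
theorem absPoly (d : ℕ) (hd : 2 ≤ d) : FR.AbsPoly d := by
  classical
  intro k K V _ _ _ _ _ P hker
  obtain ⟨N1, hN1⟩ := height_bound (polyConst d hd)
  obtain ⟨N2, hN2⟩ := const_of_small P d hd (8 * P.E / (polyConst d hd).c0)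
  refine ⟨max N1 N2, ?_⟩
  intro f hfd x hx
  obtain ⟨T, hT⟩ := exists_adm0 P (f := f) (by omega) hx.X
  have hx1 : Orbit f x N1 := FR.orbit_mono hx (le_max_left _ _)
  have hXX : hx1.X = hx.X := rfl
  subst hfd
  have h1 := hN1 P (polyInst (P := P) hx1 hd _ T hT.e hT.lead (by
    intro y hy z hz hyz v hv
    exact hT.diff y (hXX ▸ hy) z (hXX ▸ hz) hyz v hv) hker (fun v c hc => const_ord P v c hc))
  exact hN2 f rfl x (max N1 N2) (le_max_right _ _) hx T hT h1

end Pool.Agent.Helper33.UB
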