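import Pool.Agent.Helper33.UB.RatInst
import Pool.Agent.Helper33.UB.GFinal

/-!
# Uniform boundedness for rational maps in characteristic zero
-/

set_option autoImplicit false

open Finset Polynomial

namespace Pool.Agent.Helper33.UB

open Pool.Agent.Helper45.FR Pool.Agent.Helper55.RD Pool.Agent.Helper93.RatODE

/-- long orbits of rational maps are constant -/
theorem absRat (d : ℕ) (hd : 2 ≤ d) : AbsRat d := by
  classical
  intro k K V _ _ _ _ _ P hker
  obtain ⟨N1, hN1⟩ := height_bound (ratConst d hd)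
  obtain ⟨N2, hN2⟩ := h_eq_zero_of_small (ratConst d hd) (8 * P.E / (ratConst d hd).c0)
  refine ⟨max N1 (max N2 (2 * d + 1)), ?_⟩
  intro F G hcop hF hG htop x hx
  have hmono : ∀ n, n ≤ max N1 (max N2 (2 * d + 1)) → RatOrbit F G x n := fun n hn =>
    ⟨hx.ne, hx.step, fun i j hi hj => hx.inj i j (hi.trans hn) (hj.trans hn), hx.fin⟩
  have hres : resultant F G d d ≠ 0 :=
    resultant_ne_zero_of_isCoprime hcop hF hG (hmax_of_top hF hG htop) (by omega)
  obtain ⟨T, hT⟩ := exists_radm P (d := d) hres (rX hx) (fun y hy => (rX_spec hx y hy).1)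
  have hconst := fun v (c : k) (hc : c ≠ 0) => const_ord P v c hc
  have hx1 : RatOrbit F G x N1 := hmono N1 (le_max_left _ _)
  have h1 := hN1 P (ratInst (P := P) hx1 hd hcop hF hG htop hres _ T hT hker hconst)
  set I := ratInst (P := P) hx hd hcop hF hG htop hres (16 / (ratConst d hd).c0) T hT hker hconst
    with hI
  have h2 : I.h ≤ 8 * P.E / (ratConst d hd).c0 := h1
  have h3 := hN2 P _ _ ((le_max_left _ _).trans (le_max_right _ _)) I h2
  have hle : 2 * d + 1 ≤ max N1 (max N2 (2 * d + 1)) := (le_max_right _ _).trans (le_max_right _ _)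
  apply exists_conj_of_cross (by omega) hcop hF hG htop x (fun i _ => ⟨hx.ne i, hx.step i⟩)
    (fun i hi j hj => hx.inj i j (by omega) (by omega))
  intro i hi
  by_cases h0 : i = 0
  · exact ⟨0, by subst h0; simp⟩
  by_cases h1 : i = 1
  · refine ⟨1, ?_⟩
    subst h1
    have m1 : x 1 - x 2 ≠ 0 := sub_ne_zero.mpr fun e => by
      have := hx.inj 1 2 (by omega) (by omega) e; omega
    have m2 : x 1 - x 0 ≠ 0 := sub_ne_zero.mpr fun e => by
      have := hx.inj 1 0 (by omega) (by omega) e; omega
    rw [map_one]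
    field_simp
  by_cases h2 : i = 2
  · exact ⟨0, by subst h2; simp⟩
  · exact I.cross_const h3 (i := i) (j := 1) (l := 0) (m := 2) (by omega) (by omega) (by omega)
      (by omega) (by omega) (by omega) (by omega) (by omega)

end Pool.Agent.Helper33.UB
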