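import Pool.Agent.Helper33.UB.Height

/-!
# Selection of a block, with all its outputs
-/

set_option autoImplicit false

open Finset Polynomial

namespace Pool.Agent.Helper33.UB

open TreeDyn

/-- **One scale**, `J` is independent of `N'`. -/
theorem scale' (d L : ℕ) (hd : 1 ≤ d) (hL : 1 ≤ L) (κ : ℝ) (hκ : 0 < κ) (hκ1 : κ ≤ 1) (ϑ : ℝ)
    (hϑ : 0 < ϑ) (hϑ1 : ϑ ≤ 1) :
    ∃ J : ℕ, 1 ≤ J ∧ ∀ N' : ℕ, 1 ≤ N' → 1 ≤ ϑ * N' → ∃ ϑ₁ : ℝ, 0 < ϑ₁ ∧ ϑ₁ < ϑ ∧ ∃ n0 : ℕ, ∀ n : ℕ, n0 ≤ n →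
      ∀ {𝒱 𝒟 : Type*} (S : TreeDyn 𝒱 𝒟 d) (Lv : S.Levels L),
      ∃ Bad : Finset ℕ, Bad ⊆ range n ∧
        (Bad.card : ℝ) ≤ (Lv.unclean n (ϑ₁ * n) (ϑ * n)).card + κ * n ∧
        ∀ i < n, i ∉ Bad → i ∉ Lv.heavy n (ϑ * n) →
          (∃ ζ : 𝒱, ∀ l l', l < l' → l' ≤ N' → S.dir ζ (i + l * J) ≠ S.dir ζ (i + l' * J)) ∧
          ∀ l ≤ N', i + l * J ∉ Lv.heavy n (ϑ * n) := by
  have hLr : (1 : ℝ) ≤ L := by exact_mod_cast hL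
  have hdr : (1 : ℝ) ≤ d := by exact_mod_cast hd
  set β : ℝ := κ * ϑ / (4 * L) with hβ
  have hβ0 : 0 < β := by positivity
  set G : ℕ := ⌈4 / β⌉₊ with hG
  have hGβ : 4 ≤ ((G : ℝ) + 1) * β := by
    have h1 : 4 / β ≤ G := Nat.le_ceil _
    rw [div_le_iff₀ hβ0] at h1
    nlinarith
  set J : ℕ := G.factorial with hJ
  have hJ1 : 1 ≤ J := Nat.factorial_pos G
  have hJr : (1 : ℝ) ≤ J := by exact_mod_cast hJ1
  refine ⟨J, hJ1, fun N' hN' hNϑ => ?_⟩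
  have hN'r : (1 : ℝ) ≤ N' := by exact_mod_cast hN'
  set t : ℝ := ((N' * J : ℕ) : ℝ) with ht
  have htr : t = N' * J := by rw [ht]; push_cast; ring
  have ht1 : 1 ≤ t := by rw [htr]; nlinarith
  set c1 : ℝ := (L / ϑ) * (N' + 1) * ((t + 4 * t / κ) * d ^ (N' * J)) with hc1
  have hc1pos : 0 < c1 := by positivity
  set c2 : ℝ := (G + 1) ^ 2 * ((G + 4 * (G + 1) ^ 2) * d ^ G + 1) with hc2
  have hc2pos : 0 < c2 := by positivity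
  set ϑ₁ : ℝ := min (ϑ / 2) (min (κ / (4 * c1)) (1 / (4 * c2))) with hϑ₁
  have hϑ₁pos : 0 < ϑ₁ := by
    rw [hϑ₁]
    refine lt_min (by positivity) (lt_min (by positivity) (by positivity))
  have hb1 : c1 * ϑ₁ ≤ κ / 4 := by
    have : ϑ₁ ≤ κ / (4 * c1) := (min_le_right _ _).trans (min_le_left _ _)
    calc c1 * ϑ₁ ≤ c1 * (κ / (4 * c1)) := mul_le_mul_of_nonneg_left this hc1pos.le
      _ = κ / 4 := by field_simp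
  have hb2 : c2 * ϑ₁ ≤ 1 / 4 := by
    have : ϑ₁ ≤ 1 / (4 * c2) := (min_le_right _ _).trans (min_le_right _ _)
    calc c2 * ϑ₁ ≤ c2 * (1 / (4 * c2)) := mul_le_mul_of_nonneg_left this hc2pos.le
      _ = 1 / 4 := by field_simp
  refine ⟨ϑ₁, hϑ₁pos, lt_of_le_of_lt (min_le_left _ _) (by linarith), ?_⟩
  refine ⟨⌈4 * (t + 1) / κ⌉₊ + G + 1, ?_⟩
  intro n hn 𝒱 𝒟 S Lv
  have hn1 : 1 ≤ n := by omega
  have hGn : G < n := by omega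
  have hnr : (1 : ℝ) ≤ n := by exact_mod_cast hn1
  have hn0 : (0 : ℝ) < n := by linarith
  have hGnr : (G : ℝ) < n := by exact_mod_cast hGn
  have hnt : t + 1 ≤ κ * n / 4 := by
    have h1 : 4 * (t + 1) / κ ≤ n := by
      have h2 : 4 * (t + 1) / κ ≤ ⌈4 * (t + 1) / κ⌉₊ := Nat.le_ceil _
      have h3 : ((⌈4 * (t + 1) / κ⌉₊ : ℕ) : ℝ) ≤ n := by exact_mod_cast (by omega)
      linarith
    rw [div_le_iff₀ hκ] at h1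
    linarith
  set θ' : ℝ := κ * n / (4 * t) with hθ'
  have hθ'pos : 0 < θ' := by positivity
  set θ'' : ℝ := n / (4 * (G + 1) ^ 2) with hθ''
  have hθ''pos : 0 < θ'' := by positivity
  have e1 : (n : ℝ) / θ' = 4 * t / κ := by rw [hθ']; field_simp
  have e2 : (n : ℝ) / θ'' = 4 * (G + 1) ^ 2 := by rw [hθ'']; field_simp
  have e3 : (n : ℝ) / (ϑ * n) = 1 / ϑ := by field_simp
  have e4 : θ' * t = κ * n / 4 := by rw [hθ']; field_simp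
  have e5 : ((G : ℝ) + 1) ^ 2 * θ'' = n / 4 := by rw [hθ'']; field_simp
  have hθΘ : θ' ≤ ϑ * n := by
    rw [hθ', div_le_iff₀ (by positivity)]
    have h1 : κ * n ≤ 1 * n := mul_le_mul_of_nonneg_right hκ1 hn0.le
    have h2 : 1 ≤ ϑ * t := by
      rw [htr]
      calc (1 : ℝ) ≤ ϑ * N' := hNϑ
        _ ≤ ϑ * (N' * J) := by
          apply mul_le_mul_of_nonneg_left _ hϑ.le
          nlinarith
    nlinarith
  obtain ⟨Bad, hsub, hcard, hcl⟩ := Lv.classify (n := n) hd (N' := N') (J := J) (G := G)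
    (θ := ϑ₁ * n) (θ' := θ') (θ'' := θ'') (Θ := ϑ * n) (Θ' := β * n) (by positivity) hθ'pos hθ''pos
    (by positivity) (by positivity) (by nlinarith) hθΘ hJ1
    (fun u h1 h2 => Nat.dvd_factorial h1 h2) (by
      unfold err
      rw [e2]
      have h1 : ((G : ℝ) + 1) ^ 2 * ((G * d ^ G + 4 * (G + 1) ^ 2 * d ^ G) * (ϑ₁ * n) + ϑ₁ * n + θ'') =
          c2 * ϑ₁ * n + n / 4 := by
        rw [← e5, hc2]; ring
      rw [h1]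
      have h2 : c2 * ϑ₁ * n ≤ 1 / 4 * n := mul_le_mul_of_nonneg_right hb2 hn0.le
      have h3 : 4 * (n : ℝ) ≤ (G + 1) * (β * n) := by
        calc 4 * (n : ℝ) ≤ ((G : ℝ) + 1) * β * n := mul_le_mul_of_nonneg_right hGβ hn0.le
          _ = (G + 1) * (β * n) := by ring
      linarith)
  refine ⟨Bad, hsub, ?_, hcl⟩
  refine hcard.trans ?_
  have h1 : (L : ℝ) * (n / (ϑ * n)) * (β * n + (N' + 1) * err d n (N' * J) (ϑ₁ * n) θ') =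
      κ * n / 4 + c1 * ϑ₁ * n := by
    unfold err
    rw [e3, e1, ← ht, hc1, hβ]
    field_simp
  have h2 : c1 * ϑ₁ * n ≤ κ / 4 * n := mul_le_mul_of_nonneg_right hb1 hn0.le
  rw [h1, ← htr, e4]
  linarith


/-- a sequence of scales -/
lemma exists_scales' (d L : ℕ) (hd : 1 ≤ d) (hL : 1 ≤ L) (κ : ℝ) (hκ : 0 < κ) (hκ1 : κ ≤ 1)
    (Nf : ℝ → ℕ → ℕ) (hNf : ∀ ϑ J, 0 < ϑ → 1 ≤ Nf ϑ J ∧ 1 ≤ ϑ * Nf ϑ J) :
    ∃ (ϑ : ℕ → ℝ) (J n0 : ℕ → ℕ), (∀ b, 0 < ϑ b ∧ ϑ b ≤ 1) ∧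
      ∀ b, ScaleP d L κ (ϑ b) (ϑ (b + 1)) (Nf (ϑ b) (J b)) (J b) (n0 b) := by
  have hstep : ∀ ϑ : {ϑ : ℝ // 0 < ϑ ∧ ϑ ≤ 1}, ∃ (J n0 : ℕ) (ϑ₁ : {ϑ : ℝ // 0 < ϑ ∧ ϑ ≤ 1}),
      ScaleP d L κ ϑ.1 ϑ₁.1 (Nf ϑ.1 J) J n0 := by
    rintro ⟨ϑ, h0, h1⟩
    obtain ⟨J, hJ, hrest⟩ := scale' d L hd hL κ hκ hκ1 ϑ h0 h1
    obtain ⟨ϑ₁, h2, h3, n0, hn0⟩ := hrest (Nf ϑ J) (hNf ϑ J h0).1 (hNf ϑ J h0).2
    exact ⟨J, n0, ⟨ϑ₁, h2, by linarith⟩, hJ, h2, h3, fun n hn 𝒱 𝒟 S Lv => hn0 n hn S Lv⟩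
  choose J n0 nx hnx using hstep
  let seq : ℕ → {ϑ : ℝ // 0 < ϑ ∧ ϑ ≤ 1} := fun b => Nat.rec ⟨1, by norm_num, le_rfl⟩ (fun _ a => nx a) b
  exact ⟨fun b => (seq b).1, fun b => J (seq b), fun b => n0 (seq b), fun b => (seq b).2,
    fun b => hnx (seq b)⟩

end Pool.Agent.Helper33.UB
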