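import Pool.Agent.Helper33.UB.Sel2

/-!
# Selection of a block, with all its outputs (2)
-/

set_option autoImplicit false

open Finset Polynomial

namespace Pool.Agent.Helper33.UB

open TreeDyn

namespace GInst

variable {k K V : Type*} [Field k] [Field K] [Algebra k K] [DecidableEq K] {P : PSys k K V}
  {c : GConst} {N : ℕ} {M : ℝ} (I : GInst P c N M)

/-- **Main inequality** with a gain at heavy places -/
theorem main_ineq' {R : ℕ} (hR : c.N0 * (c.c0 + c.C1) ≤ (R + 1) * c.c0) (hM : 0 ≤ M)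
    (s : Finset ℕ) (hs : ∀ i ∈ s, i ≤ N) (hcard : s.card = 2 * (R + 1))
    (hdet : (hankel P.D (s.image I.x) R).det ≠ 0) (Hg Loss : Finset V) (hHg : Hg ⊆ I.T)
    (hstar : ∀ v ∈ I.T, v ∉ Hg → v ∉ Loss → Star (P.pl v) (s.image I.x))
    (hheavy : ∀ v ∈ Hg, I.ε v < M ∧ ∃ N1 : ℕ, (N1 : ℝ) ≤ 2 * (R + 1) / 5 ∧
      ∀ s' ⊆ s, N1 < s'.card → ∃ i ∈ s', ∃ j ∈ s', i ≠ j ∧ c.C1 * M + 5 ≤ I.g v i j) :
    c.c0 / 2 * I.h + M / 10 * Hg.card ≤ 2 * (Loss.card + P.E) := by
  classical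
  have hc0 := c.hc0
  have hC1 := c.hC1
  have hc01 := c.hc01
  -- the matchings
  have hex : ∀ v ∈ I.T, ∃ A B : Fin (R + 1) → ℕ, Enum s A B ∧
      (R + 1) * (c.c0 / 2 * I.ε v + (if v ∈ Hg then 2 + M / 10 else 0)) ≤ ∑ i, I.g v (A i) (B i) := by
    intro v hv
    by_cases hvH : v ∈ Hg
    · rw [if_pos hvH]
      obtain ⟨hεM, N1, hN1, hrel⟩ := hheavy v hvH
      obtain ⟨A, B, hE, hbad⟩ := exists_greedy (fun i j => c.C1 * M + 5 ≤ I.g v i j) N1 (R + 1) s hcard hrel
      refine ⟨A, B, hE, ?_⟩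
      have hε := I.ε_nonneg v hv
      have hCM : 0 ≤ c.C1 * M := mul_nonneg (by linarith) hM
      have h1 := sum_ge_of_greedy (fun i => I.g v (A i) (B i))
        (fun i => c.C1 * M + 5 ≤ I.g v (A i) (B i))
        (c := c.C1 * M + 5) (e := c.C1 * M) (N0 := N1) (by linarith) hCM
        (by exact_mod_cast hbad) (fun i hi => hi) (fun i => by
          have h2 := I.lower v hv _ _ (hs _ (hE.memA i)) (hs _ (hE.memB i)) (hE.ne i i)
          have h3 : c.C1 * I.ε v ≤ c.C1 * M := mul_le_mul_of_nonneg_left hεM.le (by linarith)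
          change -(c.C1 * M) ≤ (P.pl v).o (I.x (A i) - I.x (B i)) + I.β v (A i) + I.β v (B i)
          linarith)
      refine le_trans ?_ h1
      push_cast
      have h4 : (N1 : ℝ) / 2 * (c.C1 * M + 5 + c.C1 * M) ≤ (R + 1) / 5 * (c.C1 * M + 5 + c.C1 * M) := by
        apply mul_le_mul_of_nonneg_right _ (by linarith)
        linarith
      have h5 : c.c0 / 2 * I.ε v ≤ M / 2 := by
        have : c.c0 * I.ε v ≤ 1 * M := mul_le_mul hc01 hεM.le hε (by norm_num)
        linarith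
      have h6 : M ≤ c.C1 * M := by nlinarith
      have hRr : (0 : ℝ) ≤ R := Nat.cast_nonneg R
      have h7 : ((R : ℝ) + 1) * (c.c0 / 2 * I.ε v + (2 + M / 10)) ≤ (R + 1) * (3 / 5 * (c.C1 * M) + 4) := by
        apply mul_le_mul_of_nonneg_left _ (by linarith)
        linarith
      linarith
    · rw [if_neg hvH, add_zero]
      exact I.exists_lb_matching hR hv s hs hcard
  choose! A B hE hsum using hex
  have ham := am P (I := s.image I.x) hdet I.T (Hg ∪ Loss) I.Te (by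
    intro v hv x hx y hy hxy
    obtain ⟨i, hi, rfl⟩ := mem_image.mp hx
    obtain ⟨j, hj, rfl⟩ := mem_image.mp hy
    exact I.Tx v hv i j (hs i hi) (hs j hj) fun e => hxy (by rw [e]))
    (fun v hv hvS => hstar v hv (fun h => hvS (mem_union_left _ h)) (fun h => hvS (mem_union_right _ h)))
    (fun v i => I.x (A v i)) (fun v i => I.x (B v i))
    (fun v hv => enum_image (I.injOn hs) (hE v hv))
  have h1 : ∑ v ∈ I.T, ∑ i, I.g v (A v i) (B v i) =
      ((∑ v ∈ I.T, ∑ i, (P.pl v).o (I.x (A v i) - I.x (B v i)) : ℤ) : ℝ) := by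
    rw [sum_congr rfl (fun v hv => I.sum_matching (hE v hv) v), sum_add_distrib]
    have : ∑ v ∈ I.T, ∑ j ∈ s, I.β v j = 0 := by
      rw [sum_comm]
      exact sum_eq_zero fun j hj => I.sumβ j (hs j hj)
    rw [this, add_zero]
    push_cast
    rfl
  have h2 := sum_le_sum hsum
  rw [h1] at h2
  have h3 : ((∑ v ∈ I.T, ∑ i, (P.pl v).o (I.x (A v i) - I.x (B v i)) : ℤ) : ℝ) ≤
      2 * R * (((Hg ∪ Loss).card : ℝ) + P.E) := by
    have : ((∑ v ∈ I.T, ∑ i, (P.pl v).o (I.x (A v i) - I.x (B v i)) : ℤ) : ℝ) ≤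
      ((2 * R * (((Hg ∪ Loss).card : ℤ) + P.E) : ℤ) : ℝ) := by exact_mod_cast ham
    push_cast at this ⊢
    exact this
  have h4 : ((Hg ∪ Loss).card : ℝ) ≤ Hg.card + Loss.card := by exact_mod_cast card_union_le _ _
  have h5 : ∑ v ∈ I.T, ((R : ℝ) + 1) * (c.c0 / 2 * I.ε v + (if v ∈ Hg then 2 + M / 10 else 0)) =
      (R + 1) * (c.c0 / 2 * I.h + (2 + M / 10) * Hg.card) := by
    rw [← mul_sum, sum_add_distrib, ← mul_sum, sum_ite_mem, inter_eq_right.mpr hHg, sum_const,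
      nsmul_eq_mul]
    unfold h
    ring
  rw [h5] at h2
  have hRr : (0 : ℝ) ≤ R := Nat.cast_nonneg R
  have hEr : (0 : ℝ) ≤ P.E := Nat.cast_nonneg _
  have h6 : (2 : ℝ) * R * (((Hg ∪ Loss).card : ℝ) + P.E) ≤ (R + 1) * (2 * (Hg.card + Loss.card + P.E)) := by
    have h7 : (0 : ℝ) ≤ ((Hg ∪ Loss).card : ℝ) + P.E := by positivity
    nlinarith
  have h8 : ((R : ℝ) + 1) * (c.c0 / 2 * I.h + (2 + M / 10) * Hg.card) ≤
      (R + 1) * (2 * (Hg.card + Loss.card + P.E)) := by linarith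
  have h9 := le_of_mul_le_mul_left h8 (by linarith : (0 : ℝ) < R + 1)
  linarith

/-- **The inequality at a selected index**, with all outputs. -/
theorem claim1' (hM : 0 < M) {n Nst : ℕ} (hN : n + Nst ≤ N) {R N' J : ℕ} {ϑ : ℝ} (hϑ : 0 < ϑ)
    (hn : 1 ≤ n)
    (hRϑ : 5 / ϑ ≤ R + 1) (hR : c.N0 * (c.c0 + c.C1) ≤ (R + 1) * c.c0) (hJ1 : 1 ≤ J)
    (hdvd : ∀ l, 1 ≤ l → l ≤ N' → l * J ∣ Nst) (hNst : 1 ≤ Nst) (Bad : V → Finset ℕ)
    (hcl : ∀ v, ∀ i < n, i ∉ Bad v → i ∉ (I.Lv v).heavy n (ϑ * n) →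
          ∃ ζ : I.Vx v, ∀ l l', l < l' → l' ≤ N' →
            (I.S v).dir ζ (i + l * J) ≠ (I.S v).dir ζ (i + l' * J))
    {i : ℕ} (hi : i + N' * J < n) (s : Finset ℕ) (hs : ∀ j ∈ s, ∃ l ≤ N', j = i + l * J)
    (hcard : s.card = 2 * (R + 1)) (hdet : (hankel P.D (s.image I.x) R).det ≠ 0) (tT tU : ℝ)
    (hT : ∀ B ⊆ I.rel n Nst, (∀ v ∈ B, i ∈ Bad v) → (B.card : ℝ) ≤ tT)
    (hU : ∀ j ∈ s, ∀ B ⊆ I.rel n Nst, (∀ v ∈ B, i ∈ (I.Lv v).heavy n (ϑ * n) ∧
      j ∉ (I.Lv v).heavy n (ϑ * n)) → (B.card : ℝ) ≤ tU) :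
    ∃ Hg Loss : Finset V, Hg ⊆ I.T ∧ Loss ⊆ I.T ∧ (Loss.card : ℝ) ≤ I.h / M + tT + 10 * tU ∧
      c.c0 / 2 * I.h + M / 10 * Hg.card ≤ 2 * (Loss.card + P.E) ∧
      ∀ v ∈ I.T, v ∉ Hg → v ∉ Loss →
        (∃ ζ : I.Vx v, ∀ l l', l < l' → l' ≤ N' →
            (I.S v).dir ζ (i + l * J) ≠ (I.S v).dir ζ (i + l' * J)) ∨
        (I.ε v = 0 ∧ ∀ l l', l < l' → l' ≤ N' → I.g v (i + l * J) (i + l' * J) < c.c1) := by
  classical
  set Θ : ℝ := ϑ * n with hΘ
  have hnr : (1 : ℝ) ≤ n := by exact_mod_cast hn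
  have hsN : ∀ j ∈ s, j ≤ N := by
    intro j hj
    obtain ⟨l, hl, rfl⟩ := hs j hj
    have := Nat.mul_le_mul_right J hl
    omega
  have hsn : ∀ j ∈ s, j < n := by
    intro j hj
    obtain ⟨l, hl, rfl⟩ := hs j hj
    have := Nat.mul_le_mul_right J hl
    omega
  set kf : V → ℕ := fun v => (s.filter fun j => j ∉ (I.Lv v).heavy n Θ).card with hkf
  set Hg : Finset V := (I.rel n Nst).filter fun v => I.ε v < M ∧ i ∈ (I.Lv v).heavy n Θ ∧
    5 * (kf v : ℝ) ≤ R + 1 with hHg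
  set L1 : Finset V := I.T.filter fun v => M ≤ I.ε v with hL1
  set L2 : Finset V := (I.rel n Nst).filter fun v => i ∈ Bad v with hL2
  set L3 : Finset V := (I.rel n Nst).filter fun v => i ∈ (I.Lv v).heavy n Θ ∧ ¬ (5 * (kf v : ℝ) ≤ R + 1)
    with hL3
  have hrelT : I.rel n Nst ⊆ I.T := by
    unfold rel; exact filter_subset _ _
  have hsep : ∀ v ∈ I.T, v ∉ Hg → v ∉ L1 ∪ (L2 ∪ L3) →
        (∃ ζ : I.Vx v, ∀ l l', l < l' → l' ≤ N' →
            (I.S v).dir ζ (i + l * J) ≠ (I.S v).dir ζ (i + l' * J)) ∨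
        (I.ε v = 0 ∧ ∀ l l', l < l' → l' ≤ N' → I.g v (i + l * J) (i + l' * J) < c.c1) := by
    intro v hv hvH hvL
    rw [mem_union, not_or, mem_union, not_or] at hvL
    have hεM : I.ε v < M := by
      by_contra h
      push Not at h
      exact hvL.1 (mem_filter.mpr ⟨hv, h⟩)
    by_cases hvr : v ∈ I.rel n Nst
    · left
      have hnb : i ∉ Bad v := fun h => hvL.2.1 (mem_filter.mpr ⟨hvr, h⟩)
      have hnh : i ∉ (I.Lv v).heavy n Θ := by
        intro h
        by_cases h5 : 5 * (kf v : ℝ) ≤ R + 1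
        · exact hvH (mem_filter.mpr ⟨hvr, hεM, h, h5⟩)
        · exact hvL.2.2 (mem_filter.mpr ⟨hvr, h, h5⟩)
      exact hcl v i (by omega) hnb hnh
    · right
      have hε0 : I.ε v = 0 := by
        rcases (I.ε_nonneg v hv).lt_or_eq with h | h
        · exfalso
          apply hvr
          unfold rel
          exact mem_filter.mpr ⟨hv, Or.inl ⟨h, hεM⟩⟩
        · exact h.symm
      refine ⟨hε0, ?_⟩
      intro l l' hll hl'
      by_contra hclose
      push Not at hclose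
      apply hvr
      unfold rel
      refine mem_filter.mpr ⟨hv, Or.inr ⟨hε0, ?_⟩⟩
      have hl'J := Nat.mul_le_mul_right J hl'
      set m := (l' - l) * J with hm
      have hm1 : 1 ≤ m := Nat.mul_pos (by omega) hJ1
      have hbm : i + l' * J = i + l * J + m := by
        rw [hm, add_assoc, ← Nat.add_mul]
        congr 2
        omega
      obtain ⟨q, hq⟩ := hdvd (l' - l) (by omega) (by omega)
      have hq1 : 1 ≤ q := by
        rcases Nat.eq_zero_or_pos q with h | h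
        · rw [h, mul_zero] at hq; omega
        · exact h
      rw [hbm] at hclose
      have h1 := I.persist_mul hv hε0 hm1 hclose (n := n) (by omega) q hq1 (by
        rw [mul_comm q m, ← hq]; exact hN)
      rwa [mul_comm q m, ← hq] at h1
  have hLT : L1 ∪ (L2 ∪ L3) ⊆ I.T := union_subset (filter_subset _ _)
    (union_subset ((filter_subset _ _).trans hrelT) ((filter_subset _ _).trans hrelT))
  have hHT : Hg ⊆ I.T := (filter_subset _ _).trans hrelT
  have hlossb : ((L1 ∪ (L2 ∪ L3)).card : ℝ) ≤ I.h / M + tT + 10 * tU := by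
    have h1 := I.card_bad hM L1 (filter_subset _ _) (fun v hv => (mem_filter.mp hv).2)
    have h2 := hT L2 (filter_subset _ _) (fun v hv => (mem_filter.mp hv).2)
    have h3 : (L3.card : ℝ) ≤ 10 * tU := by
      have hRr : (0 : ℝ) ≤ R := Nat.cast_nonneg R
      have e1 : (L3.card : ℝ) * (R + 1) ≤ ∑ v ∈ L3, 5 * (kf v : ℝ) := by
        rw [← nsmul_eq_mul, ← sum_const]
        apply sum_le_sum
        intro v hv
        have := (mem_filter.mp hv).2.2
        push Not at this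
        exact this.le
      have e2 : ∑ v ∈ L3, (kf v : ℝ) = ∑ j ∈ s, ((L3.filter fun v => j ∉ (I.Lv v).heavy n Θ).card : ℝ) := by
        have : ∑ v ∈ L3, kf v = ∑ j ∈ s, (L3.filter fun v => j ∉ (I.Lv v).heavy n Θ).card := by
          simp only [hkf, card_filter]
          exact sum_comm
        exact_mod_cast this
      have e3 : ∑ j ∈ s, ((L3.filter fun v => j ∉ (I.Lv v).heavy n Θ).card : ℝ) ≤ ∑ j ∈ s, tU := by
        apply sum_le_sum
        intro j hj
        apply hU j hj _ ((filter_subset _ _).trans (filter_subset _ _))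
        intro v hv
        have hv1 := (mem_filter.mp hv).1
        have hv2 := (mem_filter.mp hv).2
        have hv3 := (mem_filter.mp hv1).2
        exact ⟨hv3.1, hv2⟩
      rw [sum_const, hcard, nsmul_eq_mul] at e3
      push_cast at e3
      rw [← mul_sum, e2] at e1
      have e4 : (L3.card : ℝ) * (R + 1) ≤ (10 * tU) * (R + 1) := by linarith
      exact le_of_mul_le_mul_right e4 (by linarith)
    have h4 : (((L1 ∪ (L2 ∪ L3)).card : ℕ) : ℝ) ≤ L1.card + (L2.card + L3.card) := by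
      have := (card_union_le L1 (L2 ∪ L3)).trans (Nat.add_le_add_left (card_union_le L2 L3) _)
      exact_mod_cast this
    linarith
  have hmain := I.main_ineq' hR hM.le s hsN hcard hdet Hg (L1 ∪ (L2 ∪ L3)) hHT ?_ ?_
  · exact ⟨Hg, L1 ∪ (L2 ∪ L3), hHT, hLT, hlossb, hmain, hsep⟩
  · -- stars elsewhere
    intro v hv hvH hvL
    rcases hsep v hv hvH hvL with ⟨ζ, hζ⟩ | ⟨hε0, hno⟩
    · apply I.star v hv ζ s hsN
      intro a ha b hb hab
      obtain ⟨l, hl, rfl⟩ := hs a ha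
      obtain ⟨l', hl', rfl⟩ := hs b hb
      rcases lt_trichotomy l l' with h | h | h
      · exact hζ l l' h hl'
      · subst h; exact absurd rfl hab
      · exact (hζ l' l h hl).symm
    · by_contra hst
      obtain ⟨a, ha, b, hb, hab, hclose⟩ := I.good v hv hε0 s hsN hst
      obtain ⟨l, hl, rfl⟩ := hs a ha
      obtain ⟨l', hl', rfl⟩ := hs b hb
      have hll : l < l' := by
        by_contra h
        push Not at h
        have := Nat.mul_le_mul_right J h
        omega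
      exact absurd hclose (not_le.mpr (hno l l' hll hl'))
  · -- heavy places
    intro v hv
    rw [hHg, mem_filter] at hv
    obtain ⟨hvr, hεM, hih, h5⟩ := hv
    refine ⟨hεM, kf v + ⌊1 / ϑ⌋₊, ?_, ?_⟩
    · push_cast
      have h1 : (⌊1 / ϑ⌋₊ : ℝ) ≤ 1 / ϑ := Nat.floor_le (by positivity)
      have h2 : 5 / ϑ = 5 * (1 / ϑ) := by ring
      rw [h2] at hRϑ
      linarith
    · intro s' hs' hs'card
      set s2 := s'.filter fun j => j ∈ (I.Lv v).heavy n Θ with hs2
      have h1 := card_filter_add_card_filter_not (s := s') (fun j => j ∈ (I.Lv v).heavy n Θ)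
      have h2 : (s'.filter fun j => ¬ j ∈ (I.Lv v).heavy n Θ).card ≤ kf v :=
        card_le_card (filter_subset_filter _ hs')
      have h3 : ⌊1 / ϑ⌋₊ < s2.card := by
        have : (s'.filter fun j => j ∈ (I.Lv v).heavy n Θ).card = s2.card := rfl
        omega
      have h4 : 1 / ϑ < s2.card := (Nat.floor_lt (by positivity)).mp h3
      rw [div_lt_iff₀ hϑ] at h4
      obtain ⟨a, ha, b, hb, hab, hdir⟩ := exists_deep_pair (I.Lv v) (c.hdepth M) (n := n) (Θ := Θ) s2
        (fun j hj => (mem_filter.mp hj).2) (by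
          rw [hΘ]
          nlinarith)
      have ha' := (mem_filter.mp ha).1
      have hb' := (mem_filter.mp hb).1
      exact ⟨a, ha', b, hb', hab, I.deep v (hrelT hvr) hεM a b (hsN a (hs' ha')) (hsN b (hs' hb')) hab hdir⟩

end GInst

end Pool.Agent.Helper33.UB
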