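import Pool.Agent.Helper33.UB.Inst

/-!
# Selection of a scale and of an index; the height bound
-/

set_option autoImplicit false

open Finset Polynomial

namespace Pool.Agent.Helper33.UB

open TreeDyn

/-- the output of one scale -/
def ScaleP (d L : ℕ) (κ ϑ ϑ₁ : ℝ) (N' J n0 : ℕ) : Prop :=
  1 ≤ J ∧ 0 < ϑ₁ ∧ ϑ₁ < ϑ ∧ ∀ n : ℕ, n0 ≤ n →
      ∀ (𝒱 𝒟 : Type) (S : TreeDyn 𝒱 𝒟 d) (Lv : S.Levels L),
      ∃ Bad : Finset ℕ, Bad ⊆ range n ∧
        (Bad.card : ℝ) ≤ (Lv.unclean n (ϑ₁ * n) (ϑ * n)).card + κ * n ∧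
        ∀ i < n, i ∉ Bad → i ∉ Lv.heavy n (ϑ * n) →
          (∃ ζ : 𝒱, ∀ l l', l < l' → l' ≤ N' → S.dir ζ (i + l * J) ≠ S.dir ζ (i + l' * J)) ∧
          ∀ l ≤ N', i + l * J ∉ Lv.heavy n (ϑ * n)

/-- a sequence of scales -/
lemma exists_scales (d L : ℕ) (hd : 1 ≤ d) (hL : 1 ≤ L) (κ : ℝ) (hκ : 0 < κ) (hκ1 : κ ≤ 1)
    (Nf : ℝ → ℕ) (hNf : ∀ ϑ, 0 < ϑ → 1 ≤ Nf ϑ ∧ 1 ≤ ϑ * Nf ϑ) :
    ∃ (ϑ : ℕ → ℝ) (J n0 : ℕ → ℕ), (∀ b, 0 < ϑ b ∧ ϑ b ≤ 1) ∧
      ∀ b, ScaleP d L κ (ϑ b) (ϑ (b + 1)) (Nf (ϑ b)) (J b) (n0 b) := by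
  have hstep : ∀ ϑ : {ϑ : ℝ // 0 < ϑ ∧ ϑ ≤ 1}, ∃ (J n0 : ℕ) (ϑ₁ : {ϑ : ℝ // 0 < ϑ ∧ ϑ ≤ 1}),
      ScaleP d L κ ϑ.1 ϑ₁.1 (Nf ϑ.1) J n0 := by
    rintro ⟨ϑ, h0, h1⟩
    obtain ⟨J, hJ, ϑ₁, h2, h3, n0, hn0⟩ := scale d L hd hL κ hκ hκ1 ϑ h0 h1 (Nf ϑ) (hNf ϑ h0).1 (hNf ϑ h0).2
    exact ⟨J, n0, ⟨ϑ₁, h2, by linarith⟩, hJ, h2, h3, fun n hn 𝒱 𝒟 S Lv => hn0 n hn S Lv⟩
  choose J n0 nx hnx using hstep
  let seq : ℕ → {ϑ : ℝ // 0 < ϑ ∧ ϑ ≤ 1} := fun b => Nat.rec ⟨1, by norm_num, le_rfl⟩ (fun _ a => nx a) b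
  exact ⟨fun b => (seq b).1, fun b => J (seq b), fun b => n0 (seq b), fun b => (seq b).2,
    fun b => hnx (seq b)⟩

/-- few scales are unclean -/
lemma sum_unclean {𝒱 𝒟 : Type} {d L : ℕ} {S : TreeDyn 𝒱 𝒟 d} (Lv : S.Levels L) (ϑ : ℕ → ℝ)
    (hϑ : ∀ b, ϑ (b + 1) < ϑ b) (n K : ℕ) :
    ∑ b ∈ range K, (Lv.unclean n (ϑ (b + 1) * n) (ϑ b * n)).card ≤ (L + 1) * n := by
  classical
  have hanti : ∀ b b', b < b' → ϑ b' ≤ ϑ (b + 1) := by
    intro b b' h
    have : Antitone ϑ := antitone_nat_of_succ_le fun b => (hϑ b).le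
    exact this h
  have h1 : ∑ b ∈ range K, (Lv.unclean n (ϑ (b + 1) * n) (ϑ b * n)).card =
      ∑ i ∈ range n, ((range K).filter fun b => i ∈ Lv.unclean n (ϑ (b + 1) * n) (ϑ b * n)).card := by
    have e1 : ∀ b, (Lv.unclean n (ϑ (b + 1) * n) (ϑ b * n)).card =
        ∑ i ∈ range n, if i ∈ Lv.unclean n (ϑ (b + 1) * n) (ϑ b * n) then 1 else 0 := by
      intro b
      rw [← card_filter]
      congr 1
      ext i
      rw [mem_filter]
      constructor
      · intro hi; exact ⟨(mem_filter.mp hi).1, hi⟩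
      · intro hi; exact hi.2
    rw [sum_congr rfl (fun b _ => e1 b), sum_comm]
    apply sum_congr rfl
    intro i _
    rw [card_filter]
  rw [h1]
  calc _ ≤ ∑ i ∈ range n, (L + 1) := by
        apply sum_le_sum
        intro i _
        have hsub : ((range K).filter fun b => i ∈ Lv.unclean n (ϑ (b + 1) * n) (ϑ b * n)) ⊆
            (range (L + 1)).biUnion fun ℓ => (range K).filter fun b =>
              ϑ (b + 1) * n ≤ (Lv.m n ℓ i : ℝ) ∧ (Lv.m n ℓ i : ℝ) < ϑ b * n := by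
          intro b hb
          rw [mem_filter] at hb
          obtain ⟨hb1, hb2⟩ := hb
          obtain ⟨ℓ, hℓ, h2⟩ := (mem_filter.mp hb2).2
          rw [mem_biUnion]
          exact ⟨ℓ, mem_range.mpr (by omega), mem_filter.mpr ⟨hb1, h2⟩⟩
        refine (card_le_card hsub).trans (card_biUnion_le.trans ?_)
        calc _ ≤ ∑ ℓ ∈ range (L + 1), 1 := by
              apply sum_le_sum
              intro ℓ _
              rw [card_le_one]
              intro b hb b' hb'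
              rw [mem_filter] at hb hb'
              rcases lt_trichotomy b b' with h | h | h
              · exfalso
                have := hanti b b' h
                have h3 : ϑ b' * n ≤ ϑ (b + 1) * n := mul_le_mul_of_nonneg_right this (Nat.cast_nonneg n)
                linarith [hb.2.1, hb'.2.2]
              · exact h
              · exfalso
                have := hanti b' b h
                have h3 : ϑ b * n ≤ ϑ (b' + 1) * n := mul_le_mul_of_nonneg_right this (Nat.cast_nonneg n)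
                linarith [hb'.2.1, hb.2.2]
          _ = L + 1 := by simp
    _ = (L + 1) * n := by rw [sum_const, card_range, smul_eq_mul, mul_comm]

/-- two heavy indices in a common deep class -/
lemma exists_deep_pair {𝒱 𝒟 : Type*} {d L : ℕ} {S : TreeDyn 𝒱 𝒟 d} (Lv : S.Levels L) (hL : 1 ≤ L)
    {n : ℕ} {Θ : ℝ} (s : Finset ℕ) (hs : s ⊆ Lv.heavy n Θ) (hcard : (n : ℝ) < s.card * Θ) :
    ∃ i ∈ s, ∃ j ∈ s, i ≠ j ∧ S.dir (Lv.vtx (L - 1) i) j = S.dir (Lv.vtx (L - 1) i) i := by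
  classical
  by_contra hcon
  push Not at hcon
  set Cl : ℕ → Finset ℕ := fun i => (range n).filter fun j =>
    S.dir (Lv.vtx (L - 1) i) j = S.dir (Lv.vtx (L - 1) i) i with hCl
  have hdisj : ∀ i ∈ s, ∀ j ∈ s, i ≠ j → Disjoint (Cl i) (Cl j) := by
    intro i hi j hj hij
    rw [disjoint_left]
    intro a hai haj
    have h1 := (mem_filter.mp hai).2
    have h2 := (mem_filter.mp haj).2
    have h3 := Lv.deep j a h2 (L - 1) (by omega) i
    exact hcon i hi j hj hij (h3.trans h1)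
  have h1 : (s.card : ℝ) * Θ ≤ ∑ i ∈ s, ((Cl i).card : ℝ) := by
    rw [← nsmul_eq_mul, ← sum_const]
    apply sum_le_sum
    intro i hi
    have := (mem_filter.mp (hs hi)).2
    rw [Lv.m_pos n hL] at this
    refine this.trans (le_of_eq ?_)
    unfold mass
    rfl
  have h2 : ∑ i ∈ s, ((Cl i).card : ℝ) ≤ n := by
    have h3 : (s.biUnion Cl).card = ∑ i ∈ s, (Cl i).card := card_biUnion hdisj
    have h4 : (s.biUnion Cl).card ≤ n := by
      calc _ ≤ (range n).card := card_le_card (biUnion_subset.mpr fun i _ => filter_subset _ _)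
        _ = n := card_range n
    rw [h3] at h4
    exact_mod_cast h4
  linarith

/-- Markov's inequality for finite sums -/
lemma markov {α : Type*} (s : Finset α) (W : α → ℝ) (hW : ∀ a ∈ s, 0 ≤ W a) {B t : ℝ} (ht : 0 ≤ t)
    (hB : ∑ a ∈ s, W a ≤ t * B) (hB0 : 0 ≤ B) (q : ℝ) (hq : 0 < q) [DecidablePred fun a => q * t < W a] :
    ((s.filter fun a => q * t < W a).card : ℝ) ≤ B / q := by
  rw [le_div_iff₀ hq]
  rcases ht.lt_or_eq with ht | ht
  · have h1 : ((s.filter fun a => q * t < W a).card : ℝ) * (q * t) ≤ t * B := by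
      calc _ = ∑ a ∈ s.filter (fun a => q * t < W a), q * t := by rw [sum_const, nsmul_eq_mul]
        _ ≤ ∑ a ∈ s.filter (fun a => q * t < W a), W a :=
            sum_le_sum fun a ha => (mem_filter.mp ha).2.le
        _ ≤ ∑ a ∈ s, W a := sum_le_sum_of_subset_of_nonneg (filter_subset _ _) fun a ha _ => hW a ha
        _ ≤ t * B := hB
    have h2 : t * (((s.filter fun a => q * t < W a).card : ℝ) * q) ≤ t * B := by linarith
    exact le_of_mul_le_mul_left h2 ht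
  · have hempty : (s.filter fun a => q * t < W a) = ∅ := by
      rw [filter_eq_empty_iff]
      intro a ha hlt
      rw [← ht, zero_mul] at hB
      rw [← ht, mul_zero] at hlt
      have := single_le_sum hW ha
      linarith
    rw [hempty, card_empty, Nat.cast_zero, zero_mul]
    exact hB0

end Pool.Agent.Helper33.UB
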