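import Pool.Agent.Helper33.UB.Select

/-!
# The inequality at a selected index
-/

set_option autoImplicit false

open Finset Polynomial

namespace Pool.Agent.Helper33.UB

open TreeDyn

lemma Star.mono {K : Type*} [Field K] {v : DV K} {I J : Finset K} (h : Star v I) (hJ : J ⊆ I) :
    Star v J :=
  fun p hp q hq c hc c' hc' => h p (hJ hp) q (hJ hq) c (hJ hc) c' (hJ hc')

namespace GInst

variable {k K V : Type*} [Field k] [Field K] [Algebra k K] [DecidableEq K] {P : PSys k K V}
  {c : GConst} {N : ℕ} {M : ℝ} (I : GInst P c N M)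

open Classical in
/-- relevant places -/
noncomputable def rel (n Nst : ℕ) : Finset V :=
  I.T.filter fun v => (0 < I.ε v ∧ I.ε v < M) ∨ (I.ε v = 0 ∧ c.c1 ≤ I.g v n (n + Nst))

lemma card_rel {n Nst : ℕ} (hN : n + Nst ≤ N) (hNst : 1 ≤ Nst) :
    ((I.rel n Nst).card : ℝ) ≤ (1 / c.δ0 + c.C1 / c.c1) * I.h := by
  classical
  have hsub : I.rel n Nst ⊆ (I.T.filter fun v => 0 < I.ε v) ∪
      (I.T.filter fun v => I.ε v = 0 ∧ c.c1 ≤ I.g v n (n + Nst)) := by
    intro v hv
    unfold rel at hv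
    rw [mem_filter] at hv
    rcases hv.2 with h | h
    · exact mem_union_left _ (mem_filter.mpr ⟨hv.1, h.1⟩)
    · exact mem_union_right _ (mem_filter.mpr ⟨hv.1, h⟩)
  have h1 := I.card_bad c.hδ0 (I.T.filter fun v => 0 < I.ε v) (filter_subset _ _) (by
    intro v hv
    rw [mem_filter] at hv
    exact I.disc v hv.1 hv.2)
  have h2 := I.card_close (i := n) (j := n + Nst) (by omega) hN (by omega)
    (I.T.filter fun v => I.ε v = 0 ∧ c.c1 ≤ I.g v n (n + Nst)) (filter_subset _ _) (by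
    intro v hv
    exact (mem_filter.mp hv).2.2)
  have h3 : ((I.rel n Nst).card : ℝ) ≤ ((I.T.filter fun v => 0 < I.ε v).card : ℝ) +
      ((I.T.filter fun v => I.ε v = 0 ∧ c.c1 ≤ I.g v n (n + Nst)).card : ℝ) := by
    exact_mod_cast (card_le_card hsub).trans (card_union_le _ _)
  rw [add_mul, one_div, inv_mul_eq_div]
  linarith

/-- **The inequality at a selected index.** -/
theorem claim1 (hM : 0 < M) {n Nst : ℕ} (hN : n + Nst ≤ N) {R N' J : ℕ} {ϑ : ℝ} (hϑ : 0 < ϑ)
    (hn : 1 ≤ n)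
    (hRϑ : 5 / ϑ ≤ R + 1) (hR : c.N0 * (c.c0 + c.C1) ≤ (R + 1) * c.c0) (hJ1 : 1 ≤ J)
    (hdvd : ∀ l, 1 ≤ l → l ≤ N' → l * J ∣ Nst) (hNst : 1 ≤ Nst) (Bad : V → Finset ℕ)
    (hcl : ∀ v, ∀ i < n, i ∉ Bad v → i ∉ (I.Lv v).heavy n (ϑ * n) →
          ∃ ζ : I.Vx v, ∀ l l', l < l' → l' ≤ N' →
            (I.S v).dir ζ (i + l * J) ≠ (I.S v).dir ζ (i + l' * J))
    {i : ℕ} (hi : i + N' * J < n) (s : Finset ℕ) (hs : ∀ j ∈ s, ∃ l ≤ N', j = i + l * J)
    (hcard : s.card = 2 * (R + 1)) (hdet : (hankel P.D (s.image I.x) R).det ≠ 0) (tT tU : ℝ)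
    (hT : ∀ B ⊆ I.rel n Nst, (∀ v ∈ B, i ∈ Bad v) → (B.card : ℝ) ≤ tT)
    (hU : ∀ j ∈ s, ∀ B ⊆ I.rel n Nst, (∀ v ∈ B, i ∈ (I.Lv v).heavy n (ϑ * n) ∧
      j ∉ (I.Lv v).heavy n (ϑ * n)) → (B.card : ℝ) ≤ tU) :
    c.c0 / 2 * I.h ≤ 2 * (I.h / M + tT + 10 * tU + P.E) := by
  classical
  set Θ : ℝ := ϑ * n with hΘ
  have hnr : (1 : ℝ) ≤ n := by exact_mod_cast hn
  have hsN : ∀ j ∈ s, j ≤ N := by
    intro j hj
    obtain ⟨l, hl, rfl⟩ := hs j hj
    have := Nat.mul_le_mul_right J hl
    omega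
  have hsn : ∀ j ∈ s, j < n := by
    intro j hj
    obtain ⟨l, hl, rfl⟩ := hs j hj
    have := Nat.mul_le_mul_right J hl
    omega
  set kf : V → ℕ := fun v => (s.filter fun j => j ∉ (I.Lv v).heavy n Θ).card with hkf
  set Hg : Finset V := (I.rel n Nst).filter fun v => I.ε v < M ∧ i ∈ (I.Lv v).heavy n Θ ∧
    5 * (kf v : ℝ) ≤ R + 1 with hHg
  set L1 : Finset V := I.T.filter fun v => M ≤ I.ε v with hL1
  set L2 : Finset V := (I.rel n Nst).filter fun v => i ∈ Bad v with hL2
  set L3 : Finset V := (I.rel n Nst).filter fun v => i ∈ (I.Lv v).heavy n Θ ∧ ¬ (5 * (kf v : ℝ) ≤ R + 1)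
    with hL3
  have hrelT : I.rel n Nst ⊆ I.T := by
    unfold rel; exact filter_subset _ _
  have hmain := I.main_ineq hR hM.le s hsN hcard hdet Hg (L1 ∪ (L2 ∪ L3))
    ((filter_subset _ _).trans hrelT) ?_ ?_
  · -- bound of the losses
    have h1 := I.card_bad hM L1 (filter_subset _ _) (fun v hv => (mem_filter.mp hv).2)
    have h2 := hT L2 (filter_subset _ _) (fun v hv => (mem_filter.mp hv).2)
    have h3 : (L3.card : ℝ) ≤ 10 * tU := by
      have hRr : (0 : ℝ) ≤ R := Nat.cast_nonneg R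
      have e1 : (L3.card : ℝ) * (R + 1) ≤ ∑ v ∈ L3, 5 * (kf v : ℝ) := by
        rw [← nsmul_eq_mul, ← sum_const]
        apply sum_le_sum
        intro v hv
        have := (mem_filter.mp hv).2.2
        push Not at this
        exact this.le
      have e2 : ∑ v ∈ L3, (kf v : ℝ) = ∑ j ∈ s, ((L3.filter fun v => j ∉ (I.Lv v).heavy n Θ).card : ℝ) := by
        have : ∑ v ∈ L3, kf v = ∑ j ∈ s, (L3.filter fun v => j ∉ (I.Lv v).heavy n Θ).card := by
          simp only [hkf, card_filter]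
          exact sum_comm
        exact_mod_cast this
      have e3 : ∑ j ∈ s, ((L3.filter fun v => j ∉ (I.Lv v).heavy n Θ).card : ℝ) ≤ ∑ j ∈ s, tU := by
        apply sum_le_sum
        intro j hj
        apply hU j hj _ ((filter_subset _ _).trans (filter_subset _ _))
        intro v hv
        have hv1 := (mem_filter.mp hv).1
        have hv2 := (mem_filter.mp hv).2
        have hv3 := (mem_filter.mp hv1).2
        exact ⟨hv3.1, hv2⟩
      rw [sum_const, hcard, nsmul_eq_mul] at e3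
      push_cast at e3
      rw [← mul_sum, e2] at e1
      have e4 : (L3.card : ℝ) * (R + 1) ≤ (10 * tU) * (R + 1) := by linarith
      exact le_of_mul_le_mul_right e4 (by linarith)
    have h4 : (((L1 ∪ (L2 ∪ L3)).card : ℕ) : ℝ) ≤ L1.card + (L2.card + L3.card) := by
      have := (card_union_le L1 (L2 ∪ L3)).trans (Nat.add_le_add_left (card_union_le L2 L3) _)
      exact_mod_cast this
    linarith
  · -- stars elsewhere
    intro v hv hvH hvL
    rw [mem_union, not_or, mem_union, not_or] at hvL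
    have hεM : I.ε v < M := by
      by_contra h
      push Not at h
      exact hvL.1 (mem_filter.mpr ⟨hv, h⟩)
    by_cases hvr : v ∈ I.rel n Nst
    · have hnb : i ∉ Bad v := fun h => hvL.2.1 (mem_filter.mpr ⟨hvr, h⟩)
      have hnh : i ∉ (I.Lv v).heavy n Θ := by
        intro h
        by_cases h5 : 5 * (kf v : ℝ) ≤ R + 1
        · exact hvH (mem_filter.mpr ⟨hvr, hεM, h, h5⟩)
        · exact hvL.2.2 (mem_filter.mpr ⟨hvr, h, h5⟩)
      obtain ⟨ζ, hζ⟩ := hcl v i (by omega) hnb hnh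
      apply I.star v hv ζ s hsN
      intro a ha b hb hab
      obtain ⟨l, hl, rfl⟩ := hs a ha
      obtain ⟨l', hl', rfl⟩ := hs b hb
      rcases lt_trichotomy l l' with h | h | h
      · exact hζ l l' h hl'
      · subst h; exact absurd rfl hab
      · exact (hζ l' l h hl).symm
    · -- good irrelevant places
      by_contra hst
      have hε0 : I.ε v = 0 := by
        rcases (I.ε_nonneg v hv).lt_or_eq with h | h
        · exfalso
          apply hvr
          unfold rel
          exact mem_filter.mpr ⟨hv, Or.inl ⟨h, hεM⟩⟩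
        · exact h.symm
      obtain ⟨a, ha, b, hb, hab, hclose⟩ := I.good v hv hε0 s hsN hst
      apply hvr
      unfold rel
      refine mem_filter.mpr ⟨hv, Or.inr ⟨hε0, ?_⟩⟩
      obtain ⟨l, hl, hal⟩ := hs a ha
      obtain ⟨l', hl', hbl⟩ := hs b hb
      have hll : l < l' := by
        by_contra h
        push Not at h
        have := Nat.mul_le_mul_right J h
        omega
      set m := (l' - l) * J with hm
      have hm1 : 1 ≤ m := Nat.mul_pos (by omega) hJ1
      have hbm : b = a + m := by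
        rw [hbl, hal, hm, add_assoc, ← Nat.add_mul]
        congr 2
        omega
      obtain ⟨q, hq⟩ := hdvd (l' - l) (by omega) (by omega)
      have hq1 : 1 ≤ q := by
        rcases Nat.eq_zero_or_pos q with h | h
        · rw [h, mul_zero] at hq; omega
        · exact h
      have hclose' : c.c1 ≤ I.g v a (a + m) := by rw [← hbm]; exact hclose
      have h1 := I.persist_mul hv hε0 hm1 hclose' (n := n) (hsn a ha).le q hq1 (by
        rw [mul_comm q m, ← hq]; exact hN)
      rwa [mul_comm q m, ← hq] at h1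
  · -- heavy places
    intro v hv
    rw [hHg, mem_filter] at hv
    obtain ⟨hvr, hεM, hih, h5⟩ := hv
    refine ⟨hεM, kf v + ⌊1 / ϑ⌋₊, ?_, ?_⟩
    · push_cast
      have h1 : (⌊1 / ϑ⌋₊ : ℝ) ≤ 1 / ϑ := Nat.floor_le (by positivity)
      have h2 : 5 / ϑ = 5 * (1 / ϑ) := by ring
      rw [h2] at hRϑ
      linarith
    · intro s' hs' hs'card
      set s2 := s'.filter fun j => j ∈ (I.Lv v).heavy n Θ with hs2
      have h1 := card_filter_add_card_filter_not (s := s') (fun j => j ∈ (I.Lv v).heavy n Θ)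
      have h2 : (s'.filter fun j => ¬ j ∈ (I.Lv v).heavy n Θ).card ≤ kf v :=
        card_le_card (filter_subset_filter _ hs')
      have h3 : ⌊1 / ϑ⌋₊ < s2.card := by
        have : (s'.filter fun j => j ∈ (I.Lv v).heavy n Θ).card = s2.card := rfl
        omega
      have h4 : 1 / ϑ < s2.card := (Nat.floor_lt (by positivity)).mp h3
      rw [div_lt_iff₀ hϑ] at h4
      obtain ⟨a, ha, b, hb, hab, hdir⟩ := exists_deep_pair (I.Lv v) (c.hdepth M) (n := n) (Θ := Θ) s2
        (fun j hj => (mem_filter.mp hj).2) (by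
          rw [hΘ]
          nlinarith)
      have ha' := (mem_filter.mp ha).1
      have hb' := (mem_filter.mp hb).1
      exact ⟨a, ha', b, hb', hab, I.deep v (hrelT hvr) hεM a b (hsN a (hs' ha')) (hsN b (hs' hb')) hab hdir⟩

end GInst

end Pool.Agent.Helper33.UB
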