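import Pool.Agent.Helper33.UB.Select2

/-!
# The height bound
-/

set_option autoImplicit false

open Finset Polynomial

namespace Pool.Agent.Helper33.UB

open TreeDyn

/-- double counting -/
lemma sum_card_swap {V : Type*} (rel : Finset V) (s : Finset ℕ) (p : ℕ → V → Prop)
    [∀ i, DecidablePred (p i)] [∀ v, DecidablePred fun i => p i v] :
    ∑ i ∈ s, ((rel.filter (p i)).card : ℝ) = ∑ v ∈ rel, ((s.filter fun i => p i v).card : ℝ) := by
  have : ∑ i ∈ s, (rel.filter (p i)).card = ∑ v ∈ rel, (s.filter fun i => p i v).card := by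
    simp only [card_filter]
    exact sum_comm
  exact_mod_cast this

/-- abstract selection of an index -/
lemma exists_index (Tf : ℕ → ℝ) (U : ℕ → ℕ → ℝ) (hT0 : ∀ i, 0 ≤ Tf i) (hU0 : ∀ i l, 0 ≤ U i l)
    (n N' n1 m : ℕ) (t : ℝ) (ht : 0 ≤ t) (hTs : ∑ i ∈ range n1, Tf i ≤ t * (2 * n))
    (hUs : ∀ l ≤ N', ∑ i ∈ range n1, U i l ≤ t * (3 * n)) (hn : (n : ℝ) < 2 * (n1 - m)) (hm : m ≤ n1) :
    ∃ i < n1 - m, ∀ i', i' = i ∨ i' = i + m → Tf i' ≤ 20 * t ∧
      ∃ Λ ⊆ range (N' + 1), (9 / 10 * (N' + 1) : ℝ) ≤ Λ.card ∧ ∀ l ∈ Λ, U i' l ≤ 200 * t := by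
  classical
  have hn0 : (0 : ℝ) ≤ n := Nat.cast_nonneg _
  have hN'r : (0 : ℝ) < (N' : ℝ) + 1 := by positivity
  obtain ⟨W, hW⟩ : ∃ W : ℕ → ℝ, ∀ i, W i = Tf i + (1 / ((N' : ℝ) + 1)) * ∑ l ∈ range (N' + 1), U i l :=
    ⟨_, fun _ => rfl⟩
  have hS0 : ∀ i, 0 ≤ (1 / ((N' : ℝ) + 1)) * ∑ l ∈ range (N' + 1), U i l := by
    intro i
    have := sum_nonneg (s := range (N' + 1)) fun l _ => hU0 i l
    positivity
  have hW0 : ∀ i, 0 ≤ W i := fun i => by
    rw [hW]
    exact add_nonneg (hT0 i) (hS0 i)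
  have hWsum : ∑ i ∈ range n1, W i ≤ t * (5 * n) := by
    rw [sum_congr rfl fun i _ => hW i, sum_add_distrib, ← mul_sum, sum_comm]
    have h1 : ∑ l ∈ range (N' + 1), ∑ i ∈ range n1, U i l ≤ ∑ l ∈ range (N' + 1), t * (3 * n) := by
      apply sum_le_sum
      intro l hl
      rw [mem_range] at hl
      exact hUs l (by omega)
    rw [sum_const, card_range, nsmul_eq_mul] at h1
    push_cast at h1
    have h2 : (1 / ((N' : ℝ) + 1)) * ∑ l ∈ range (N' + 1), ∑ i ∈ range n1, U i l ≤ t * (3 * n) := by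
      rw [one_div, inv_mul_le_iff₀ hN'r]
      exact h1
    linarith
  have hmk := markov (range n1) W (fun a _ => hW0 a) ht hWsum (by positivity) 20 (by norm_num)
  obtain ⟨B1, hB1⟩ : ∃ B1, B1 = (range n1).filter fun a => 20 * t < W a := ⟨_, rfl⟩
  rw [← hB1] at hmk
  have hgood : ∀ i, W i ≤ 20 * t → Tf i ≤ 20 * t ∧
      ∃ Λ ⊆ range (N' + 1), (9 / 10 * (N' + 1) : ℝ) ≤ Λ.card ∧ ∀ l ∈ Λ, U i l ≤ 200 * t := by
    intro i hi
    rw [hW] at hi
    have h0 := hS0 i
    have h0' := hT0 i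
    refine ⟨by linarith, (range (N' + 1)).filter fun l => ¬ (200 * t < U i l), filter_subset _ _, ?_, ?_⟩
    · have h1 : (1 / ((N' : ℝ) + 1)) * ∑ l ∈ range (N' + 1), U i l ≤ 20 * t := by linarith
      rw [one_div, inv_mul_le_iff₀ hN'r] at h1
      have h2 := markov (range (N' + 1)) (U i) (fun l _ => hU0 i l) (B := 20 * ((N' : ℝ) + 1))
        ht (by linarith) (by positivity) 200 (by norm_num)
      have h3 := card_filter_add_card_filter_not (s := range (N' + 1)) (fun l => 200 * t < U i l)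
      rw [card_range] at h3
      have h4 : (((range (N' + 1)).filter fun l => 200 * t < U i l).card : ℝ) +
          ((range (N' + 1)).filter fun l => ¬ (200 * t < U i l)).card = N' + 1 := by
        exact_mod_cast h3
      linarith
    · intro l hl
      have h1 := (mem_filter.mp hl).2
      push Not at h1
      exact h1
  have hex : ∃ i ∈ range (n1 - m), i ∉ B1 ∧ i + m ∉ B1 := by
    by_contra hcon
    push Not at hcon
    have hsub : range (n1 - m) ⊆ B1 ∪ ((range (n1 - m)).filter fun i => i + m ∈ B1) := by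
      intro i hi
      by_cases h : i ∈ B1
      · exact mem_union_left _ h
      · exact mem_union_right _ (mem_filter.mpr ⟨hi, hcon i hi h⟩)
    have h1 := (card_le_card hsub).trans (card_union_le _ _)
    have h2 : ((range (n1 - m)).filter fun i => i + m ∈ B1).card ≤ B1.card := by
      apply card_le_card_of_injOn (fun i => i + m)
      · intro i hi
        exact (mem_filter.mp hi).2
      · intro i _ j _ hij
        exact Nat.add_right_cancel hij
    rw [card_range] at h1
    have h3 : ((n1 - m : ℕ) : ℝ) ≤ 2 * (B1.card : ℝ) := by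
      have : n1 - m ≤ 2 * B1.card := by omega
      exact_mod_cast this
    rw [Nat.cast_sub hm] at h3
    linarith
  obtain ⟨i, hi, hi1, hi2⟩ := hex
  rw [mem_range] at hi
  refine ⟨i, hi, ?_⟩
  rintro i' (rfl | rfl)
  · apply hgood
    by_contra h
    push Not at h
    exact hi1 (by rw [hB1]; exact mem_filter.mpr ⟨mem_range.mpr (by omega), h⟩)
  · apply hgood
    by_contra h
    push Not at h
    exact hi2 (by rw [hB1]; exact mem_filter.mpr ⟨mem_range.mpr (by omega), h⟩)

open Classical in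
lemma exists_good_index {V : Type*} (rel : Finset V) (n N' J m : ℕ) (κ : ℝ) (hκ : 0 < κ)
    (hκ1 : κ ≤ 1) (hn : (N' * J + m + 2 : ℝ) ≤ κ * n / 4)
    (Hv Bad : V → Finset ℕ) (hHv : ∀ v ∈ rel, Hv v ⊆ range n)
    (hsum : ∑ v ∈ rel, ((Bad v).card : ℝ) ≤ 2 * (κ * n * rel.card))
    (htr : ∀ v ∈ rel, ∀ i < n, i ∉ Bad v → i ∉ Hv v → ∀ l ≤ N', i + l * J ∉ Hv v) :
    ∃ i, i + N' * J + m < n ∧ ∀ i', i' = i ∨ i' = i + m →
      ((rel.filter fun v => i' ∈ Bad v).card : ℝ) ≤ 20 * (κ * rel.card) ∧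
      ∃ Λ ⊆ range (N' + 1), (9 / 10 * (N' + 1) : ℝ) ≤ Λ.card ∧
        ∀ l ∈ Λ, ((rel.filter fun v => i' ∈ Hv v ∧ i' + l * J ∉ Hv v).card : ℝ) ≤
          200 * (κ * rel.card) := by
  have hρ0 : (0 : ℝ) ≤ (rel.card : ℝ) := Nat.cast_nonneg _
  have hn0 : (0 : ℝ) ≤ n := Nat.cast_nonneg _
  have hm0 : (0 : ℝ) ≤ m := Nat.cast_nonneg _
  have hκn : κ * n ≤ n := by nlinarith
  have hNJn : N' * J + m + 2 ≤ n := by
    have : ((N' * J + m + 2 : ℕ) : ℝ) ≤ n := by push_cast; linarith
    exact_mod_cast this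
  have hn1 : ((n - N' * J : ℕ) : ℝ) = n - N' * J := by
    rw [Nat.cast_sub (by omega)]
    push_cast
    ring
  obtain ⟨i, hi, h⟩ := exists_index (fun i => ((rel.filter fun v => i ∈ Bad v).card : ℝ))
    (fun i l => ((rel.filter fun v => i ∈ Hv v ∧ i + l * J ∉ Hv v).card : ℝ))
    (fun i => Nat.cast_nonneg _) (fun i l => Nat.cast_nonneg _) n N' (n - N' * J) m (κ * rel.card)
    (by positivity) (by
      rw [sum_card_swap]
      refine le_trans (sum_le_sum fun v _ => ?_) (hsum.trans (by linarith))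
      exact_mod_cast card_le_card (fun i hi => (mem_filter.mp hi).2))
    (by
      intro l hl
      rw [sum_card_swap]
      have h3 : ∀ v ∈ rel, (((range (n - N' * J)).filter fun i => i ∈ Hv v ∧ i + l * J ∉ Hv v).card : ℝ) ≤
          N' * J + ((Bad v).card : ℝ) := by
        intro v hv
        have hlJ : l * J ≤ N' * J := Nat.mul_le_mul_right J hl
        have h4 := card_transition (n := n) (Hv v) (Bad v) (hHv v hv) (l * J)
          (fun i hi hb hh => htr v hv i hi hb hh l hl)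
          ((range (n - N' * J)).filter fun i => i ∈ Hv v ∧ i + l * J ∉ Hv v) (by
            intro i hi
            rw [mem_filter, mem_range] at hi
            exact ⟨hi.2.1, by omega, hi.2.2⟩)
        have h5 : ((range (n - N' * J)).filter fun i => i ∈ Hv v ∧ i + l * J ∉ Hv v).card ≤
            N' * J + (Bad v).card := h4.trans (by omega)
        exact_mod_cast h5
      refine (sum_le_sum h3).trans ?_
      rw [sum_add_distrib, sum_const, nsmul_eq_mul]
      have h6 : (rel.card : ℝ) * (N' * J) ≤ rel.card * (κ * n / 4) :=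
        mul_le_mul_of_nonneg_left (by linarith) hρ0
      have h7 : 0 ≤ κ * rel.card * n := by positivity
      have h8 : κ * n * rel.card = κ * rel.card * n := by ring
      rw [h8] at hsum
      linarith)
    (by rw [hn1]; linarith) (by omega)
  exact ⟨i, by omega, h⟩

end Pool.Agent.Helper33.UB
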