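import Mathlib

/-!
# Abstract dynamics on a tree, seen from the index set of an orbit
-/

set_option autoImplicit false

namespace Pool.Agent.Helper33.UB

open Finset

/-- Vertices and directions of a tree with a dynamical system, as seen by an orbit indexed by `ℕ`. -/
structure TreeDyn (𝒱 𝒟 : Type*) (d : ℕ) where
  /-- the direction of the index `i` at a vertex -/
  dir : 𝒱 → ℕ → 𝒟
  /-- the action on vertices -/
  f : 𝒱 → 𝒱
  /-- bad directions -/
  bad : 𝒱 → Finset 𝒟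
  bad_card : ∀ ζ, (bad ζ).card ≤ d
  good_map : ∀ ζ i j, dir ζ i ∉ bad ζ → dir ζ i = dir ζ j → dir (f ζ) (i + 1) = dir (f ζ) (j + 1)
  fto : ∀ ζ δ' (Ds : Finset 𝒟), (∀ δ ∈ Ds, δ ∉ bad ζ ∧ ∃ i, dir ζ i = δ ∧ dir (f ζ) (i + 1) = δ') →
    Ds.card ≤ d
  tree : ∀ ζ ζ', ζ ≠ ζ' → ∃ δ δ', ∀ i, dir ζ i ≠ δ → dir ζ' i = δ'

namespace TreeDyn

variable {𝒱 𝒟 : Type*} {d : ℕ} (S : TreeDyn 𝒱 𝒟 d)

/-- `i` stays in good directions for `t` steps -/
def Good (t : ℕ) (ζ : 𝒱) (i : ℕ) : Prop := ∀ s < t, S.dir (S.f^[s] ζ) (i + s) ∉ S.bad (S.f^[s] ζ)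

lemma good_zero (ζ : 𝒱) (i : ℕ) : S.Good 0 ζ i := by
  intro s hs; omega

lemma Good.mono {t t' : ℕ} {ζ : 𝒱} {i : ℕ} (h : S.Good t' ζ i) (htt : t ≤ t') : S.Good t ζ i :=
  fun s hs => h s (by omega)

lemma good_succ {t : ℕ} {ζ : 𝒱} {i : ℕ} :
    S.Good (t + 1) ζ i ↔ S.Good t ζ i ∧ S.dir (S.f^[t] ζ) (i + t) ∉ S.bad (S.f^[t] ζ) := by
  constructor
  · intro h
    exact ⟨Good.mono S h (by omega), h t (by omega)⟩
  · rintro ⟨h1, h2⟩ s hs
    rcases Nat.lt_succ_iff_lt_or_eq.mp hs with h | rfl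
    · exact h1 s h
    · exact h2

lemma Good.shift {s t : ℕ} {ζ : 𝒱} {i : ℕ} (h : S.Good (s + t) ζ i) :
    S.Good t (S.f^[s] ζ) (i + s) := by
  intro u hu
  have := h (s + u) (by omega)
  rwa [add_comm s u, Function.iterate_add_apply, show i + (u + s) = i + s + u by ring] at this

lemma Good.dir_eq {t : ℕ} {ζ : 𝒱} {i j : ℕ} (h : S.Good t ζ i) (hij : S.dir ζ i = S.dir ζ j) :
    ∀ s ≤ t, S.dir (S.f^[s] ζ) (i + s) = S.dir (S.f^[s] ζ) (j + s) := by
  intro s
  induction s with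
  | zero => intro _; simpa using hij
  | succ s ih =>
    intro hs
    have h1 := ih (by omega)
    have h2 := S.good_map (S.f^[s] ζ) (i + s) (j + s) (h s (by omega)) h1
    rwa [← Function.iterate_succ_apply' S.f s ζ] at h2

lemma Good.transfer {t : ℕ} {ζ : 𝒱} {i j : ℕ} (h : S.Good t ζ i) (hij : S.dir ζ i = S.dir ζ j) :
    S.Good t ζ j := by
  intro s hs
  rw [← Good.dir_eq S h hij s hs.le]
  exact h s hs

/-- `t`-step finiteness of fibres -/
lemma fto_iter (t : ℕ) : ∀ (ζ : 𝒱) (δ' : 𝒟) (Ds : Finset 𝒟),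
    (∀ δ ∈ Ds, ∃ i, S.Good t ζ i ∧ S.dir ζ i = δ ∧ S.dir (S.f^[t] ζ) (i + t) = δ') →
    Ds.card ≤ d ^ t := by
  classical
  induction t with
  | zero =>
    intro ζ δ' Ds h
    rw [pow_zero]
    have : Ds ⊆ {δ'} := by
      intro δ hδ
      obtain ⟨i, _, h1, h2⟩ := h δ hδ
      rw [mem_singleton, ← h1, ← h2]
      simp
    exact (card_le_card this).trans (by simp)
  | succ t ih =>
    intro ζ δ' Ds h
    choose! i hgood hdir hend using h
    set g : 𝒟 → 𝒟 := fun δ => S.dir (S.f ζ) (i δ + 1) with hg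
    have h1 : (Ds.image g).card ≤ d ^ t := by
      apply ih (S.f ζ) δ'
      intro δ1 hδ1
      obtain ⟨δ, hδ, rfl⟩ := mem_image.mp hδ1
      refine ⟨i δ + 1, ?_, rfl, ?_⟩
      · have := Good.shift S (s := 1) (t := t) (by rw [add_comm]; exact hgood δ hδ)
        simpa using this
      · have := hend δ hδ
        rwa [Function.iterate_succ_apply, show i δ + (t + 1) = i δ + 1 + t by ring] at this
    have h2 : ∀ δ1 ∈ Ds.image g, (Ds.filter fun δ => g δ = δ1).card ≤ d := by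
      intro δ1 _
      apply S.fto ζ δ1
      intro δ hδ
      rw [mem_filter] at hδ
      refine ⟨?_, i δ, hdir δ hδ.1, hδ.2⟩
      have := hgood δ hδ.1 0 (by omega)
      simpa [hdir δ hδ.1] using this
    have h3 := card_le_mul_card_image (f := g) Ds d h2
    calc Ds.card ≤ d * (Ds.image g).card := h3
      _ ≤ d * d ^ t := Nat.mul_le_mul_left _ h1
      _ = d ^ (t + 1) := by ring

section window

variable (n : ℕ)

open Classical in
/-- number of indices of the window in a direction -/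
noncomputable def mass (ζ : 𝒱) (δ : 𝒟) : ℕ := ((range n).filter fun i => S.dir ζ i = δ).card

open Classical in
/-- indices in light directions -/
noncomputable def light (θ : ℝ) (ζ : 𝒱) : Finset ℕ :=
  (range n).filter fun i => (S.mass n ζ (S.dir ζ i) : ℝ) < θ

variable {n}

lemma mem_light {θ : ℝ} {ζ : 𝒱} {i : ℕ} :
    i ∈ S.light n θ ζ ↔ i < n ∧ (S.mass n ζ (S.dir ζ i) : ℝ) < θ := by
  unfold light
  rw [mem_filter, mem_range]

/-- a set of light indices in a single direction is small -/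
lemma card_light_dir {θ : ℝ} (hθ : 0 ≤ θ) {ζ : 𝒱} {δ : 𝒟} (s : Finset ℕ)
    (hs : ∀ i ∈ s, i ∈ S.light n θ ζ ∧ S.dir ζ i = δ) : (s.card : ℝ) ≤ θ := by
  classical
  rcases s.eq_empty_or_nonempty with rfl | ⟨i, hi⟩
  · simpa using hθ
  have h1 := (S.mem_light.mp (hs i hi).1).2
  rw [(hs i hi).2] at h1
  refine le_trans ?_ h1.le
  unfold mass
  exact_mod_cast card_le_card fun j hj => mem_filter.mpr
    ⟨mem_range.mpr (S.mem_light.mp (hs j hj).1).1, (hs j hj).2⟩

/-- light sets of different vertices are almost disjoint -/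
lemma card_light_inter {θ θ' : ℝ} (hθ : 0 ≤ θ) (hθ' : 0 ≤ θ') {ζ ζ' : 𝒱} (hne : ζ ≠ ζ') (s : Finset ℕ)
    (hs : ∀ i ∈ s, i ∈ S.light n θ ζ ∧ i ∈ S.light n θ' ζ') : (s.card : ℝ) ≤ θ + θ' := by
  classical
  obtain ⟨δ, δ', h⟩ := S.tree ζ ζ' hne
  have h1 := S.card_light_dir hθ (ζ := ζ) (δ := δ) (s.filter fun i => S.dir ζ i = δ) (by
    intro i hi
    rw [mem_filter] at hi
    exact ⟨(hs i hi.1).1, hi.2⟩)
  have h2 := S.card_light_dir hθ' (ζ := ζ') (δ := δ') (s.filter fun i => ¬ S.dir ζ i = δ) (by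
    intro i hi
    rw [mem_filter] at hi
    exact ⟨(hs i hi.1).2, h i hi.2⟩)
  have h3 := card_filter_add_card_filter_not (s := s) (fun i => S.dir ζ i = δ)
  have h4 : (s.card : ℝ) = ((s.filter fun i => S.dir ζ i = δ).card : ℝ) +
      ((s.filter fun i => ¬ S.dir ζ i = δ).card : ℝ) := by
    exact_mod_cast h3.symm
  linarith

/-- few light indices end up in a given direction after `t` good steps -/
lemma card_light_to_dir {θ : ℝ} (hθ : 0 ≤ θ) (ζ : 𝒱) (t : ℕ) (δ' : 𝒟) (s : Finset ℕ)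
    (hs : ∀ i ∈ s, i ∈ S.light n θ ζ ∧ S.Good t ζ i ∧ S.dir (S.f^[t] ζ) (i + t) = δ') :
    (s.card : ℝ) ≤ d ^ t * θ := by
  classical
  have h1 : (s.image (S.dir ζ)).card ≤ d ^ t := by
    apply S.fto_iter t ζ δ'
    intro δ hδ
    obtain ⟨i, hi, rfl⟩ := mem_image.mp hδ
    exact ⟨i, (hs i hi).2.1, rfl, (hs i hi).2.2⟩
  have h2 : (s.card : ℝ) = ∑ δ ∈ s.image (S.dir ζ), ((s.filter fun i => S.dir ζ i = δ).card : ℝ) := by
    exact_mod_cast card_eq_sum_card_image (S.dir ζ) s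
  rw [h2]
  calc ∑ δ ∈ s.image (S.dir ζ), ((s.filter fun i => S.dir ζ i = δ).card : ℝ)
      ≤ ∑ δ ∈ s.image (S.dir ζ), θ := by
        apply sum_le_sum
        intro δ _
        apply S.card_light_dir hθ (ζ := ζ) (δ := δ)
        intro i hi
        rw [mem_filter] at hi
        exact ⟨(hs i hi.1).1, hi.2⟩
    _ = (s.image (S.dir ζ)).card * θ := by rw [sum_const, nsmul_eq_mul]
    _ ≤ d ^ t * θ := by
        apply mul_le_mul_of_nonneg_right _ hθ
        exact_mod_cast h1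

/-- few light indices leave the good directions -/
lemma card_light_not_good {θ : ℝ} (hθ : 0 ≤ θ) (ζ : 𝒱) (hd : 1 ≤ d) (t : ℕ) (s : Finset ℕ)
    (hs : ∀ i ∈ s, i ∈ S.light n θ ζ ∧ ¬ S.Good t ζ i) :
    (s.card : ℝ) ≤ t * d ^ t * θ := by
  classical
  induction t generalizing s with
  | zero =>
    have : s = ∅ := by
      rw [eq_empty_iff_forall_notMem]
      intro i hi
      exact (hs i hi).2 (S.good_zero ζ i)
    rw [this]; simp
  | succ t ih =>
    have h1 := ih (s.filter fun i => ¬ S.Good t ζ i) (by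
      intro i hi
      rw [mem_filter] at hi
      exact ⟨(hs i hi.1).1, hi.2⟩)
    have h2 : ((s.filter fun i => ¬ ¬ S.Good t ζ i).card : ℝ) ≤ d * (d ^ t * θ) := by
      set s' := s.filter fun i => ¬ ¬ S.Good t ζ i with hs'
      have hmem : ∀ i ∈ s', i ∈ S.light n θ ζ ∧ S.Good t ζ i ∧
          S.dir (S.f^[t] ζ) (i + t) ∈ S.bad (S.f^[t] ζ) := by
        intro i hi
        rw [hs', mem_filter, not_not] at hi
        refine ⟨(hs i hi.1).1, hi.2, ?_⟩
        by_contra hb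
        exact (hs i hi.1).2 (S.good_succ.mpr ⟨hi.2, hb⟩)
      have h3 : (s'.card : ℝ) ≤ ∑ δ ∈ S.bad (S.f^[t] ζ),
          ((s'.filter fun i => S.dir (S.f^[t] ζ) (i + t) = δ).card : ℝ) := by
        have := card_eq_sum_card_fiberwise (f := fun i => S.dir (S.f^[t] ζ) (i + t)) (s := s')
          (t := S.bad (S.f^[t] ζ)) (fun i hi => (hmem i hi).2.2)
        exact_mod_cast this.le
      refine h3.trans ?_
      calc ∑ δ ∈ S.bad (S.f^[t] ζ), ((s'.filter fun i => S.dir (S.f^[t] ζ) (i + t) = δ).card : ℝ)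
          ≤ ∑ δ ∈ S.bad (S.f^[t] ζ), (d ^ t * θ : ℝ) := by
            apply sum_le_sum
            intro δ _
            apply S.card_light_to_dir hθ ζ t δ
            intro i hi
            rw [mem_filter] at hi
            exact ⟨(hmem i hi.1).1, (hmem i hi.1).2.1, hi.2⟩
        _ = (S.bad (S.f^[t] ζ)).card * (d ^ t * θ) := by rw [sum_const, nsmul_eq_mul]
        _ ≤ d * (d ^ t * θ) := by
            apply mul_le_mul_of_nonneg_right _ (by positivity)
            exact_mod_cast S.bad_card _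
    have h3 := card_filter_add_card_filter_not (s := s) (fun i => ¬ S.Good t ζ i)
    have h4 : (s.card : ℝ) = ((s.filter fun i => ¬ S.Good t ζ i).card : ℝ) +
        ((s.filter fun i => ¬ ¬ S.Good t ζ i).card : ℝ) := by
      exact_mod_cast h3.symm
    have hd1 : (1 : ℝ) ≤ d := by exact_mod_cast hd
    have h5 : (t : ℝ) * d ^ t * θ ≤ t * d ^ (t + 1) * θ := by
      apply mul_le_mul_of_nonneg_right _ hθ
      apply mul_le_mul_of_nonneg_left _ (Nat.cast_nonneg t)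
      exact pow_le_pow_right₀ hd1 (by omega)
    push_cast
    calc (s.card : ℝ) ≤ t * d ^ t * θ + d * (d ^ t * θ) := by rw [h4]; linarith
      _ ≤ t * d ^ (t + 1) * θ + d ^ (t + 1) * θ := by
          rw [pow_succ]
          rw [pow_succ] at h5
          linarith
      _ = ((t : ℝ) + 1) * d ^ (t + 1) * θ := by ring

/-- few light indices land in heavy directions -/
lemma card_light_to_heavy {θ θ' : ℝ} (hθ : 0 ≤ θ) (hθ' : 0 < θ') (ζ : 𝒱) (t : ℕ) (s : Finset ℕ)
    (hs : ∀ i ∈ s, i ∈ S.light n θ ζ ∧ S.Good t ζ i ∧ i + t < n ∧ i + t ∉ S.light n θ' (S.f^[t] ζ)) :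
    (s.card : ℝ) ≤ (n / θ') * d ^ t * θ := by
  classical
  set Hd : Finset 𝒟 := ((range n).image (S.dir (S.f^[t] ζ))).filter
    (fun δ => θ' ≤ (S.mass n (S.f^[t] ζ) δ : ℝ)) with hHd
  have hcard : (Hd.card : ℝ) * θ' ≤ n := by
    calc (Hd.card : ℝ) * θ' = ∑ δ ∈ Hd, θ' := by rw [sum_const, nsmul_eq_mul]
      _ ≤ ∑ δ ∈ Hd, (S.mass n (S.f^[t] ζ) δ : ℝ) := by
          apply sum_le_sum
          intro δ hδ
          rw [hHd, mem_filter] at hδ
          exact hδ.2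
      _ ≤ ∑ δ ∈ (range n).image (S.dir (S.f^[t] ζ)), (S.mass n (S.f^[t] ζ) δ : ℝ) := by
          apply sum_le_sum_of_subset_of_nonneg (filter_subset _ _)
          intro δ _ _
          positivity
      _ = n := by
          unfold mass
          have := card_eq_sum_card_image (S.dir (S.f^[t] ζ)) (range n)
          rw [card_range] at this
          exact_mod_cast this.symm
  have hmaps : ∀ i ∈ s, S.dir (S.f^[t] ζ) (i + t) ∈ Hd := by
    intro i hi
    obtain ⟨_, _, h3, h4⟩ := hs i hi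
    rw [hHd, mem_filter]
    refine ⟨mem_image_of_mem _ (mem_range.mpr h3), ?_⟩
    by_contra hlt
    push Not at hlt
    exact h4 (S.mem_light.mpr ⟨h3, hlt⟩)
  have h1 : (s.card : ℝ) = ∑ δ ∈ Hd, ((s.filter fun i => S.dir (S.f^[t] ζ) (i + t) = δ).card : ℝ) := by
    exact_mod_cast card_eq_sum_card_fiberwise (f := fun i => S.dir (S.f^[t] ζ) (i + t)) (s := s)
      (t := Hd) hmaps
  rw [h1]
  calc ∑ δ ∈ Hd, ((s.filter fun i => S.dir (S.f^[t] ζ) (i + t) = δ).card : ℝ)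
      ≤ ∑ δ ∈ Hd, (d ^ t * θ : ℝ) := by
        apply sum_le_sum
        intro δ _
        apply S.card_light_to_dir hθ ζ t δ
        intro i hi
        rw [mem_filter] at hi
        exact ⟨(hs i hi.1).1, (hs i hi.1).2.1, hi.2⟩
    _ = Hd.card * (d ^ t * θ) := by rw [sum_const, nsmul_eq_mul]
    _ ≤ (n / θ') * (d ^ t * θ) := by
        apply mul_le_mul_of_nonneg_right _ (by positivity)
        rw [le_div_iff₀ hθ']
        exact hcard
    _ = (n / θ') * d ^ t * θ := by ring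

/-- the error of `t` steps -/
noncomputable def err (d : ℕ) (n : ℕ) (t : ℕ) (θ θ' : ℝ) : ℝ := (t * d ^ t + (n / θ') * d ^ t) * θ

lemma card_light_err {θ θ' : ℝ} (hθ : 0 ≤ θ) (hθ' : 0 < θ') (ζ : 𝒱) (hd : 1 ≤ d) (t : ℕ) (s : Finset ℕ)
    (hs : ∀ i ∈ s, i ∈ S.light n θ ζ ∧ i + t < n ∧
      ¬ (S.Good t ζ i ∧ i + t ∈ S.light n θ' (S.f^[t] ζ))) :
    (s.card : ℝ) ≤ err d n t θ θ' := by
  classical
  have h1 := S.card_light_not_good (n := n) hθ ζ hd t (s.filter fun i => ¬ S.Good t ζ i) (by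
    intro i hi
    rw [mem_filter] at hi
    exact ⟨(hs i hi.1).1, hi.2⟩)
  have h2 := S.card_light_to_heavy (n := n) hθ hθ' ζ t (s.filter fun i => ¬ ¬ S.Good t ζ i) (by
    intro i hi
    rw [mem_filter, not_not] at hi
    obtain ⟨h3, h4, h5⟩ := hs i hi.1
    exact ⟨h3, hi.2, h4, fun h6 => h5 ⟨hi.2, h6⟩⟩)
  have h3 := card_filter_add_card_filter_not (s := s) (fun i => ¬ S.Good t ζ i)
  have h4 : (s.card : ℝ) = ((s.filter fun i => ¬ S.Good t ζ i).card : ℝ) +
      ((s.filter fun i => ¬ ¬ S.Good t ζ i).card : ℝ) := by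
    exact_mod_cast h3.symm
  unfold err
  rw [h4]
  linarith

lemma err_mono (d n : ℕ) (hd : 1 ≤ d) {t t' : ℕ} (htt : t ≤ t') {θ θ' : ℝ} (hθ : 0 ≤ θ) (hθ' : 0 < θ') :
    err d n t θ θ' ≤ err d n t' θ θ' := by
  unfold err
  apply mul_le_mul_of_nonneg_right _ hθ
  have hd1 : (1 : ℝ) ≤ d := by exact_mod_cast hd
  have h1 : (d : ℝ) ^ t ≤ d ^ t' := pow_le_pow_right₀ hd1 htt
  have h2 : (t : ℝ) ≤ t' := by exact_mod_cast htt
  have h3 : (0 : ℝ) ≤ n / θ' := by positivity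
  apply add_le_add
  · exact mul_le_mul h2 h1 (by positivity) (Nat.cast_nonneg _)
  · exact mul_le_mul_of_nonneg_left h1 h3

end window

end TreeDyn

end Pool.Agent.Helper33.UB
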